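import Pool.Agent.H913R3.MH.Stmts

open MeasureTheory Set Filter Topology
open scoped ENNReal

namespace H913R3.MH

/-- A finite set of reals with gaps at least `d` inside `[u, v]` has at most `(v-u)/d + 1` points. -/
lemma card_sep_le (S : Finset ℝ) (d u v : ℝ) (hd : 0 < d) (huv : u ≤ v)
    (hS : ∀ x ∈ S, u ≤ x ∧ x ≤ v) (hsep : ∀ x ∈ S, ∀ y ∈ S, x ≠ y → d ≤ |x - y|) :
    (S.card : ℝ) ≤ (v - u) / d + 1 := by
  have hinj : Set.InjOn (fun x : ℝ => ⌊(x - u) / d⌋) S := by
    intro x hx y hy hxy
    by_contra hne
    have h1 := hsep x hx y hy hne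
    have h2 : |(x - u) / d - (y - u) / d| < 1 := Int.abs_sub_lt_one_of_floor_eq_floor hxy
    have h3 : (x - u) / d - (y - u) / d = (x - y) / d := by ring
    rw [h3, abs_div, abs_of_pos hd, div_lt_one hd] at h2
    linarith
  have hmaps : ∀ x ∈ S, (fun x : ℝ => ⌊(x - u) / d⌋) x ∈ Finset.Icc (0 : ℤ) ⌊(v - u) / d⌋ := by
    intro x hx
    obtain ⟨h1, h2⟩ := hS x hx
    rw [Finset.mem_Icc]
    refine ⟨Int.floor_nonneg.mpr (div_nonneg (by linarith) hd.le), Int.floor_le_floor ?_⟩
    exact div_le_div_of_nonneg_right (by linarith) hd.le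
  have hcard := Finset.card_le_card_of_injOn _ hmaps hinj
  rw [Int.card_Icc] at hcard
  have h0 : (0 : ℤ) ≤ ⌊(v - u) / d⌋ := Int.floor_nonneg.mpr (div_nonneg (by linarith) hd.le)
  have h4 : ((⌊(v - u) / d⌋ + 1 - 0).toNat : ℤ) = ⌊(v - u) / d⌋ + 1 := by
    rw [Int.toNat_of_nonneg (by linarith)]; ring
  have h5 : (S.card : ℤ) ≤ ⌊(v - u) / d⌋ + 1 := by
    calc (S.card : ℤ) ≤ ((⌊(v - u) / d⌋ + 1 - 0).toNat : ℤ) := by exact_mod_cast hcard
      _ = _ := h4
  have h6 : (S.card : ℝ) ≤ (⌊(v - u) / d⌋ : ℝ) + 1 := by exact_mod_cast h5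
  have h7 := Int.floor_le ((v - u) / d)
  linarith

theorem taskGreedy : TaskGreedy := by
  intro c σ A hc hσ hA P M R a b k₀ hab hM hAM hR hRM hsep hcount hdiv
  have hcσ : 0 < c * σ := mul_pos hc hσ
  have hA1 : 1 < A := by
    have : 0 < 32 / (c * σ) := by positivity
    linarith
  set J : ℝ := b - a with hJ
  have hJ0 : 0 < J := by rw [hJ]; linarith
  -- `M` is increasing and tends to infinity
  have hMge : ∀ k, A ^ k * M 0 ≤ M k := by
    intro k
    induction k with
    | zero => simp
    | succ n ih =>
      calc A ^ (n + 1) * M 0 = A * (A ^ n * M 0) := by ring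
        _ ≤ A * M n := by gcongr
        _ ≤ M (n + 1) := hAM n
  have hMmono : ∀ k, M k ≤ M (k + 1) := by
    intro k
    have h1 := hAM k
    have h2 := hM k
    nlinarith
  have hMmono' : Monotone M := monotone_nat_of_le_succ hMmono
  obtain ⟨k1, hk1, hk1J⟩ : ∃ k1, k₀ ≤ k1 ∧ σ ≤ M k1 * J := by
    have ht : Tendsto (fun k : ℕ => A ^ k) atTop atTop := tendsto_pow_atTop_atTop_of_one_lt hA1
    have h1 := (ht.eventually (eventually_ge_atTop (σ / (M 0 * J)))).and (eventually_ge_atTop k₀)
    obtain ⟨k1, h2, h3⟩ := h1.exists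
    refine ⟨k1, h3, ?_⟩
    have hpos : 0 < M 0 * J := mul_pos (hM 0) hJ0
    rw [div_le_iff₀ hpos] at h2
    calc σ ≤ A ^ k1 * (M 0 * J) := h2
      _ = A ^ k1 * M 0 * J := by ring
      _ ≤ M k1 * J := by
        have := hMge k1
        gcongr
  have hMJ : ∀ k, k1 ≤ k → σ ≤ M k * J := by
    intro k hk
    calc σ ≤ M k1 * J := hk1J
      _ ≤ M k * J := by
        have := hMmono' hk
        gcongr
  have hRJ : ∀ k, k1 ≤ k → R k ≤ J / 4 := by
    intro k hk
    have h1 := hMJ k hk
    have h2 := hRM k
    have h3 := hM k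
    have h4 : R k * M k ≤ J / 4 * M k := by nlinarith
    exact le_of_mul_le_mul_right h4 h3
  let G : ℕ → Finset ℝ := fun k =>
    (P k).filter (fun x => x ∈ Icc (a + (b - a) / 4) (b - (b - a) / 4))
  have hGmem : ∀ k x, x ∈ G k ↔ x ∈ P k ∧ a + J / 4 ≤ x ∧ x ≤ b - J / 4 := by
    intro k x
    simp only [G, Finset.mem_filter, Set.mem_Icc, hJ]
  have hGsep : ∀ k, ∀ x ∈ G k, ∀ y ∈ G k, x ≠ y → σ / M k ≤ |x - y| := by
    intro k x hx y hy hxy
    exact hsep k x ((hGmem k x).1 hx).1 y ((hGmem k y).1 hy).1 hxy
  have hGcard_up : ∀ k, k1 ≤ k → ((G k).card : ℝ) ≤ 2 * M k * J / σ := by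
    intro k hk
    have h3 := hM k
    have h1 := card_sep_le (G k) (σ / M k) (a + J / 4) (b - J / 4) (div_pos hσ h3)
      (by rw [hJ]; linarith) (fun x hx => ((hGmem k x).1 hx).2) (hGsep k)
    have h2 : (b - J / 4 - (a + J / 4)) / (σ / M k) = M k * J / (2 * σ) := by
      have : b - J / 4 - (a + J / 4) = J / 2 := by rw [hJ]; ring
      rw [this]
      field_simp
    rw [h2] at h1
    have h4 := hMJ k hk
    have h5 : 1 ≤ M k * J / σ := by rwa [le_div_iff₀ hσ, one_mul]
    have h6 : M k * J / (2 * σ) = (M k * J / σ) / 2 := by field_simp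
    have h7 : 2 * M k * J / σ = 2 * (M k * J / σ) := by ring
    rw [h7]; rw [h6] at h1; linarith
  have hGcard_low : ∀ k, k1 ≤ k → c * M k * J ≤ ((G k).card : ℝ) := by
    intro k hk
    exact hcount k (le_trans hk1 hk)
  -- the greedy construction
  have key : ∀ n : ℕ, ∃ T : Finset (ℕ × ℝ),
      (∀ p ∈ T, k1 ≤ p.1 ∧ p.1 < k1 + n ∧ p.2 ∈ G p.1) ∧
      (∀ p ∈ T, ∀ p' ∈ T, p ≠ p' → R p.1 + R p'.1 < |p.2 - p'.2|) ∧
      ((T.card : ℝ) ≤ c * J * M (k1 + n) / 16) ∧
      (c * σ / 16 * J ≤ ∑ p ∈ T, R p.1 ∨
        c / 2 * J * ∑ l ∈ Finset.range n, M (k1 + l) * R (k1 + l) ≤ ∑ p ∈ T, R p.1) := by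
    intro n
    induction n with
    | zero =>
      refine ⟨∅, by simp, by simp, ?_, Or.inr (by simp)⟩
      have := hM (k1 + 0)
      simp only [Finset.card_empty, Nat.cast_zero]
      positivity
    | succ n ih =>
      obtain ⟨T, hT1, hT2, hT3, hT4⟩ := ih
      set k := k1 + n with hk
      have hkk : k1 + (n + 1) = k + 1 := by omega
      have hk1k : k1 ≤ k := by omega
      have hMk := hM k
      have hcJM : c * J * M k / 16 + 2 * M k * J / σ ≤ c * J * M (k + 1) / 16 := by
        have h1 := hAM k
        have h2 : (1 + 32 / (c * σ)) * M k ≤ M (k + 1) := le_trans (by gcongr) h1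
        have h3 : c * J * ((1 + 32 / (c * σ)) * M k) / 16 ≤ c * J * M (k + 1) / 16 := by gcongr
        have h4 : c * J * ((1 + 32 / (c * σ)) * M k) / 16 = c * J * M k / 16 + 2 * M k * J / σ := by
          field_simp
          ring
        linarith
      rw [hkk]
      by_cases hbig : c * σ / 16 * J ≤ ∑ p ∈ T, R p.1
      · refine ⟨T, fun p hp => ?_, hT2, ?_, Or.inl hbig⟩
        · obtain ⟨h1, h2, h3⟩ := hT1 p hp
          exact ⟨h1, by omega, h3⟩
        · have : 0 ≤ 2 * M k * J / σ := by positivity
          linarith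
      · have hsum : c / 2 * J * ∑ l ∈ Finset.range n, M (k1 + l) * R (k1 + l) ≤ ∑ p ∈ T, R p.1 := by
          rcases hT4 with h | h
          · exact absurd h hbig
          · exact h
        push_neg at hbig
        let N : Finset ℝ := (G k).filter (fun x => ∀ p ∈ T, R k + R p.1 < |x - p.2|)
        let B : Finset ℝ := (G k).filter (fun x => ¬ ∀ p ∈ T, R k + R p.1 < |x - p.2|)
        have hNB : N.card + B.card = (G k).card :=
          Finset.card_filter_add_card_filter_not _
        have hBsub : B ⊆ T.biUnion (fun p => (G k).filter (fun x => |x - p.2| ≤ R k + R p.1)) := by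
          intro x hx
          simp only [B, Finset.mem_filter, not_forall, not_lt] at hx
          obtain ⟨hx1, p, hp, hx2⟩ := hx
          rw [Finset.mem_biUnion]
          exact ⟨p, hp, by rw [Finset.mem_filter]; exact ⟨hx1, hx2⟩⟩
        have hBcard : (B.card : ℝ) ≤ 7 * c * J * M k / 32 := by
          have h1 : (B.card : ℝ) ≤ ∑ p ∈ T,
              (((G k).filter (fun x => |x - p.2| ≤ R k + R p.1)).card : ℝ) := by
            have h2 := le_trans (Finset.card_le_card hBsub) Finset.card_biUnion_le
            exact_mod_cast h2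
          have h2 : ∀ p ∈ T, (((G k).filter (fun x => |x - p.2| ≤ R k + R p.1)).card : ℝ) ≤
              2 * M k / σ * R p.1 + 3 / 2 := by
            intro p hp
            have h3 := card_sep_le ((G k).filter (fun x => |x - p.2| ≤ R k + R p.1)) (σ / M k)
              (p.2 - (R k + R p.1)) (p.2 + (R k + R p.1)) (div_pos hσ hMk)
              (by have := hR k; have := hR p.1; linarith)
              (by
                intro x hx
                rw [Finset.mem_filter] at hx
                have h4 := abs_le.1 hx.2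
                exact ⟨by linarith [h4.1], by linarith [h4.2]⟩)
              (by
                intro x hx y hy hxy
                rw [Finset.mem_filter] at hx hy
                exact hGsep k x hx.1 y hy.1 hxy)
            have h5 : (p.2 + (R k + R p.1) - (p.2 - (R k + R p.1))) / (σ / M k) =
                2 * M k / σ * R p.1 + 2 * (R k * M k) / σ := by
              field_simp
              ring
            have h6 : 2 * (R k * M k) / σ ≤ 1 / 2 := by
              rw [div_le_iff₀ hσ]
              have := hRM k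
              linarith
            rw [h5] at h3
            linarith
          have h3 : (B.card : ℝ) ≤ ∑ p ∈ T, (2 * M k / σ * R p.1 + 3 / 2) :=
            le_trans h1 (Finset.sum_le_sum h2)
          have h4 : ∑ p ∈ T, (2 * M k / σ * R p.1 + 3 / 2) =
              2 * M k / σ * (∑ p ∈ T, R p.1) + 3 / 2 * (T.card : ℝ) := by
            rw [Finset.sum_add_distrib, ← Finset.mul_sum, Finset.sum_const, nsmul_eq_mul]
            ring
          have h5 : 2 * M k / σ * (∑ p ∈ T, R p.1) ≤ 2 * M k / σ * (c * σ / 16 * J) := by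
            have : 0 ≤ 2 * M k / σ := by positivity
            exact mul_le_mul_of_nonneg_left hbig.le this
          have h6 : 2 * M k / σ * (c * σ / 16 * J) = c * J * M k / 8 := by
            field_simp
            ring
          rw [h4] at h3
          linarith
        have hNcard : c / 2 * J * M k ≤ (N.card : ℝ) := by
          have h1 := hGcard_low k hk1k
          have h2 : (N.card : ℝ) + (B.card : ℝ) = ((G k).card : ℝ) := by exact_mod_cast hNB
          have h3 : 0 ≤ c * J * M k := by positivity
          nlinarith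
        have hNle : (N.card : ℝ) ≤ 2 * M k * J / σ := by
          have h1 := hGcard_up k hk1k
          have h2 : (N.card : ℝ) ≤ ((G k).card : ℝ) := by
            exact_mod_cast Finset.card_le_card (Finset.filter_subset _ _)
          linarith
        have hinj : Function.Injective (fun x : ℝ => ((k, x) : ℕ × ℝ)) := by
          intro x y hxy
          simpa using hxy
        let N' : Finset (ℕ × ℝ) := N.map ⟨fun x : ℝ => ((k, x) : ℕ × ℝ), hinj⟩
        have hN'mem : ∀ p, p ∈ N' ↔ p.1 = k ∧ p.2 ∈ N := by
          intro p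
          simp only [N', Finset.mem_map, Function.Embedding.coeFn_mk]
          constructor
          · rintro ⟨x, hx, rfl⟩
            exact ⟨rfl, hx⟩
          · rintro ⟨h1, h2⟩
            exact ⟨p.2, h2, by rw [← h1]⟩
        have hdisj : Disjoint T N' := by
          rw [Finset.disjoint_left]
          intro p hp hp'
          have h1 := (hT1 p hp).2.1
          have h2 := ((hN'mem p).1 hp').1
          omega
        have hN'card : N'.card = N.card := Finset.card_map _
        have hN'sum : ∑ p ∈ N', R p.1 = (N.card : ℝ) * R k := by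
          simp only [N', Finset.sum_map, Function.Embedding.coeFn_mk, Finset.sum_const,
            nsmul_eq_mul]
        refine ⟨T.disjUnion N' hdisj, ?_, ?_, ?_, ?_⟩
        · intro p hp
          rw [Finset.mem_disjUnion] at hp
          rcases hp with hp | hp
          · obtain ⟨h1, h2, h3⟩ := hT1 p hp
            exact ⟨h1, by omega, h3⟩
          · obtain ⟨h1, h2⟩ := (hN'mem p).1 hp
            refine ⟨by omega, by omega, ?_⟩
            rw [h1]
            exact (Finset.mem_filter.1 h2).1
        · intro p hp p' hp' hne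
          rw [Finset.mem_disjUnion] at hp hp'
          rcases hp with hp | hp <;> rcases hp' with hp' | hp'
          · exact hT2 p hp p' hp' hne
          · obtain ⟨h1, h2⟩ := (hN'mem p').1 hp'
            have h3 := (Finset.mem_filter.1 h2).2 p hp
            rw [h1, abs_sub_comm]
            linarith
          · obtain ⟨h1, h2⟩ := (hN'mem p).1 hp
            have h3 := (Finset.mem_filter.1 h2).2 p' hp'
            rw [h1]
            exact h3
          · obtain ⟨h1, h2⟩ := (hN'mem p).1 hp
            obtain ⟨h1', h2'⟩ := (hN'mem p').1 hp'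
            have hne' : p.2 ≠ p'.2 := by
              intro h
              apply hne
              exact Prod.ext (by rw [h1, h1']) h
            have h3 := hGsep k p.2 (Finset.mem_filter.1 h2).1 p'.2 (Finset.mem_filter.1 h2').1 hne'
            rw [h1, h1']
            have h4 : R k ≤ σ / M k / 4 := by
              rw [div_div, le_div_iff₀ (by positivity)]
              have := hRM k
              linarith
            have h5 := hR k
            linarith
        · rw [Finset.card_disjUnion, hN'card]
          push_cast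
          linarith
        · right
          rw [Finset.sum_disjUnion, hN'sum, Finset.sum_range_succ, mul_add]
          have h1 : c / 2 * J * (M k * R k) ≤ (N.card : ℝ) * R k := by
            have := hR k
            calc c / 2 * J * (M k * R k) = c / 2 * J * M k * R k := by ring
              _ ≤ (N.card : ℝ) * R k := by gcongr
          rw [← hk]
          linarith
  -- divergence
  have hdiv' : ¬ Summable (fun l => M (k1 + l) * R (k1 + l)) := by
    intro hs
    apply hdiv
    have h1 : Summable (fun l => (fun k => M k * R k) (l + k1)) := by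
      simpa [add_comm] using hs
    exact (summable_nat_add_iff k1).1 h1
  have htend : Tendsto (fun n => ∑ l ∈ Finset.range n, M (k1 + l) * R (k1 + l)) atTop atTop :=
    (not_summable_iff_tendsto_nat_atTop_of_nonneg
      (fun l => (mul_pos (hM _) (hR _)).le)).1 hdiv'
  obtain ⟨n, hn⟩ := (htend.eventually (eventually_ge_atTop (σ / 8))).exists
  obtain ⟨T, hT1, hT2, -, hT4⟩ := key n
  refine ⟨T, ?_, hT2, ?_⟩
  · intro p hp
    obtain ⟨h1, h2, h3⟩ := hT1 p hp
    obtain ⟨h4, h5, h6⟩ := (hGmem p.1 p.2).1 h3
    have h7 := hRJ p.1 h1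
    exact ⟨le_trans hk1 h1, h4, by linarith, by linarith⟩
  · rcases hT4 with h | h
    · exact h
    · refine le_trans ?_ h
      have h1 : c / 2 * J * (σ / 8) ≤
          c / 2 * J * ∑ l ∈ Finset.range n, M (k1 + l) * R (k1 + l) := by
        gcongr
      calc c * σ / 16 * J = c / 2 * J * (σ / 8) := by ring
        _ ≤ _ := h1

end H913R3.MH
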