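import Pool.Agent.H341R2.WeilSharp

/-! Counting monic and squarefree polynomials over a finite field. -/

set_option autoImplicit false

namespace Pool.Agent.H271R3.RC

open Polynomial Finset
open Pool.Agent.H341R2.Sharp

section Card

variable {F : Type*} [Field F] [Fintype F]

theorem coeff_sum_fin {n : ℕ} (g : Fin n → F) (j : Fin n) :
    (∑ i : Fin n, C (g i) * X ^ (i : ℕ) : F[X]).coeff j = g j := by
  rw [finsetSum_coeff, Finset.sum_eq_single j]
  · simp
  · intro b _ hb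
    rw [coeff_C_mul, coeff_X_pow, if_neg, mul_zero]
    intro h
    exact hb (Fin.ext h.symm)
  · intro h
    exact absurd (Finset.mem_univ _) h

theorem card_Mon (n : ℕ) : (Mon F n).card = Fintype.card F ^ n := by
  classical
  have h1 : Fintype.card (Fin n → F) = Fintype.card F ^ n := by simp
  rw [← h1, ← Finset.card_univ]
  symm
  refine Finset.card_bij (fun g _ => X ^ n + ∑ i : Fin n, C (g i) * X ^ (i : ℕ)) ?_ ?_ ?_
  · intro g _
    have hd := degree_sum_fin_lt g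
    rw [mem_Mon]
    refine ⟨monic_X_pow_add hd, ?_⟩
    rw [natDegree_add_eq_left_of_degree_lt]
    · simp
    · rw [degree_X_pow]; exact hd
  · intro g _ g' _ h
    have h2 := add_left_cancel h
    funext j
    rw [← coeff_sum_fin g j, ← coeff_sum_fin g' j, h2]
  · intro h hh
    rw [mem_Mon] at hh
    refine ⟨fun i => h.coeff i, Finset.mem_univ _, ?_⟩
    have h3 := hh.1.as_sum
    rw [hh.2] at h3
    conv_rhs => rw [h3]
    rw [Finset.sum_range]

theorem dvd_of_sq_dvd {s l k : F[X]} (hs : Squarefree s) (h : l ^ 2 ∣ s * k ^ 2) (hk : k ≠ 0) :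
    l ∣ k := by
  classical
  have hc := isCoprime_div_gcd_div_gcd (p := l) (q := k) hk
  set e := GCDMonoid.gcd l k with he
  have hel : e ∣ l := GCDMonoid.gcd_dvd_left l k
  have hek : e ∣ k := GCDMonoid.gcd_dvd_right l k
  obtain ⟨l', hl'⟩ := hel
  obtain ⟨k', hk'⟩ := hek
  have he0 : e ≠ 0 := by
    intro h0
    rw [h0, zero_mul] at hk'
    exact hk hk'
  have h1 : l / e = l' := by
    rw [hl']; exact mul_div_cancel_left₀ _ he0
  have h2 : k / e = k' := by
    rw [hk']; exact mul_div_cancel_left₀ _ he0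
  rw [h1, h2] at hc
  have h3 : e ^ 2 * l' ^ 2 ∣ e ^ 2 * (s * k' ^ 2) := by
    have : e ^ 2 * l' ^ 2 = l ^ 2 := by rw [hl']; ring
    have h' : e ^ 2 * (s * k' ^ 2) = s * k ^ 2 := by rw [hk']; ring
    rw [this, h']; exact h
  have h4 : l' ^ 2 ∣ s * k' ^ 2 := (mul_dvd_mul_iff_left (pow_ne_zero 2 he0)).1 h3
  have h5 : l' ^ 2 ∣ s := (hc.pow (m := 2) (n := 2)).dvd_of_dvd_mul_right h4
  have h6 : IsUnit l' := hs l' (by rw [← pow_two]; exact h5)
  rw [hl', hk']
  exact mul_dvd_mul_left e (h6.dvd)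

theorem exists_decomp (n : ℕ) : ∀ D : F[X], D.Monic → D.natDegree ≤ n →
    ∃ s l : F[X], s.Monic ∧ l.Monic ∧ Squarefree s ∧ D = s * l ^ 2 := by
  induction n using Nat.strong_induction_on with
  | _ n ih =>
    intro D hD hn
    by_cases hs : Squarefree D
    · exact ⟨D, 1, hD, monic_one, hs, by simp⟩
    · have : ∃ x : F[X], x * x ∣ D ∧ ¬ IsUnit x := by
        by_contra hcon
        push Not at hcon
        exact hs hcon
      obtain ⟨x, ⟨c, hc⟩, hx⟩ := this
      have hx0 : x ≠ 0 := by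
        rintro rfl
        rw [zero_mul, zero_mul] at hc
        exact hD.ne_zero hc
      set a := x.leadingCoeff with ha
      have ha0 : a ≠ 0 := leadingCoeff_ne_zero.2 hx0
      set y := C a⁻¹ * x with hy
      have hym : y.Monic := by
        rw [Monic, hy, leadingCoeff_mul, leadingCoeff_C, ← ha, inv_mul_cancel₀ ha0]
      have hxy : x = C a * y := by
        rw [hy, ← mul_assoc, ← C_mul, mul_inv_cancel₀ ha0, C_1, one_mul]
      have hDy : D = y ^ 2 * (C (a * a) * c) := by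
        rw [hc, hxy, C_mul]; ring
      have hcm : (C (a * a) * c).Monic := by
        apply (hym.pow 2).of_mul_monic_left
        rw [← hDy]; exact hD
      have hydeg : 1 ≤ y.natDegree := by
        rw [Nat.one_le_iff_ne_zero]
        intro h0
        apply hx
        have := eq_one_of_monic_natDegree_zero hym h0
        rw [hxy, this, mul_one]
        exact isUnit_C.2 (isUnit_iff_ne_zero.2 ha0)
      have hdeg : D.natDegree = 2 * y.natDegree + (C (a * a) * c).natDegree := by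
        rw [hDy, (hym.pow 2).natDegree_mul hcm, hym.natDegree_pow]
      obtain ⟨s, l, h1, h2, h3, h4⟩ := ih (C (a * a) * c).natDegree (by omega) _ hcm le_rfl
      refine ⟨s, l * y, h1, h2.mul hym, h3, ?_⟩
      rw [hDy, h4]; ring

theorem decomp_unique {s l s' l' : F[X]} (hs : s.Monic) (hl : l.Monic)
    (hl' : l'.Monic) (hq : Squarefree s) (hq' : Squarefree s') (h : s * l ^ 2 = s' * l' ^ 2) :
    s = s' ∧ l = l' := by
  have h1 : l ∣ l' := dvd_of_sq_dvd hq' (by rw [← h]; exact dvd_mul_left _ _) hl'.ne_zero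
  have h2 : l' ∣ l := dvd_of_sq_dvd hq (by rw [h]; exact dvd_mul_left _ _) hl.ne_zero
  have h3 : l = l' := eq_of_monic_of_associated hl hl' (associated_of_dvd_dvd h1 h2)
  subst h3
  exact ⟨mul_right_cancel₀ (pow_ne_zero 2 hl.ne_zero) h, rfl⟩

open scoped Classical in
/-- monic squarefree polynomials of degree `n` -/
noncomputable def Hs (F : Type*) [Field F] [Fintype F] (n : ℕ) : Finset F[X] :=
  (Mon F n).filter Squarefree

theorem mem_Hs {n : ℕ} {D : F[X]} : D ∈ Hs F n ↔ D.Monic ∧ D.natDegree = n ∧ Squarefree D := by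
  classical
  rw [Hs, mem_filter, mem_Mon]
  tauto

theorem sum_decomp (ψ : F[X] → ℤ) (hψ : ∀ f g : F[X], f.Monic → g.Monic → ψ (f * g) = ψ f * ψ g)
    (n : ℕ) : ∑ D ∈ Mon F n, ψ D =
      ∑ j ∈ range (n / 2 + 1), (∑ s ∈ Hs F (n - 2 * j), ψ s) * ∑ l ∈ Mon F j, ψ l ^ 2 := by
  classical
  have h1 : ∀ j ∈ range (n / 2 + 1), (∑ s ∈ Hs F (n - 2 * j), ψ s) * ∑ l ∈ Mon F j, ψ l ^ 2 =
      ∑ x ∈ Hs F (n - 2 * j) ×ˢ Mon F j, ψ (x.1 * x.2 ^ 2) := by
    intro j _
    rw [sum_mul_sum, ← sum_product']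
    apply sum_congr rfl
    intro x hx
    rw [mem_product, mem_Hs, mem_Mon] at hx
    rw [hψ _ _ hx.1.1 (hx.2.1.pow 2), pow_two, pow_two, hψ _ _ hx.2.1 hx.2.1]
  rw [sum_congr rfl h1, sum_sigma']
  symm
  refine sum_bij (fun x _ => x.2.1 * x.2.2 ^ 2) ?_ ?_ ?_ ?_
  · rintro ⟨j, s, l⟩ hx
    rw [mem_sigma, mem_product, mem_Hs, mem_Mon, mem_range] at hx
    obtain ⟨hj, ⟨hs1, hs2, hs3⟩, hl1, hl2⟩ := hx
    simp only at hs1 hs2 hs3 hl1 hl2 hj ⊢
    rw [mem_Mon]
    refine ⟨hs1.mul (hl1.pow 2), ?_⟩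
    rw [hs1.natDegree_mul (hl1.pow 2), hl1.natDegree_pow, hs2, hl2]
    omega
  · rintro ⟨j, s, l⟩ hx ⟨j', s', l'⟩ hx' h
    rw [mem_sigma, mem_product, mem_Hs, mem_Mon, mem_range] at hx hx'
    obtain ⟨hj, ⟨hs1, hs2, hs3⟩, hl1, hl2⟩ := hx
    obtain ⟨hj', ⟨hs1', hs2', hs3'⟩, hl1', hl2'⟩ := hx'
    simp only at hs1 hs2 hs3 hl1 hl2 hs1' hs2' hs3' hl1' hl2' h
    obtain ⟨h5, h6⟩ := decomp_unique hs1 hl1 hl1' hs3 hs3' h
    subst h5 h6
    have : j = j' := by rw [← hl2, ← hl2']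
    subst this
    rfl
  · intro D hD
    rw [mem_Mon] at hD
    obtain ⟨s, l, h1, h2, h3, h4⟩ := exists_decomp D.natDegree D hD.1 le_rfl
    have hdeg : n = s.natDegree + 2 * l.natDegree := by
      rw [← hD.2, h4, h1.natDegree_mul (h2.pow 2), h2.natDegree_pow]
    refine ⟨⟨l.natDegree, s, l⟩, ?_, h4.symm⟩
    rw [mem_sigma, mem_product, mem_Hs, mem_Mon, mem_range]
    refine ⟨?_, ⟨h1, ?_, h3⟩, h2, rfl⟩
    · simp only; omega
    · simp only; omega
  · intro x _
    rfl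

theorem card_Hs {n : ℕ} (hn : 2 ≤ n) :
    ((Hs F n).card : ℤ) = (Fintype.card F : ℤ) ^ n - (Fintype.card F : ℤ) ^ (n - 1) := by
  have key : ∀ m : ℕ, ((Fintype.card F : ℤ)) ^ m =
      ∑ j ∈ range (m / 2 + 1), ((Hs F (m - 2 * j)).card : ℤ) * (Fintype.card F : ℤ) ^ j := by
    intro m
    have h := sum_decomp (F := F) (fun _ => 1) (by intros; simp) m
    simp only [sum_const, nsmul_eq_mul, mul_one, one_pow, card_Mon] at h
    push_cast at h
    exact h
  obtain ⟨m, rfl⟩ : ∃ m, n = m + 2 := ⟨n - 2, by omega⟩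
  have h1 := key (m + 2)
  have h2 := key m
  rw [show (m + 2) / 2 + 1 = (m / 2 + 1) + 1 by omega, sum_range_succ'] at h1
  have h3 : ∑ j ∈ range (m / 2 + 1), ((Hs F (m + 2 - 2 * (j + 1))).card : ℤ) *
      (Fintype.card F : ℤ) ^ (j + 1) = Fintype.card F * (Fintype.card F : ℤ) ^ m := by
    rw [h2, mul_sum]
    apply sum_congr rfl
    intro j _
    rw [show m + 2 - 2 * (j + 1) = m - 2 * j by omega]
    ring
  rw [h3] at h1
  rw [show m + 2 - 1 = m + 1 by omega]
  simp only [mul_zero, Nat.sub_zero, pow_zero, mul_one] at h1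
  have : (Fintype.card F : ℤ) ^ (m + 1) = Fintype.card F * (Fintype.card F : ℤ) ^ m := by ring
  linarith

end Card

end Pool.Agent.H271R3.RC
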