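import Pool.Agent.H271R3.RC1

/-! Quadratic character sums over squarefree polynomials with prime modulus. -/

set_option autoImplicit false

namespace Pool.Agent.H271R3.RC

open Polynomial Finset
open Pool.Agent.H341R2.Sharp

section LamP

variable {F : Type*} [Field F] [Fintype F] [DecidableEq F]

theorem lam_mul_left (f g h : F[X]) (hf : f.Monic) (hg : g.Monic) :
    lam (f * g) h = lam f h * lam g h := by
  unfold lam
  rw [hf.natDegree_mul hg, resultant_mul_right _ _ _ _ le_rfl, map_mul]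

/-- reciprocity -/
theorem lam_comm (f h : F[X]) :
    lam f h = quadraticChar F ((-1) ^ (h.natDegree * f.natDegree)) * lam h f := by
  unfold lam
  rw [resultant_comm, map_mul]

theorem lam_eq_zero_iff {D P : F[X]} (hP : P.Monic) (hPi : Irreducible P) :
    lam D P = 0 ↔ P ∣ D := by
  unfold lam
  rw [quadraticChar_eq_zero_iff, resultant_eq_zero_iff, hPi.coprime_iff_not_dvd, not_not]
  exact ⟨fun h => h.2, fun h => ⟨Or.inl hP.ne_zero, h⟩⟩

theorem lam_cases (D P : F[X]) : lam D P = 0 ∨ lam D P = 1 ∨ lam D P = -1 := by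
  unfold lam
  by_cases h : resultant P D P.natDegree D.natDegree = 0
  · left; rw [h]; simp
  · right; exact quadraticChar_dichotomy h

open scoped Classical in
theorem lam_sq {D P : F[X]} (hP : P.Monic) (hPi : Irreducible P) :
    lam D P ^ 2 = if P ∣ D then 0 else 1 := by
  split_ifs with h
  · rw [(lam_eq_zero_iff hP hPi).2 h]; norm_num
  · rcases lam_cases D P with h1 | h1 | h1
    · exact absurd ((lam_eq_zero_iff hP hPi).1 h1) h
    · rw [h1]; norm_num
    · rw [h1]; norm_num

theorem lam_one_left {h : F[X]} (hh : h.Monic) : lam 1 h = 1 := by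
  unfold lam
  rw [natDegree_one, resultant_zero_right_deg]
  simp

theorem A_one (n : ℕ) : A (1 : F[X]) n = (Fintype.card F : ℤ) ^ n := by
  unfold A
  have : ∀ h ∈ Mon F n, lam (1 : F[X]) h = 1 := fun h hh => lam_one_left (mem_Mon.1 hh).1
  rw [sum_congr rfl this, sum_const, card_Mon]
  simp

/-- number of monic `l` of degree `j` prime to `P` -/
theorem sum_sq (P : F[X]) (hP : P.Monic) (hPi : Irreducible P) (j : ℕ) :
    ∑ l ∈ Mon F j, lam l P ^ 2 = (Fintype.card F : ℤ) ^ j -
      if P.natDegree ≤ j then (Fintype.card F : ℤ) ^ (j - P.natDegree) else 0 := by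
  classical
  have h1 := sum_pow_dvd (1 : F[X]) P hP j 1
  rw [A_one, lam_one_left hP] at h1
  have h2 : ∀ l ∈ Mon F j, lam l P ^ 2 = 1 - (if P ^ 1 ∣ l then lam (1 : F[X]) l else 0) := by
    intro l hl
    rw [lam_sq hP hPi, pow_one, lam_one_left (mem_Mon.1 hl).1]
    split_ifs <;> norm_num
  rw [sum_congr rfl h2, sum_sub_distrib, h1, sum_const, card_Mon]
  simp

/-- the sum over squarefree polynomials -/
noncomputable def SS (P : F[X]) (n : ℕ) : ℤ := ∑ D ∈ Hs F n, lam D P

/-- the sum over all monic polynomials -/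
noncomputable def AA (P : F[X]) (n : ℕ) : ℤ := ∑ D ∈ Mon F n, lam D P

theorem AA_eq (P : F[X]) (hP : P.Monic) (hPi : Irreducible P) (n : ℕ) :
    AA P n = ∑ j ∈ range (n / 2 + 1), SS P (n - 2 * j) * ((Fintype.card F : ℤ) ^ j -
      if P.natDegree ≤ j then (Fintype.card F : ℤ) ^ (j - P.natDegree) else 0) := by
  unfold AA SS
  rw [sum_decomp (fun D => lam D P) (fun f g hf hg => lam_mul_left f g P hf hg) n]
  apply sum_congr rfl
  intro j _
  rw [sum_sq P hP hPi]

/-- the recursion for sums over squarefree polynomials -/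
theorem SS_rec (P : F[X]) (hP : P.Monic) (hPi : Irreducible P) (n : ℕ) :
    SS P (n + 2) = AA P (n + 2) - Fintype.card F * AA P n +
      if 2 * P.natDegree ≤ n + 2 then SS P (n + 2 - 2 * P.natDegree) else 0 := by
  have hd : 1 ≤ P.natDegree := hPi.natDegree_pos
  rw [AA_eq P hP hPi (n + 2), AA_eq P hP hPi n, show (n + 2) / 2 + 1 = (n / 2 + 1) + 1 by omega,
    sum_range_succ', mul_sum, ← sub_eq_zero]
  simp only [mul_zero, Nat.sub_zero, pow_zero]
  rw [if_neg (by omega)]
  have h1 : ∀ j ∈ range (n / 2 + 1), SS P (n + 2 - 2 * (j + 1)) * ((Fintype.card F : ℤ) ^ (j + 1) -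
      if P.natDegree ≤ j + 1 then (Fintype.card F : ℤ) ^ (j + 1 - P.natDegree) else 0) =
      (Fintype.card F : ℤ) * (SS P (n - 2 * j) * ((Fintype.card F : ℤ) ^ j -
      if P.natDegree ≤ j then (Fintype.card F : ℤ) ^ (j - P.natDegree) else 0)) -
      (if j + 1 = P.natDegree then SS P (n + 2 - 2 * P.natDegree) else 0) := by
    intro j _
    rw [show n + 2 - 2 * (j + 1) = n - 2 * j by omega]
    by_cases h2 : j + 1 = P.natDegree
    · rw [if_pos h2, if_pos (by omega), if_neg (by omega), ← h2,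
        show n + 2 - 2 * (j + 1) = n - 2 * j by omega, Nat.sub_self]
      ring
    · rw [if_neg h2]
      by_cases h3 : P.natDegree ≤ j
      · rw [if_pos (by omega), if_pos h3, show j + 1 - P.natDegree = (j - P.natDegree) + 1 by omega]
        ring
      · rw [if_neg (by omega), if_neg h3]
        ring
  rw [sum_congr rfl h1, sum_sub_distrib]
  have h4 : ∑ j ∈ range (n / 2 + 1),
      (if j + 1 = P.natDegree then SS P (n + 2 - 2 * P.natDegree) else 0) =
      if 2 * P.natDegree ≤ n + 2 then SS P (n + 2 - 2 * P.natDegree) else 0 := by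
    split_ifs with h5
    · rw [sum_eq_single (P.natDegree - 1)]
      · rw [if_pos (by omega)]
      · intro j _ hj
        rw [if_neg (by omega)]
      · intro h6
        exact absurd (mem_range.2 (by omega)) h6
    · apply sum_eq_zero
      intro j hj
      rw [mem_range] at hj
      rw [if_neg (by omega)]
  rw [h4]
  ring

theorem not_sq {D : F[X]} (hD : D.Monic) (hs : Squarefree D) (hd : 1 ≤ D.natDegree) :
    ∀ (c : F) (h : F[X]), D ≠ C c * h ^ 2 := by
  intro c h heq
  have h1 : h * h ∣ D := by rw [heq]; exact ⟨C c, by ring⟩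
  have h2 := hs h h1
  rw [Polynomial.isUnit_iff] at h2
  obtain ⟨r, hr, hrh⟩ := h2
  have : D.natDegree = 0 := by
    rw [heq, ← hrh, ← C_pow, ← C_mul]
    exact natDegree_C _
  omega

theorem A_vanish (hF : ringChar F ≠ 2) {D : F[X]} (hD : D.Monic) (hs : Squarefree D)
    (hd : 1 ≤ D.natDegree) (n : ℕ) (hn : D.natDegree ≤ n) : A D n = 0 := by
  obtain ⟨r, hr, hlam⟩ := exists_r hF hD hd (not_sq hD hs hd)
  exact A_eq_zero D r hD hr hlam n hn

theorem AA_eq_A (P : F[X]) (n : ℕ) :
    AA P n = quadraticChar F ((-1) ^ (P.natDegree * n)) * A P n := by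
  unfold AA A
  rw [mul_sum]
  apply sum_congr rfl
  intro D hD
  rw [lam_comm D P, (mem_Mon.1 hD).2]

theorem AA_vanish (hF : ringChar F ≠ 2) {P : F[X]} (hP : P.Monic) (hPi : Irreducible P)
    (n : ℕ) (hn : P.natDegree ≤ n) : AA P n = 0 := by
  rw [AA_eq_A, A_vanish hF hP hPi.squarefree hPi.natDegree_pos n hn, mul_zero]

theorem abs_lam_le (D P : F[X]) : |lam D P| ≤ 1 := by
  rcases lam_cases D P with h | h | h <;> rw [h] <;> norm_num

/-- crude bound for small degree -/
theorem SS_bound (hF : ringChar F ≠ 2) {P : F[X]} (hP : P.Monic) (hPi : Irreducible P) (n : ℕ) :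
    |SS P n| ≤ (Fintype.card F : ℤ) ^ (P.natDegree + 1) := by
  have hd : 1 ≤ P.natDegree := hPi.natDegree_pos
  have hq1 : (1 : ℤ) ≤ Fintype.card F := by
    have := Fintype.card_pos (α := F)
    exact_mod_cast this
  induction n using Nat.strong_induction_on with
  | _ n ih =>
    by_cases hn : n < P.natDegree + 2
    · have h1 : |SS P n| ≤ ((Hs F n).card : ℤ) := by
        unfold SS
        refine (abs_sum_le_sum_abs _ _).trans ?_
        refine (sum_le_sum fun D _ => abs_lam_le D P).trans ?_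
        simp
      have h2 : ((Hs F n).card : ℤ) ≤ (Fintype.card F : ℤ) ^ n := by
        have : (Hs F n).card ≤ (Mon F n).card := card_le_card (by
          intro x hx
          rw [mem_Hs] at hx
          rw [mem_Mon]
          exact ⟨hx.1, hx.2.1⟩)
        rw [card_Mon] at this
        exact_mod_cast this
      refine h1.trans (h2.trans ?_)
      exact pow_le_pow_right₀ hq1 (by omega)
    · obtain ⟨m, rfl⟩ : ∃ m, n = m + 2 := ⟨n - 2, by omega⟩
      rw [SS_rec P hP hPi, AA_vanish hF hP hPi _ (by omega), AA_vanish hF hP hPi m (by omega)]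
      split_ifs with h
      · rw [mul_zero, sub_zero, zero_add]
        exact ih _ (by omega)
      · simp

/-- the number of squarefree polynomials prime to `P` -/
noncomputable def hh (P : F[X]) (n : ℕ) : ℤ := ∑ D ∈ Hs F n, lam D P ^ 2

theorem hh_rec (P : F[X]) (hP : P.Monic) (hPi : Irreducible P) (n : ℕ) :
    hh P n + (if P.natDegree ≤ n then hh P (n - P.natDegree) else 0) = (Hs F n).card := by
  classical
  unfold hh
  have h1 : ∀ D ∈ Hs F n, lam D P ^ 2 = 1 - (if P ∣ D then 1 else 0) := by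
    intro D _
    rw [lam_sq hP hPi]
    split_ifs <;> norm_num
  rw [sum_congr rfl h1, sum_sub_distrib, sum_const, nsmul_eq_mul, mul_one]
  have h2 : ∑ D ∈ Hs F n, (if P ∣ D then (1 : ℤ) else 0) =
      if P.natDegree ≤ n then ∑ D ∈ Hs F (n - P.natDegree), lam D P ^ 2 else 0 := by
    split_ifs with hn
    · have h3 : ∀ D ∈ Hs F (n - P.natDegree), lam D P ^ 2 = if ¬ P ∣ D then (1 : ℤ) else 0 := by
        intro D _
        rw [lam_sq hP hPi]
        split_ifs <;> tauto
      rw [sum_congr rfl h3, ← sum_filter, ← sum_filter]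
      symm
      refine sum_bij' (fun g _ => P * g) (fun h _ => h /ₘ P) ?_ ?_ ?_ ?_ ?_
      · intro g hg
        rw [mem_filter, mem_Hs] at hg
        rw [mem_filter, mem_Hs]
        refine ⟨⟨hP.mul hg.1.1, ?_, ?_⟩, dvd_mul_right _ _⟩
        · rw [hP.natDegree_mul hg.1.1, hg.1.2.1]; omega
        · rw [squarefree_mul_iff]
          refine ⟨?_, hPi.squarefree, hg.1.2.2⟩
          exact (hPi.coprime_iff_not_dvd.2 hg.2).isRelPrime
      · intro h hh'
        rw [mem_filter, mem_Hs] at hh'
        obtain ⟨g, rfl⟩ := hh'.2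
        have hg : g.Monic := hP.of_mul_monic_left hh'.1.1
        have h4 := hh'.1.2.1
        rw [hP.natDegree_mul hg] at h4
        have h5 := hh'.1.2.2
        rw [mul_divByMonic_cancel_left _ hP, mem_filter, mem_Hs]
        refine ⟨⟨hg, by omega, h5.squarefree_of_dvd (dvd_mul_left _ _)⟩, ?_⟩
        rintro ⟨c, rfl⟩
        have := h5 P ⟨c, by ring⟩
        exact hPi.not_isUnit this
      · intro g _
        exact mul_divByMonic_cancel_left _ hP
      · intro h hh'
        rw [mem_filter] at hh'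
        obtain ⟨g, rfl⟩ := hh'.2
        rw [mul_divByMonic_cancel_left _ hP]
      · intro g _
        rfl
    · apply sum_eq_zero
      intro D hD
      rw [mem_Hs] at hD
      rw [if_neg]
      intro hdvd
      have := natDegree_le_of_dvd hdvd hD.1.ne_zero
      omega
  rw [h2]
  ring

theorem card_Hs_zero : (Hs F 0).card = 1 := by
  classical
  have : Hs F 0 = {1} := by
    ext D
    rw [mem_Hs, mem_singleton]
    constructor
    · rintro ⟨h1, h2, _⟩
      exact eq_one_of_monic_natDegree_zero h1 h2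
    · rintro rfl
      exact ⟨monic_one, natDegree_one, squarefree_one⟩
  rw [this, card_singleton]

theorem card_Hs_one : (Hs F 1).card = Fintype.card F := by
  classical
  have : Hs F 1 = Mon F 1 := by
    ext D
    rw [mem_Hs, mem_Mon]
    constructor
    · rintro ⟨h1, h2, _⟩
      exact ⟨h1, h2⟩
    · rintro ⟨h1, h2⟩
      exact ⟨h1, h2, (irreducible_of_degree_eq_one (by
        rw [degree_eq_natDegree h1.ne_zero, h2]; rfl)).squarefree⟩
  rw [this, card_Mon, pow_one]

/-- the number of squarefree polynomials prime to `P`, with error -/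
theorem hh_bound (hq : 2 ≤ Fintype.card F) (P : F[X]) (hP : P.Monic) (hPi : Irreducible P) (n : ℕ) :
    |(hh P n : ℝ) - ((Fintype.card F : ℝ) ^ n * (1 - (Fintype.card F : ℝ)⁻¹)) /
      (1 + ((Fintype.card F : ℝ) ^ P.natDegree)⁻¹)| ≤ 3 := by
  set Q : ℝ := (Fintype.card F : ℝ) with hQ
  set d := P.natDegree with hd
  have hd1 : 1 ≤ d := hPi.natDegree_pos
  have hQ2 : (2 : ℝ) ≤ Q := by rw [hQ]; exact_mod_cast hq
  have hQ0 : 0 < Q := by linarith
  set c : ℕ → ℝ := fun n => (Q ^ n * (1 - Q⁻¹)) / (1 + (Q ^ d)⁻¹) with hc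
  have hQi : Q⁻¹ ≤ 1 / 2 := by
    rw [one_div]
    exact inv_anti₀ (by norm_num) hQ2
  have hQi0 : 0 < Q⁻¹ := by positivity
  have hQd : 0 < (Q ^ d)⁻¹ := by positivity
  have hcadd : ∀ n, d ≤ n → c n + c (n - d) = Q ^ n * (1 - Q⁻¹) := by
    intro n hn
    have h1 : Q ^ (n - d) = Q ^ n * (Q ^ d)⁻¹ := by
      rw [← div_eq_mul_inv, pow_sub₀ _ hQ0.ne' hn, div_eq_mul_inv]
    simp only [hc]
    rw [h1, ← add_div, div_eq_iff (by positivity)]
    ring
  -- cardinalities
  have hcard : ∀ n, |((Hs F n).card : ℝ) - Q ^ n * (1 - Q⁻¹)| ≤ 1 ∧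
      (2 ≤ n → ((Hs F n).card : ℝ) = Q ^ n * (1 - Q⁻¹)) := by
    intro n
    have h2 : 2 ≤ n → ((Hs F n).card : ℝ) = Q ^ n * (1 - Q⁻¹) := by
      intro hn
      have := card_Hs (F := F) hn
      have h3 : ((Hs F n).card : ℝ) = Q ^ n - Q ^ (n - 1) := by
        rw [hQ]; exact_mod_cast this
      rw [h3]
      obtain ⟨m, rfl⟩ : ∃ m, n = m + 1 := ⟨n - 1, by omega⟩
      rw [Nat.add_sub_cancel, pow_succ]
      field_simp
    refine ⟨?_, h2⟩
    by_cases hn : 2 ≤ n
    · rw [h2 hn, sub_self]; simp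
    · have : n = 0 ∨ n = 1 := by omega
      rcases this with h | h
      · rw [h, card_Hs_zero]
        rw [show ((1 : ℕ) : ℝ) - Q ^ 0 * (1 - Q⁻¹) = Q⁻¹ by simp, abs_of_pos hQi0]
        linarith
      · rw [h, card_Hs_one]
        rw [show ((Fintype.card F : ℕ) : ℝ) - Q ^ 1 * (1 - Q⁻¹) = 1 by
          rw [← hQ]; field_simp; ring]
        simp
  have hrec : ∀ n, d ≤ n → (hh P n : ℝ) = ((Hs F n).card : ℝ) - hh P (n - d) := by
    intro n hn
    have := hh_rec P hP hPi n
    rw [if_pos hn] at this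
    have h3 : (hh P n : ℝ) + hh P (n - d) = ((Hs F n).card : ℝ) := by exact_mod_cast this
    linarith
  have hsmall : ∀ n, n < d → |(hh P n : ℝ) - c n| ≤ 2 := by
    intro n hn
    have := hh_rec P hP hPi n
    rw [if_neg (by omega), add_zero] at this
    have h3 : (hh P n : ℝ) = ((Hs F n).card : ℝ) := by exact_mod_cast this
    have h4 : (hh P n : ℝ) - c n = (((Hs F n).card : ℝ) - Q ^ n * (1 - Q⁻¹)) +
        (Q ^ n * (1 - Q⁻¹)) * (Q ^ d)⁻¹ / (1 + (Q ^ d)⁻¹) := by
      simp only [hc]
      rw [h3]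
      field_simp
      ring
    rw [h4]
    have h5 : (Q ^ n * (1 - Q⁻¹)) * (Q ^ d)⁻¹ / (1 + (Q ^ d)⁻¹) ≤ 1 := by
      rw [div_le_one (by positivity)]
      have h6 : Q ^ n * (Q ^ d)⁻¹ ≤ 1 := by
        rw [← div_eq_mul_inv, div_le_one (by positivity)]
        exact pow_le_pow_right₀ (by linarith) hn.le
      have h7 : Q ^ n * (1 - Q⁻¹) * (Q ^ d)⁻¹ = (Q ^ n * (Q ^ d)⁻¹) * (1 - Q⁻¹) := by ring
      rw [h7]
      have h8 : (Q ^ n * (Q ^ d)⁻¹) * (1 - Q⁻¹) ≤ 1 * 1 := by
        apply mul_le_mul h6 (by linarith) (by linarith) (by norm_num)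
      linarith
    have h6 : 0 ≤ (Q ^ n * (1 - Q⁻¹)) * (Q ^ d)⁻¹ / (1 + (Q ^ d)⁻¹) := by
      have : 0 ≤ 1 - Q⁻¹ := by linarith
      positivity
    have h7 := (hcard n).1
    rw [abs_le] at h7 ⊢
    constructor <;> linarith [h7.1, h7.2]
  show |(hh P n : ℝ) - c n| ≤ 3
  induction n using Nat.strong_induction_on with
  | _ n ih =>
    by_cases hn : n < d
    · exact (hsmall n hn).trans (by norm_num)
    · push Not at hn
      have h1 : (hh P n : ℝ) - c n = (((Hs F n).card : ℝ) - Q ^ n * (1 - Q⁻¹)) -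
          ((hh P (n - d) : ℝ) - c (n - d)) := by
        rw [hrec n hn, ← hcadd n hn]; ring
      by_cases hn2 : 2 ≤ n
      · rw [h1, (hcard n).2 hn2, sub_self, zero_sub, abs_neg]
        exact ih (n - d) (by omega)
      · have hn1 : n = 1 := by omega
        have hd' : d = 1 := by omega
        rw [h1]
        have h2 := hsmall (n - d) (by omega)
        have h3 := (hcard n).1
        rw [abs_le] at h2 h3 ⊢
        constructor <;> linarith [h2.1, h2.2, h3.1, h3.2]

end LamP

end Pool.Agent.H271R3.RC
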