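import Pool.Agent.H271R3.RC1b

/-! The top coefficient of the `L`-polynomial by counting zeros of a quadratic form. -/

set_option autoImplicit false

namespace Pool.Agent.H271R3.RC

open Polynomial Finset
open Pool.Agent.H341R2.Sharp

section Roots

variable {F : Type*} [Field F] [Fintype F] [DecidableEq F]

/-- number of square roots of `f` modulo `E` -/
noncomputable def rt (E f : F[X]) : ℕ := Nat.card {z : AdjoinRoot E // z ^ 2 = AdjoinRoot.mk E f}

theorem rt_mul {P E : F[X]} (h : IsCoprime P E) (f : F[X]) : rt (P * E) f = rt P f * rt E f := by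
  have hI : IsCoprime (Ideal.span {P}) (Ideal.span {E}) := Ideal.isCoprime_span_singleton_iff _ _ |>.2 h
  have e1 : Ideal.span {P * E} = Ideal.span {P} * Ideal.span {E} :=
    (Ideal.span_singleton_mul_span_singleton P E).symm
  let Φ : AdjoinRoot (P * E) ≃+* AdjoinRoot P × AdjoinRoot E :=
    (Ideal.quotEquivOfEq e1).trans (Ideal.quotientMulEquivQuotientProd _ _ hI)
  have hΦ : ∀ g : F[X], Φ (AdjoinRoot.mk (P * E) g) = (AdjoinRoot.mk P g, AdjoinRoot.mk E g) := by
    intro g
    rfl
  unfold rt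
  rw [← Nat.card_prod]
  refine Nat.card_congr ?_
  refine (Equiv.subtypeEquiv Φ.toEquiv (q := fun z => z ^ 2 = (AdjoinRoot.mk P f, AdjoinRoot.mk E f)) ?_).trans ?_
  · intro z
    rw [← hΦ f]
    constructor
    · intro hz
      change (Φ z) ^ 2 = _
      rw [← map_pow, hz]
    · intro hz
      change (Φ z) ^ 2 = _ at hz
      rw [← map_pow] at hz
      exact Φ.injective hz
  · refine {
      toFun := fun z => (⟨z.1.1, (Prod.ext_iff.1 z.2).1⟩, ⟨z.1.2, (Prod.ext_iff.1 z.2).2⟩)
      invFun := fun z => ⟨(z.1.1, z.2.1), Prod.ext z.1.2 z.2.2⟩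
      left_inv := fun z => rfl
      right_inv := fun z => rfl }

theorem rt_one (f : F[X]) : rt 1 f = 1 := by
  unfold rt
  have : Subsingleton (AdjoinRoot (1 : F[X])) := by
    rw [AdjoinRoot]
    exact Ideal.Quotient.subsingleton_iff.2 (by simp)
  rw [Nat.card_eq_one_iff_unique]
  refine ⟨inferInstance, ⟨⟨0, Subsingleton.elim _ _⟩⟩⟩

theorem finite_AR {E : F[X]} (hE : E.Monic) : Finite (AdjoinRoot E) := by
  have : Module.Finite F (AdjoinRoot E) := (AdjoinRoot.powerBasis' hE).finite
  exact Module.finite_of_finite F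

theorem rt_prime (hF : ringChar F ≠ 2) {P : F[X]} (hP : P.Monic) (hPi : Irreducible P) (f : F[X]) :
    (rt P f : ℤ) = 1 + lam f P := by
  classical
  have : Fact (Irreducible P) := ⟨hPi⟩
  have hfin : Module.Finite F (AdjoinRoot P) := (AdjoinRoot.powerBasis' hP).finite
  have : Finite (AdjoinRoot P) := finite_AR hP
  let _ : Fintype (AdjoinRoot P) := Fintype.ofFinite _
  have hchar : ringChar (AdjoinRoot P) ≠ 2 := by
    rwa [← Algebra.ringChar_eq F (AdjoinRoot P)]
  have h1 := quadraticChar_card_sqrts hchar (AdjoinRoot.mk P f)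
  have h2 : quadraticChar (AdjoinRoot P) (AdjoinRoot.mk P f) = lam f P := by
    have h3 := qc_aeval (E := AdjoinRoot P) hF f (AdjoinRoot.root P)
    rw [AdjoinRoot.aeval_eq] at h3
    have h4 : minpoly F (AdjoinRoot.root P) = P := by
      rw [AdjoinRoot.minpoly_root hP.ne_zero, hP.leadingCoeff, inv_one, C_1, mul_one]
    have h5 : Module.finrank F (AdjoinRoot P) = P.natDegree := by
      rw [(AdjoinRoot.powerBasis' hP).finrank, AdjoinRoot.powerBasis'_dim]
    rw [h4, h5, Nat.div_self hPi.natDegree_pos, pow_one] at h3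
    exact h3
  rw [h2] at h1
  rw [rt, Nat.card_eq_fintype_card, add_comm, ← h1]
  congr 1
  rw [Set.toFinset_card]
  rfl

theorem coprime_prod {P : F[X]} (hPm : P.Monic) (hP : Irreducible P) (S : Finset F[X])
    (hS : ∀ E ∈ S, E.Monic ∧ Irreducible E) (hPS : P ∉ S) : IsCoprime P (∏ E ∈ S, E) := by
  apply IsCoprime.prod_right
  intro E hE
  rw [hP.coprime_iff_not_dvd]
  intro hdvd
  have h1 : Associated P E := (hP.dvd_irreducible_iff_associated (hS E hE).2).1 hdvd
  have h2 := eq_of_monic_of_associated hPm (hS E hE).1 h1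
  rw [h2] at hPS
  exact hPS hE

theorem rt_prod (hF : ringChar F ≠ 2) (S : Finset F[X])
    (hS : ∀ P ∈ S, P.Monic ∧ Irreducible P) (f : F[X]) :
    (rt (∏ P ∈ S, P) f : ℤ) = ∏ P ∈ S, (1 + lam f P) := by
  classical
  induction S using Finset.induction_on with
  | empty => simp [rt_one]
  | insert P S hPS ih =>
    rw [prod_insert hPS, prod_insert hPS, rt_mul]
    · push_cast
      rw [ih (fun E hE => hS E (mem_insert_of_mem hE)),
        rt_prime hF (hS P (mem_insert_self _ _)).1 (hS P (mem_insert_self _ _)).2]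
    · exact coprime_prod (hS P (mem_insert_self _ _)).1 (hS P (mem_insert_self _ _)).2 S
        (fun E hE => hS E (mem_insert_of_mem hE)) hPS

theorem exists_prod {D : F[X]} (hD : D.Monic) (hs : Squarefree D) :
    ∃ S : Finset F[X], (∀ P ∈ S, P.Monic ∧ Irreducible P) ∧ D = ∏ P ∈ S, P := by
  classical
  set nf := UniqueFactorizationMonoid.normalizedFactors D with hnf
  have hmon : ∀ P ∈ nf, P.Monic := by
    intro P hP
    exact ((Polynomial.mem_normalizedFactors_iff hD.ne_zero).1 hP).2.1
  have hirr : ∀ P ∈ nf, Irreducible P := fun P hP =>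
    UniqueFactorizationMonoid.irreducible_of_normalized_factor P hP
  have hprod : nf.prod = D := by
    have := UniqueFactorizationMonoid.prod_normalizedFactors_eq hD.ne_zero
    rw [this, hD.normalize_eq_self]
  have hnd : nf.Nodup := (UniqueFactorizationMonoid.squarefree_iff_nodup_normalizedFactors hD.ne_zero).1 hs
  refine ⟨nf.toFinset, ?_, ?_⟩
  · intro P hP
    rw [Multiset.mem_toFinset] at hP
    exact ⟨hmon P hP, hirr P hP⟩
  · rw [Finset.prod, Multiset.toFinset_val, Multiset.dedup_eq_self.2 hnd, Multiset.map_id', hprod]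

/-- the sum of root numbers over monic polynomials of degree `deg D - 1` -/
theorem sum_rt (hF : ringChar F ≠ 2) {D : F[X]} (hD : D.Monic) (hs : Squarefree D)
    (hd : 1 ≤ D.natDegree) :
    ∑ f ∈ Mon F (D.natDegree - 1), (rt D f : ℤ) =
      (Fintype.card F : ℤ) ^ (D.natDegree - 1) + AA D (D.natDegree - 1) := by
  classical
  obtain ⟨S, hS, hDS⟩ := exists_prod hD hs
  have hSne : S.Nonempty := by
    rw [nonempty_iff_ne_empty]
    rintro rfl
    rw [prod_empty] at hDS
    rw [hDS] at hd
    simp at hd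
  have hmonU : ∀ U ⊆ S, (∏ P ∈ U, P).Monic := fun U hU =>
    monic_prod_of_monic _ _ fun P hP => (hS P (hU hP)).1
  have hlamU : ∀ (f : F[X]) (U : Finset F[X]), U ⊆ S → ∏ P ∈ U, lam f P = lam f (∏ P ∈ U, P) := by
    intro f U
    induction U using Finset.induction_on with
    | empty => intro _; simp [lam_one]
    | insert P U hPU ih =>
      intro hsub
      have h1 : U ⊆ S := fun x hx => hsub (mem_insert_of_mem hx)
      rw [prod_insert hPU, prod_insert hPU, lam_mul f _ _ (hS P (hsub (mem_insert_self _ _))).1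
        (hmonU U h1), ih h1]
  have h1 : ∀ f ∈ Mon F (D.natDegree - 1), (rt D f : ℤ) = ∑ U ∈ S.powerset, lam f (∏ P ∈ U, P) := by
    intro f _
    rw [hDS, rt_prod hF S hS f, prod_one_add]
    apply sum_congr rfl
    intro U hU
    exact hlamU f U (mem_powerset.1 hU)
  rw [sum_congr rfl h1, sum_comm]
  have h2 : ∀ U ∈ S.powerset, U ≠ ∅ → U ≠ S →
      ∑ f ∈ Mon F (D.natDegree - 1), lam f (∏ P ∈ U, P) = 0 := by
    intro U hU hU0 hUS
    rw [mem_powerset] at hU
    have hEm := hmonU U hU
    have hsplit : D = (∏ P ∈ S \ U, P) * ∏ P ∈ U, P := by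
      rw [hDS, prod_sdiff hU]
    have hEs : Squarefree (∏ P ∈ U, P) := hs.squarefree_of_dvd (by rw [hsplit]; exact dvd_mul_left _ _)
    have hdegpos : ∀ V ⊆ S, V.Nonempty → 1 ≤ (∏ P ∈ V, P).natDegree := by
      intro V hV hVne
      obtain ⟨P, hP⟩ := hVne
      have h3 : P ∣ ∏ P ∈ V, P := dvd_prod_of_mem _ hP
      have h4 := natDegree_le_of_dvd h3 (hmonU V hV).ne_zero
      have h5 := (hS P (hV hP)).2.natDegree_pos
      omega
    have hE1 := hdegpos U hU (nonempty_iff_ne_empty.2 hU0)
    have hE2 := hdegpos (S \ U) sdiff_subset (by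
      rw [sdiff_nonempty]
      intro h
      exact hUS (Subset.antisymm hU h))
    have hdeg : D.natDegree = (∏ P ∈ S \ U, P).natDegree + (∏ P ∈ U, P).natDegree := by
      conv_lhs => rw [hsplit]
      rw [(hmonU _ sdiff_subset).natDegree_mul hEm]
    change AA _ _ = 0
    rw [AA_eq_A, A_vanish hF hEm hEs hE1 _ (by omega), mul_zero]
  have h3 : ∑ U ∈ S.powerset, ∑ f ∈ Mon F (D.natDegree - 1), lam f (∏ P ∈ U, P) =
      ∑ U ∈ ({∅, S} : Finset (Finset F[X])), ∑ f ∈ Mon F (D.natDegree - 1), lam f (∏ P ∈ U, P) := by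
    symm
    apply sum_subset
    · intro U hU
      rw [mem_insert, mem_singleton] at hU
      rcases hU with rfl | rfl
      · exact empty_mem_powerset _
      · exact mem_powerset_self _
    · intro U hU hU2
      rw [mem_insert, mem_singleton, not_or] at hU2
      exact h2 U hU hU2.1 hU2.2
  rw [h3, sum_pair (fun h => hSne.ne_empty h.symm), prod_empty, ← hDS]
  have h4 : ∑ f ∈ Mon F (D.natDegree - 1), lam f 1 = (Fintype.card F : ℤ) ^ (D.natDegree - 1) := by
    simp only [lam_one, sum_const, card_Mon]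
    simp
  rw [h4]
  rfl

end Roots

end Pool.Agent.H271R3.RC
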