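import Pool.Agent.H271R3.RC2

/-! Counting solutions of the residue quadratic form. -/

set_option autoImplicit false

namespace Pool.Agent.H271R3.RC

open Polynomial Finset
open Pool.Agent.H341R2.Sharp

section Count

variable {F : Type*} [Field F] [Fintype F] [DecidableEq F]

/-- the polynomial with given coefficients -/
noncomputable def pol {k : ℕ} (u : Fin k → F) : F[X] := ∑ i : Fin k, C (u i) * X ^ (i : ℕ)

theorem pol_add {k : ℕ} (u v : Fin k → F) : pol (u + v) = pol u + pol v := by
  simp [pol, add_mul, sum_add_distrib]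

theorem pol_smul {k : ℕ} (c : F) (v : Fin k → F) : pol (c • v) = C c * pol v := by
  simp [pol, mul_sum, mul_assoc]

theorem pol_coeff {k : ℕ} (u : Fin k → F) (j : Fin k) : (pol u).coeff j = u j := coeff_sum_fin u j

theorem pol_degree {k : ℕ} (u : Fin k → F) : (pol u).degree < k := degree_sum_fin_lt u

theorem pol_inj {k : ℕ} {u v : Fin k → F} (h : pol u = pol v) : u = v := by
  funext j
  rw [← pol_coeff u j, ← pol_coeff v j, h]

theorem pol_natDegree_lt {k : ℕ} (u : Fin k → F) (h : pol u ≠ 0) : (pol u).natDegree < k :=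
  (natDegree_lt_iff_degree_lt h).2 (pol_degree u)

/-- the residue functional -/
noncomputable def Lam {D : F[X]} (hD : D.Monic) : AdjoinRoot D →ₗ[F] F :=
  (lcoeff F (D.natDegree - 1)).comp (AdjoinRoot.modByMonicHom hD)

theorem Lam_mk {D : F[X]} (hD : D.Monic) {p : F[X]} (hp : p.degree < D.degree) :
    Lam hD (AdjoinRoot.mk D p) = p.coeff (D.natDegree - 1) := by
  simp only [Lam, LinearMap.comp_apply, AdjoinRoot.modByMonicHom_mk, lcoeff_apply]
  rw [(modByMonic_eq_self_iff hD).2 hp]

theorem card_fiber_lin {k : ℕ} (φ : (Fin k → F) →ₗ[F] F) (hφ : φ ≠ 0) (c : F) :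
    (univ.filter fun u => φ u = c).card * Fintype.card F = Fintype.card F ^ k := by
  have hsurj : Function.Surjective φ := by
    obtain ⟨u, hu⟩ : ∃ u, φ u ≠ 0 := by
      by_contra h
      push Not at h
      exact hφ (LinearMap.ext h)
    intro c
    refine ⟨(c / φ u) • u, ?_⟩
    rw [map_smul, smul_eq_mul, div_mul_cancel₀ _ hu]
  have h1 : (univ : Finset (Fin k → F)).card = ∑ b : F, (univ.filter fun u => φ u = b).card :=
    card_eq_sum_card_fiberwise (fun _ _ => mem_univ _)
  have h2 : ∀ b ∈ (univ : Finset F), (univ.filter fun u => φ u = b).card =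
      (univ.filter fun u => φ u = c).card := by
    intro b _
    exact AddMonoidHom.card_fiber_eq_of_mem_range φ (hsurj b) (hsurj c)
  rw [sum_congr rfl h2, sum_const, card_univ, card_univ, smul_eq_mul] at h1
  rw [mul_comm, ← h1]
  simp

theorem card_AR {D : F[X]} (hD : D.Monic) [Fintype (AdjoinRoot D)] :
    Fintype.card (AdjoinRoot D) = Fintype.card F ^ D.natDegree := by
  have : Module.Finite F (AdjoinRoot D) := (AdjoinRoot.powerBasis' hD).finite
  have : Module.Free F (AdjoinRoot D) := Module.Free.of_basis (AdjoinRoot.powerBasis' hD).basis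
  rw [Module.card_eq_pow_finrank (K := F), (AdjoinRoot.powerBasis' hD).finrank,
    AdjoinRoot.powerBasis'_dim]

theorem theta_degree {s t : ℕ} (u : Fin s → F) (w : Fin t → F) :
    (pol u + X ^ s * pol w).degree < ((s + t : ℕ) : WithBot ℕ) := by
  refine lt_of_le_of_lt (degree_add_le _ _) (max_lt ?_ ?_)
  · refine (pol_degree u).trans_le ?_
    exact_mod_cast Nat.le_add_right s t
  · by_cases h : pol w = 0
    · rw [h, mul_zero, degree_zero]
      exact WithBot.bot_lt_coe _
    · rw [degree_mul, degree_X_pow, degree_eq_natDegree h]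
      have := pol_natDegree_lt w h
      exact_mod_cast (by omega : s + (pol w).natDegree < s + t)

theorem theta_bij {D : F[X]} (hD : D.Monic) [Fintype (AdjoinRoot D)] {s t : ℕ}
    (hst : s + t = D.natDegree) :
    Function.Bijective (fun x : (Fin t → F) × (Fin s → F) =>
      AdjoinRoot.mk D (pol x.2 + X ^ s * pol x.1)) := by
  rw [Fintype.bijective_iff_injective_and_card]
  constructor
  · rintro ⟨w, u⟩ ⟨w', u'⟩ h
    simp only at h
    rw [AdjoinRoot.mk_eq_mk] at h
    have hdeg : D.degree = ((s + t : ℕ) : WithBot ℕ) := by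
      rw [hst, degree_eq_natDegree hD.ne_zero]
    have h2 : pol u + X ^ s * pol w - (pol u' + X ^ s * pol w') = 0 := by
      apply eq_zero_of_dvd_of_degree_lt h
      rw [hdeg]
      refine lt_of_le_of_lt (degree_sub_le _ _) (max_lt (theta_degree _ _) (theta_degree _ _))
    have h3 : pol u + X ^ s * pol w = pol u' + X ^ s * pol w' := sub_eq_zero.1 h2
    have hu : u = u' := by
      funext j
      have h4 := congrArg (fun p => p.coeff (j : ℕ)) h3
      simp only [coeff_add] at h4
      rw [coeff_X_pow_mul', coeff_X_pow_mul', if_neg (by omega), if_neg (by omega), add_zero,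
        add_zero, pol_coeff, pol_coeff] at h4
      exact h4
    have hw : w = w' := by
      apply pol_inj
      rw [hu] at h3
      have h5 := add_left_cancel h3
      exact mul_left_cancel₀ (pow_ne_zero s X_ne_zero) h5
    rw [hu, hw]
  · rw [Fintype.card_prod, card_AR hD, ← hst]
    simp [pow_add, mul_comm]

/-- the number of `z` with `Lam (z^2) = 1`, in terms of square roots -/
theorem count_Z {D : F[X]} (hD : D.Monic) (hd : 1 ≤ D.natDegree) [Fintype (AdjoinRoot D)] :
    ((univ.filter fun z : AdjoinRoot D => Lam hD (z ^ 2) = 1).card : ℤ) =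
      ∑ f ∈ Mon F (D.natDegree - 1), (rt D f : ℤ) := by
  classical
  have hmk := AdjoinRoot.mk_leftInverse hD
  have hmaps : ((univ.filter fun z : AdjoinRoot D => Lam hD (z ^ 2) = 1 : Finset _) : Set _).MapsTo
      (fun z => AdjoinRoot.modByMonicHom hD (z ^ 2)) (Mon F (D.natDegree - 1)) := by
    intro z hz
    rw [mem_coe, mem_filter] at hz
    have h1 : (AdjoinRoot.modByMonicHom hD (z ^ 2)).coeff (D.natDegree - 1) = 1 := hz.2
    rw [mem_coe, mem_Mon]
    have h2 : (AdjoinRoot.modByMonicHom hD (z ^ 2)).degree < D.degree := by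
      obtain ⟨p, hp⟩ := AdjoinRoot.mk_surjective (z ^ 2)
      rw [← hp, AdjoinRoot.modByMonicHom_mk]
      exact degree_modByMonic_lt _ hD
    set p := AdjoinRoot.modByMonicHom hD (z ^ 2) with hp
    have hp0 : p ≠ 0 := by
      intro h0
      rw [h0] at h1
      simp at h1
    have h3 : p.natDegree < D.natDegree := by
      rwa [degree_eq_natDegree hp0, degree_eq_natDegree hD.ne_zero, Nat.cast_lt] at h2
    have h4 : D.natDegree - 1 ≤ p.natDegree := le_natDegree_of_ne_zero (by rw [h1]; exact one_ne_zero)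
    have h5 : p.natDegree = D.natDegree - 1 := by omega
    refine ⟨?_, h5⟩
    rw [Monic, leadingCoeff, h5, h1]
  rw [card_eq_sum_card_fiberwise hmaps]
  push_cast
  apply sum_congr rfl
  intro f hf
  rw [mem_Mon] at hf
  rw [rt, Nat.card_eq_fintype_card, Fintype.card_subtype]
  congr 2
  ext z
  rw [mem_filter, mem_filter, mem_filter]
  have hfD : f.degree < D.degree := by
    rw [degree_eq_natDegree hf.1.ne_zero, degree_eq_natDegree hD.ne_zero, Nat.cast_lt]
    omega
  constructor
  · rintro ⟨⟨_, _⟩, h2⟩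
    refine ⟨mem_univ _, ?_⟩
    rw [← h2]
    exact (hmk _).symm
  · rintro ⟨_, h2⟩
    have h3 : AdjoinRoot.modByMonicHom hD (z ^ 2) = f := by
      rw [h2, AdjoinRoot.modByMonicHom_mk, (modByMonic_eq_self_iff hD).2 hfD]
    refine ⟨⟨mem_univ _, ?_⟩, h3⟩
    rw [h2, Lam_mk hD hfD]
    have := hf.1.leadingCoeff
    rwa [leadingCoeff, hf.2] at this

/-- the linear functional `u ↦ 2 Λ(u X^s w)` -/
noncomputable def phi {D : F[X]} (hD : D.Monic) (s : ℕ) (p : F[X]) : (Fin s → F) →ₗ[F] F where
  toFun u := Lam hD (AdjoinRoot.mk D (2 * (pol u * (X ^ s * p))))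
  map_add' u v := by
    rw [pol_add, ← map_add, ← map_add]
    congr 2
    ring
  map_smul' c u := by
    rw [pol_smul, RingHom.id_apply, ← map_smul]
    congr 1
    rw [AdjoinRoot.smul_mk, smul_eq_C_mul]
    congr 1
    ring

theorem Lam_sq {D : F[X]} (hD : D.Monic) {s t : ℕ} (hst : s + t = D.natDegree) (hs : s ≤ t)
    (u : Fin s → F) (w : Fin t → F) :
    Lam hD ((AdjoinRoot.mk D (pol u + X ^ s * pol w)) ^ 2) =
      phi hD s (pol w) u + Lam hD (AdjoinRoot.mk D ((X ^ s * pol w) ^ 2)) := by
  have h1 : (AdjoinRoot.mk D (pol u + X ^ s * pol w)) ^ 2 = AdjoinRoot.mk D (pol u ^ 2) +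
      (AdjoinRoot.mk D (2 * (pol u * (X ^ s * pol w))) + AdjoinRoot.mk D ((X ^ s * pol w) ^ 2)) := by
    rw [← map_pow, ← map_add, ← map_add]
    congr 1
    ring
  rw [h1, map_add, map_add]
  have h2 : Lam hD (AdjoinRoot.mk D (pol u ^ 2)) = 0 := by
    by_cases h0 : pol u = 0
    · rw [h0]; simp
    · have h3 := pol_natDegree_lt u h0
      have h4 : (pol u ^ 2).natDegree = 2 * (pol u).natDegree := natDegree_pow _ _
      rw [Lam_mk hD, coeff_eq_zero_of_natDegree_lt (by omega)]
      rw [degree_eq_natDegree (pow_ne_zero 2 h0), degree_eq_natDegree hD.ne_zero, Nat.cast_lt]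
      omega
  rw [h2, zero_add]
  rfl

theorem phi_ne_zero (hF : ringChar F ≠ 2) {D : F[X]} (hD : D.Monic) {s t : ℕ}
    (hst : s + t = D.natDegree) (w : Fin t → F) (hw : pol w ≠ 0)
    (hdeg : t ≤ s + (pol w).natDegree) : phi hD s (pol w) ≠ 0 := by
  have h1 := pol_natDegree_lt w hw
  set j := (pol w).natDegree with hj
  intro h0
  have h2 : (t - 1 - j) < s := by omega
  have h3 := LinearMap.congr_fun h0 (fun i => if (i : ℕ) = t - 1 - j then 1 else 0)
  have h4 : pol (fun i : Fin s => if (i : ℕ) = t - 1 - j then (1 : F) else 0) = X ^ (t - 1 - j) := by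
    rw [pol, sum_eq_single ⟨t - 1 - j, h2⟩]
    · simp
    · intro b _ hb
      rw [if_neg]
      · simp
      · intro h
        exact hb (Fin.ext h)
    · intro h
      exact absurd (mem_univ _) h
  change Lam hD (AdjoinRoot.mk D (2 * (pol _ * (X ^ s * pol w)))) = 0 at h3
  rw [h4] at h3
  have h5 : (2 * (X ^ (t - 1 - j) * (X ^ s * pol w)) : F[X]) = C 2 * X ^ (t - 1 - j + s) * pol w := by
    rw [pow_add, map_ofNat]; ring
  have h20 : (2 : F) ≠ 0 := Ring.two_ne_zero hF
  have h6 : (C 2 * X ^ (t - 1 - j + s) * pol w : F[X]).natDegree = D.natDegree - 1 := by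
    rw [mul_assoc, natDegree_C_mul h20, natDegree_mul (pow_ne_zero _ X_ne_zero) hw, natDegree_X_pow,
      ← hj]
    omega
  have h7 : (C 2 * X ^ (t - 1 - j + s) * pol w : F[X]) ≠ 0 := by
    rw [mul_assoc]
    exact mul_ne_zero (C_ne_zero.2 h20) (mul_ne_zero (pow_ne_zero _ X_ne_zero) hw)
  rw [h5, Lam_mk hD] at h3
  · have h8 : (C 2 * X ^ (t - 1 - j + s) * pol w : F[X]).leadingCoeff = 0 := by
      rw [leadingCoeff, h6]; exact h3
    exact h7 (leadingCoeff_eq_zero.1 h8)
  · rw [degree_eq_natDegree h7, degree_eq_natDegree hD.ne_zero, Nat.cast_lt, h6]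
    omega

theorem card_split {D : F[X]} (hD : D.Monic) [Fintype (AdjoinRoot D)] {s t : ℕ}
    (hst : s + t = D.natDegree) (hs : s ≤ t) :
    (univ.filter fun z : AdjoinRoot D => Lam hD (z ^ 2) = 1).card =
      ∑ w : Fin t → F, (univ.filter fun u : Fin s → F =>
        phi hD s (pol w) u + Lam hD (AdjoinRoot.mk D ((X ^ s * pol w) ^ 2)) = 1).card := by
  classical
  have hbij := theta_bij hD hst
  have h1 : (univ.filter fun z : AdjoinRoot D => Lam hD (z ^ 2) = 1).card =
      (univ.filter fun x : (Fin t → F) × (Fin s → F) =>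
        phi hD s (pol x.1) x.2 + Lam hD (AdjoinRoot.mk D ((X ^ s * pol x.1) ^ 2)) = 1).card := by
    symm
    refine card_bij (fun x _ => AdjoinRoot.mk D (pol x.2 + X ^ s * pol x.1)) ?_ ?_ ?_
    · rintro ⟨w, u⟩ hx
      rw [mem_filter] at hx ⊢
      refine ⟨mem_univ _, ?_⟩
      rw [Lam_sq hD hst hs]
      exact hx.2
    · intro x _ y _ hxy
      exact hbij.1 hxy
    · intro z hz
      obtain ⟨⟨w, u⟩, hx⟩ := hbij.2 z
      refine ⟨(w, u), ?_, hx⟩
      rw [mem_filter] at hz ⊢
      refine ⟨mem_univ _, ?_⟩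
      rw [← Lam_sq hD hst hs]
      simp only at hx
      rw [hx]
      exact hz.2
  rw [h1, ← univ_product_univ, card_filter, sum_product]
  apply sum_congr rfl
  intro w _
  rw [card_filter]

theorem card_affine {k : ℕ} (φ : (Fin k → F) →ₗ[F] F) (hφ : φ ≠ 0) (c : F) :
    (univ.filter fun u => φ u + c = 1).card * Fintype.card F = Fintype.card F ^ k := by
  rw [← card_fiber_lin φ hφ (1 - c)]
  congr 2
  ext u
  rw [mem_filter, mem_filter]
  constructor
  · rintro ⟨h1, h2⟩
    exact ⟨h1, by rw [← h2]; ring⟩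
  · rintro ⟨h1, h2⟩
    exact ⟨h1, by rw [h2]; ring⟩

theorem count_even (hF : ringChar F ≠ 2) {D : F[X]} (hD : D.Monic) [Fintype (AdjoinRoot D)] (g : ℕ)
    (hdeg : D.natDegree = 2 * g + 2) :
    (univ.filter fun z : AdjoinRoot D => Lam hD (z ^ 2) = 1).card + Fintype.card F ^ g =
      Fintype.card F ^ (2 * g + 1) := by
  classical
  have hst : (g + 1) + (g + 1) = D.natDegree := by omega
  rw [card_split hD hst le_rfl]
  have hq0 : 0 < Fintype.card F := Fintype.card_pos
  have h1 : ∀ w : Fin (g + 1) → F, (univ.filter fun u : Fin (g + 1) → F =>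
        phi hD (g + 1) (pol w) u + Lam hD (AdjoinRoot.mk D ((X ^ (g + 1) * pol w) ^ 2)) = 1).card =
      if w = 0 then 0 else Fintype.card F ^ g := by
    intro w
    by_cases hw : w = 0
    · rw [if_pos hw, card_eq_zero, filter_eq_empty_iff]
      intro u _
      have : pol w = 0 := by rw [hw]; simp [pol]
      rw [this]
      have e1 : phi hD (g + 1) (0 : F[X]) u = 0 := by
        change Lam hD (AdjoinRoot.mk D (2 * (pol u * (X ^ (g + 1) * 0)))) = 0
        simp
      rw [e1]
      simp
    · rw [if_neg hw]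
      have hw0 : pol w ≠ 0 := by
        intro h
        apply hw
        apply pol_inj
        rw [h]; simp [pol]
      have h2 := card_affine _ (phi_ne_zero hF hD hst w hw0 (by omega))
        (Lam hD (AdjoinRoot.mk D ((X ^ (g + 1) * pol w) ^ 2)))
      rw [pow_succ] at h2
      exact Nat.eq_of_mul_eq_mul_right hq0 h2
  rw [sum_congr rfl fun w _ => h1 w]
  have h2 : ∀ w : Fin (g + 1) → F, (if w = 0 then 0 else Fintype.card F ^ g) +
      (if w = 0 then Fintype.card F ^ g else 0) = Fintype.card F ^ g := by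
    intro w; split_ifs <;> simp
  have h3 := sum_congr (s₁ := (univ : Finset (Fin (g + 1) → F))) rfl fun w _ => h2 w
  rw [sum_add_distrib, sum_const, card_univ, smul_eq_mul, sum_ite_eq' univ (0 : Fin (g + 1) → F),
    if_pos (mem_univ _)] at h3
  rw [h3]
  simp
  ring

theorem natDegree_pol_eq_zero {k : ℕ} (w : Fin (k + 1) → F) :
    (pol w).natDegree = 0 ↔ ∃ a : F, w = fun i => if i = 0 then a else 0 := by
  have hC : ∀ a : F, pol (fun i : Fin (k + 1) => if i = 0 then a else 0) = C a := by
    intro a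
    rw [pol, sum_eq_single 0]
    · simp
    · intro b _ hb
      rw [if_neg hb]; simp
    · intro h; exact absurd (mem_univ _) h
  constructor
  · intro h
    obtain ⟨a, ha⟩ := natDegree_eq_zero.1 h
    refine ⟨a, ?_⟩
    apply pol_inj
    rw [← ha, hC]
  · rintro ⟨a, rfl⟩
    rw [hC]; simp

theorem count_odd (hF : ringChar F ≠ 2) {D : F[X]} (hD : D.Monic) [Fintype (AdjoinRoot D)] (g : ℕ)
    (hdeg : D.natDegree = 2 * g + 1) :
    (univ.filter fun z : AdjoinRoot D => Lam hD (z ^ 2) = 1).card =
      Fintype.card F ^ (2 * g) + Fintype.card F ^ g := by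
  classical
  have hst : g + (g + 1) = D.natDegree := by omega
  rw [card_split hD hst (Nat.le_succ g)]
  have hq0 : 0 < Fintype.card F := Fintype.card_pos
  set Q := Fintype.card F with hQ
  let ι : F → (Fin (g + 1) → F) := fun a i => if i = 0 then a else 0
  have hι : Function.Injective ι := by
    intro a b h
    have := congrFun h 0
    simpa [ι] using this
  have hC : ∀ a : F, pol (ι a) = C a := by
    intro a
    rw [pol, sum_eq_single 0]
    · simp [ι]
    · intro b _ hb
      simp [ι, hb]
    · intro h; exact absurd (mem_univ _) h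
  set f : (Fin (g + 1) → F) → ℕ := fun w => (univ.filter fun u : Fin g → F =>
        phi hD g (pol w) u + Lam hD (AdjoinRoot.mk D ((X ^ g * pol w) ^ 2)) = 1).card with hf
  have h1 : ∀ a : F, f (ι a) = if a ^ 2 = 1 then Q ^ g else 0 := by
    intro a
    have e1 : ∀ u : Fin g → F, phi hD g (pol (ι a)) u = 0 := by
      intro u
      rw [hC]
      change Lam hD (AdjoinRoot.mk D (2 * (pol u * (X ^ g * C a)))) = 0
      by_cases h0 : pol u = 0
      · rw [h0]; simp
      · have h3 := pol_natDegree_lt u h0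
        have h4 : (2 * (pol u * (X ^ g * C a)) : F[X]).natDegree ≤ (pol u).natDegree + g := by
          have e : (2 * (pol u * (X ^ g * C a)) : F[X]) = C (2 * a) * (pol u * X ^ g) := by
            rw [C_mul, map_ofNat]; ring
          rw [e]
          refine (natDegree_C_mul_le _ _).trans ?_
          refine natDegree_mul_le.trans ?_
          rw [natDegree_X_pow]
        rw [Lam_mk hD]
        · exact coeff_eq_zero_of_natDegree_lt (by omega)
        · refine lt_of_le_of_lt degree_le_natDegree ?_
          rw [degree_eq_natDegree hD.ne_zero, Nat.cast_lt]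
          omega
    have e2 : Lam hD (AdjoinRoot.mk D ((X ^ g * pol (ι a)) ^ 2)) = a ^ 2 := by
      rw [hC]
      have e : ((X ^ g * C a) ^ 2 : F[X]) = C (a ^ 2) * X ^ (2 * g) := by
        rw [C_pow]; ring
      rw [e, Lam_mk hD]
      · rw [coeff_C_mul_X_pow, hdeg, if_pos (by omega)]
      · refine lt_of_le_of_lt (degree_C_mul_X_pow_le _ _) ?_
        rw [degree_eq_natDegree hD.ne_zero, hdeg]
        exact_mod_cast (by omega : 2 * g < 2 * g + 1)
    simp only [hf, e1, e2, zero_add]
    split_ifs with h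
    · rw [filter_true_of_mem (fun _ _ => h)]
      simp [hQ]
    · rw [filter_false_of_mem (fun _ _ => h)]
      simp
  have h2 : ∀ w, w ∉ univ.image ι → f w * Q = Q ^ g := by
    intro w hw
    have hdw : (pol w).natDegree ≠ 0 := by
      intro h
      apply hw
      obtain ⟨a, ha⟩ := (natDegree_pol_eq_zero w).1 h
      rw [mem_image]
      exact ⟨a, mem_univ _, ha.symm⟩
    have hw0 : pol w ≠ 0 := by
      intro h
      rw [h] at hdw
      simp at hdw
    exact card_affine _ (phi_ne_zero hF hD hst w hw0 (by omega)) _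
  have hsq : (univ.filter fun a : F => a ^ 2 = 1).card = 2 := by
    have : (univ.filter fun a : F => a ^ 2 = 1) = {1, -1} := by
      ext a
      rw [mem_filter, mem_insert, mem_singleton]
      constructor
      · rintro ⟨_, h⟩
        have : (a - 1) * (a + 1) = 0 := by linear_combination h
        rcases mul_eq_zero.1 this with h | h
        · left; linear_combination h
        · right; linear_combination h
      · rintro (h | h) <;> rw [h] <;> simp
    rw [this, card_pair]
    exact (Ring.neg_one_ne_one_of_char_ne_two hF).symm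
  have hsum : (∑ w, f w) * Q = (Q ^ (2 * g) + Q ^ g) * Q := by
    rw [← sum_add_sum_compl (univ.image ι) f, add_mul, sum_image (fun a _ b _ h => hι h),
      sum_congr rfl fun a _ => h1 a, ← sum_filter, sum_const, hsq, sum_mul,
      sum_congr rfl fun w hw => h2 w (mem_compl.1 hw), sum_const, card_compl,
      card_image_of_injective _ hι, card_univ]
    have e1 : Fintype.card (Fin (g + 1) → F) = Q ^ (g + 1) := by simp [hQ]
    rw [e1, ← hQ]
    simp only [smul_eq_mul]
    have e2 : Q ≤ Q ^ (g + 1) := Nat.le_self_pow (by omega) Q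
    zify [e2]
    ring
  exact Nat.eq_of_mul_eq_mul_right hq0 hsum

/-- top coefficient, odd degree -/
theorem top_odd (hF : ringChar F ≠ 2) {D : F[X]} (hD : D.Monic) (hs : Squarefree D) (g : ℕ)
    (hdeg : D.natDegree = 2 * g + 1) : A D (2 * g) = (Fintype.card F : ℤ) ^ g := by
  classical
  have : Finite (AdjoinRoot D) := finite_AR hD
  let _ : Fintype (AdjoinRoot D) := Fintype.ofFinite _
  have h1 := count_Z hD (by omega)
  rw [sum_rt hF hD hs (by omega), count_odd hF hD g hdeg, hdeg, AA_eq_A, hdeg] at h1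
  have h2 : ((-1 : F)) ^ ((2 * g + 1) * (2 * g + 1 - 1)) = 1 := by
    rw [Nat.add_sub_cancel, show (2 * g + 1) * (2 * g) = 2 * (g * (2 * g + 1)) by ring, pow_mul]
    simp
  rw [h2, map_one, one_mul, Nat.add_sub_cancel] at h1
  push_cast at h1
  linarith

/-- top coefficient, even degree -/
theorem top_even (hF : ringChar F ≠ 2) {D : F[X]} (hD : D.Monic) (hs : Squarefree D) (g : ℕ)
    (hdeg : D.natDegree = 2 * g + 2) : AA D (2 * g + 1) = - (Fintype.card F : ℤ) ^ g := by
  classical
  have : Finite (AdjoinRoot D) := finite_AR hD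
  let _ : Fintype (AdjoinRoot D) := Fintype.ofFinite _
  have h1 := count_Z hD (by omega)
  have h2 := count_even hF hD g hdeg
  rw [sum_rt hF hD hs (by omega), hdeg, show 2 * g + 2 - 1 = 2 * g + 1 by omega] at h1
  have h3 : ((univ.filter fun z : AdjoinRoot D => Lam hD (z ^ 2) = 1).card : ℤ) +
      (Fintype.card F : ℤ) ^ g = (Fintype.card F : ℤ) ^ (2 * g + 1) := by exact_mod_cast h2
  linarith

end Count

end Pool.Agent.H271R3.RC
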