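import Pool.Agent.H271R3.RC2b

/-! The mean of the traces near the diagonal. -/

set_option autoImplicit false

namespace Pool.Agent.H271R3.RC

open Polynomial Finset
open Pool.Agent.H341R2.Sharp

section Trace

variable {F : Type*} [Field F] [Fintype F] [DecidableEq F]

theorem T_one (n : ℕ) (hn : 1 ≤ n) : T (1 : F[X]) n = (Fintype.card F : ℤ) ^ n := by
  obtain ⟨m, rfl⟩ : ∃ m, n = m + 1 := ⟨n - 1, by omega⟩
  have h1 := n_mul_A (1 : F[X]) (m + 1)
  have h2 := n_mul_A (1 : F[X]) m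
  rw [A_one] at h1 h2
  have h3 : ∑ k ∈ Icc 1 (m + 1), A (1 : F[X]) (m + 1 - k) * T (1 : F[X]) k =
      ∑ k ∈ Icc 1 m, (Fintype.card F : ℤ) * (A (1 : F[X]) (m - k) * T (1 : F[X]) k) + T (1 : F[X]) (m + 1) := by
    rw [Finset.sum_Icc_succ_top (by omega)]
    congr 1
    · apply sum_congr rfl
      intro k hk
      rw [mem_Icc] at hk
      rw [A_one, A_one, show m + 1 - k = (m - k) + 1 by omega]
      ring
    · rw [Nat.sub_self, A_one]; ring
  rw [h3, ← mul_sum, ← h2] at h1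
  have : (Fintype.card F : ℤ) ^ (m + 1) = Fintype.card F * (Fintype.card F : ℤ) ^ m := by ring
  push_cast at h1
  rw [this] at h1 ⊢
  linarith

theorem sum_deg (m : ℕ) (hm : 1 ≤ m) :
    ∑ P ∈ (Irr F m).filter (fun P => P.natDegree ∣ m), (P.natDegree : ℤ) = (Fintype.card F : ℤ) ^ m := by
  rw [← T_one (F := F) m hm]
  unfold T
  apply sum_congr rfl
  intro P hP
  rw [mem_filter, mem_Irr] at hP
  rw [lam_one_left hP.1.1, one_pow, mul_one]

theorem sum_deg_le (hq : 2 ≤ Fintype.card F) (B : ℕ) :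
    ∑ P ∈ Irr F B, (P.natDegree : ℤ) ≤ (Fintype.card F : ℤ) ^ (B + 1) := by
  have h1 : ∑ P ∈ Irr F B, (P.natDegree : ℤ) ≤
      ∑ d ∈ Icc 1 B, ∑ P ∈ (Irr F d).filter (fun P => P.natDegree ∣ d), (P.natDegree : ℤ) := by
    rw [← Finset.sum_sigma (Icc 1 B) (fun d => (Irr F d).filter (fun P => P.natDegree ∣ d)) (fun x => (x.2.natDegree : ℤ))]
    have h2 : ∑ P ∈ Irr F B, (P.natDegree : ℤ) =
        ∑ x ∈ (Irr F B).image (fun P => (⟨P.natDegree, P⟩ : (_ : ℕ) × F[X])), (x.2.natDegree : ℤ) := by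
      rw [sum_image]
      intro x _ y _ h
      simp only [Sigma.mk.injEq] at h
      exact eq_of_heq h.2
    rw [h2]
    apply sum_le_sum_of_subset_of_nonneg
    · intro x hx
      rw [mem_image] at hx
      obtain ⟨P, hP, rfl⟩ := hx
      rw [mem_Irr] at hP
      rw [mem_sigma, mem_Icc, mem_filter, mem_Irr]
      exact ⟨⟨hP.2.1.natDegree_pos, hP.2.2⟩, ⟨hP.1, hP.2.1, le_rfl⟩, dvd_rfl⟩
    · intro x _ _
      positivity
  refine h1.trans ?_
  have h2 : ∀ d ∈ Icc 1 B, ∑ P ∈ (Irr F d).filter (fun P => P.natDegree ∣ d), (P.natDegree : ℤ) =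
      (Fintype.card F : ℤ) ^ d := fun d hd => sum_deg d (mem_Icc.1 hd).1
  rw [sum_congr rfl h2]
  have hq' : (2 : ℤ) ≤ Fintype.card F := by exact_mod_cast hq
  clear h1 h2
  induction B with
  | zero => simp
  | succ B ih =>
    rw [Finset.sum_Icc_succ_top (by omega)]
    have : (0 : ℤ) < (Fintype.card F : ℤ) ^ (B + 1) := by positivity
    rw [pow_succ (Fintype.card F : ℤ) (B + 1)]
    nlinarith

/-- mean over squarefree polynomials of degree `n` of the `m`-th prime power sum -/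
noncomputable def tau (F : Type*) [Field F] [Fintype F] [DecidableEq F] (n m : ℕ) : ℝ :=
  (∑ D ∈ Hs F n, (T D m : ℝ)) / ((Hs F n).card : ℝ)

/-- mean of `(D/P)^k` -/
noncomputable def sig (P : F[X]) (n k : ℕ) : ℝ :=
  (∑ D ∈ Hs F n, (lam D P : ℝ) ^ k) / ((Hs F n).card : ℝ)

theorem tau_eq (n m : ℕ) : tau F n m =
    ∑ P ∈ (Irr F m).filter (fun P => P.natDegree ∣ m), (P.natDegree : ℝ) * sig P n (m / P.natDegree) := by
  unfold tau sig
  have h1 : ∀ P ∈ (Irr F m).filter (fun P => P.natDegree ∣ m),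
      (P.natDegree : ℝ) * ((∑ D ∈ Hs F n, (lam D P : ℝ) ^ (m / P.natDegree)) / ((Hs F n).card : ℝ)) =
      (∑ D ∈ Hs F n, (P.natDegree : ℝ) * (lam D P : ℝ) ^ (m / P.natDegree)) / ((Hs F n).card : ℝ) := by
    intro P _
    rw [← mul_div_assoc, mul_sum]
  rw [sum_congr rfl h1, ← sum_div, sum_comm]
  congr 1
  apply sum_congr rfl
  intro D _
  unfold T
  push_cast
  rfl

theorem card_Hs_real (hq : 2 ≤ Fintype.card F) {n : ℕ} (hn : 2 ≤ n) :
    ((Hs F n).card : ℝ) = (Fintype.card F : ℝ) ^ n * (1 - (Fintype.card F : ℝ)⁻¹) := by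
  have h := card_Hs (F := F) hn
  have h3 : ((Hs F n).card : ℝ) = (Fintype.card F : ℝ) ^ n - (Fintype.card F : ℝ) ^ (n - 1) := by
    exact_mod_cast h
  have hQ0 : (0 : ℝ) < Fintype.card F := by
    have : (2 : ℝ) ≤ Fintype.card F := by exact_mod_cast hq
    linarith
  rw [h3]
  obtain ⟨m, rfl⟩ : ∃ m, n = m + 1 := ⟨n - 1, by omega⟩
  rw [Nat.add_sub_cancel, pow_succ]
  field_simp

theorem sig_top (hF : ringChar F ≠ 2) (hq : 2 ≤ Fintype.card F) {M : ℕ} (hM : 2 ≤ M) {P : F[X]}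
    (hP : P.Monic) (hPi : Irreducible P) (hdeg : P.natDegree = 2 * M) :
    sig P (2 * M + 3) 1 - sig P (2 * M + 1) 1 =
      - ((Fintype.card F : ℝ) ^ M / ((Hs F (2 * M + 1)).card : ℝ)) := by
  have h1 : SS P (2 * M + 3) = 0 := by
    rw [show 2 * M + 3 = (2 * M + 1) + 2 by ring, SS_rec P hP hPi,
      AA_vanish hF hP hPi _ (by omega), AA_vanish hF hP hPi _ (by omega), if_neg (by omega)]
    ring
  have h2 : SS P (2 * M + 1) = (Fintype.card F : ℤ) ^ M := by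
    obtain ⟨k, rfl⟩ : ∃ k, M = k + 1 := ⟨M - 1, by omega⟩
    rw [show 2 * (k + 1) + 1 = (2 * k + 1) + 2 by ring, SS_rec P hP hPi,
      AA_vanish hF hP hPi _ (by omega), top_even hF hP hPi.squarefree k (by omega), if_neg (by omega)]
    ring
  unfold sig
  simp only [pow_one]
  have e1 : ∑ D ∈ Hs F (2 * M + 3), (lam D P : ℝ) = 0 := by
    have := h1
    unfold SS at this
    exact_mod_cast this
  have e2 : ∑ D ∈ Hs F (2 * M + 1), (lam D P : ℝ) = (Fintype.card F : ℝ) ^ M := by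
    have := h2
    unfold SS at this
    exact_mod_cast this
  rw [e1, e2]
  ring

theorem lam_pow_even (D P : F[X]) {k : ℕ} (hk : 1 ≤ k) : (lam D P : ℝ) ^ (2 * k) = (lam D P : ℝ) ^ 2 := by
  obtain ⟨j, rfl⟩ : ∃ j, k = j + 1 := ⟨k - 1, by omega⟩
  rcases lam_cases D P with h | h | h <;> rw [h] <;> simp

theorem lam_pow_odd (D P : F[X]) {k : ℕ} : (lam D P : ℝ) ^ (2 * k + 1) = (lam D P : ℝ) := by
  rcases lam_cases D P with h | h | h <;> rw [h, pow_succ, pow_mul] <;> simp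

theorem sig_even (hq : 2 ≤ Fintype.card F) {P : F[X]} (hP : P.Monic) (hPi : Irreducible P) {n k : ℕ}
    (hn : 2 ≤ n) (hk : 1 ≤ k) :
    |sig P n (2 * k) - 1 / (1 + ((Fintype.card F : ℝ) ^ P.natDegree)⁻¹)| ≤
      3 / ((Hs F n).card : ℝ) := by
  have h1 := hh_bound hq P hP hPi n
  have h2 := card_Hs_real (F := F) hq hn
  have hQ2 : (2 : ℝ) ≤ Fintype.card F := by exact_mod_cast hq
  have hQi : (Fintype.card F : ℝ)⁻¹ ≤ 1 / 2 := by
    rw [one_div]
    exact inv_anti₀ (by norm_num) hQ2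
  have hpos : 0 < ((Hs F n).card : ℝ) := by
    rw [h2]
    have : 0 < 1 - (Fintype.card F : ℝ)⁻¹ := by linarith
    have : (0 : ℝ) < Fintype.card F := by linarith
    positivity
  unfold sig
  simp only [lam_pow_even _ _ hk]
  have h3 : ∑ D ∈ Hs F n, (lam D P : ℝ) ^ 2 = (hh P n : ℝ) := by
    unfold hh; push_cast; rfl
  rw [h3]
  have h4 : (hh P n : ℝ) / ((Hs F n).card : ℝ) - 1 / (1 + ((Fintype.card F : ℝ) ^ P.natDegree)⁻¹) =
      ((hh P n : ℝ) - ((Fintype.card F : ℝ) ^ n * (1 - (Fintype.card F : ℝ)⁻¹)) /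
      (1 + ((Fintype.card F : ℝ) ^ P.natDegree)⁻¹)) / ((Hs F n).card : ℝ) := by
    rw [← h2]
    field_simp
  rw [h4, abs_div, abs_of_pos hpos]
  exact div_le_div_of_nonneg_right h1 hpos.le

theorem sig_odd (hF : ringChar F ≠ 2) {P : F[X]} (hP : P.Monic) (hPi : Irreducible P) (n k : ℕ) :
    |sig P n (2 * k + 1)| ≤ (Fintype.card F : ℝ) ^ (P.natDegree + 1) / ((Hs F n).card : ℝ) := by
  unfold sig
  simp only [lam_pow_odd]
  have h1 := SS_bound hF hP hPi n
  have h2 : ∑ D ∈ Hs F n, (lam D P : ℝ) = (SS P n : ℝ) := by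
    unfold SS; push_cast; rfl
  rw [h2, abs_div, abs_of_nonneg (Nat.cast_nonneg (Hs F n).card : (0:ℝ) ≤ _)]
  apply div_le_div_of_nonneg_right _ (Nat.cast_nonneg _)
  exact_mod_cast h1

end Trace

end Pool.Agent.H271R3.RC
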