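import Pool.Agent.H271R3.RC3

/-! The key estimate for the mean traces just beyond the diagonal. -/

set_option autoImplicit false

namespace Pool.Agent.H271R3.RC

open Polynomial Finset
open Pool.Agent.H341R2.Sharp

section Key

variable {F : Type*} [Field F] [Fintype F] [DecidableEq F]

theorem key_est (hF : ringChar F ≠ 2) (hq : 3 ≤ Fintype.card F) {M : ℕ} (hM : 2 ≤ M) (h3 : ¬ 3 ∣ 2 * M) :
    |((Fintype.card F : ℝ) ^ M)⁻¹ * (tau F (2 * M + 3) (2 * M) - tau F (2 * M + 1) (2 * M)) +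
      (1 - ((Fintype.card F : ℝ) ^ M)⁻¹) / ((Fintype.card F : ℝ) - 1)| ≤
      9 * (Fintype.card F : ℝ) ^ (2 * M / 5 + 2) * ((Fintype.card F : ℝ) ^ (2 * M))⁻¹ := by
  have hq2 : 2 ≤ Fintype.card F := by omega
  set q : ℝ := (Fintype.card F : ℝ) with hqdef
  have hq3 : (3 : ℝ) ≤ q := by rw [hqdef]; exact_mod_cast hq
  set S := (Irr F (2 * M)).filter (fun P => P.natDegree ∣ 2 * M) with hS
  set d : F[X] → ℝ := fun P => (P.natDegree : ℝ) * (sig P (2 * M + 3) (2 * M / P.natDegree) -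
    sig P (2 * M + 1) (2 * M / P.natDegree)) with hd
  set h : ℝ := ((Hs F (2 * M + 1)).card : ℝ) with hh1
  have hcard : h = q ^ (2 * M) * (q - 1) := by
    rw [hh1, card_Hs_real hq2 (by omega), ← hqdef, pow_succ]
    field_simp
  have hpos : 0 < h := by
    rw [hcard]
    have : 0 < q - 1 := by linarith
    positivity
  have hcard3 : h ≤ ((Hs F (2 * M + 3)).card : ℝ) := by
    rw [card_Hs_real hq2 (by omega), ← hqdef, hcard]
    have e : q ^ (2 * M + 3) * (1 - q⁻¹) = q ^ (2 * M) * (q - 1) * q ^ 2 := by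
      have : q ≠ 0 := by linarith
      rw [pow_add]
      field_simp
    rw [e]
    have h1 : 1 ≤ q ^ 2 := by nlinarith
    have h2 : 0 < q ^ (2 * M) * (q - 1) := by rw [← hcard]; exact hpos
    nlinarith
  have hdiff : tau F (2 * M + 3) (2 * M) - tau F (2 * M + 1) (2 * M) = ∑ P ∈ S, d P := by
    rw [tau_eq, tau_eq, ← sum_sub_distrib]
    apply sum_congr rfl
    intro P _
    simp only [hd]
    ring
  have hmemS : ∀ P ∈ S, P.Monic ∧ Irreducible P ∧ P.natDegree ∣ 2 * M := by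
    intro P hP
    rw [hS, mem_filter, mem_Irr] at hP
    exact ⟨hP.1.1, hP.1.2.1, hP.2⟩
  -- splitting
  have split1 : ∀ f : F[X] → ℝ, ∑ P ∈ S, f P = ∑ P ∈ S.filter (fun P => P.natDegree = 2 * M), f P +
      (∑ P ∈ (S.filter (fun P => ¬ P.natDegree = 2 * M)).filter (fun P => P.natDegree ∣ M), f P +
      ∑ P ∈ (S.filter (fun P => ¬ P.natDegree = 2 * M)).filter (fun P => ¬ P.natDegree ∣ M), f P) := by
    intro f
    rw [sum_filter_add_sum_filter_not, sum_filter_add_sum_filter_not]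
  set S1 := S.filter (fun P => P.natDegree = 2 * M) with hS1
  set S2 := (S.filter (fun P => ¬ P.natDegree = 2 * M)).filter (fun P => P.natDegree ∣ M) with hS2
  set S3 := (S.filter (fun P => ¬ P.natDegree = 2 * M)).filter (fun P => ¬ P.natDegree ∣ M) with hS3
  have hd1 : ∀ P ∈ S1, d P = (P.natDegree : ℝ) * (-(q ^ M / h)) := by
    intro P hP
    rw [hS1, mem_filter] at hP
    obtain ⟨h1, h2, _⟩ := hmemS P hP.1
    simp only [hd]
    rw [hP.2, Nat.div_self (by omega), sig_top hF hq2 hM h1 h2 hP.2]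
  have hd2 : ∀ P ∈ S2, |d P| ≤ (P.natDegree : ℝ) * (6 / h) := by
    intro P hP
    rw [hS2, mem_filter, mem_filter] at hP
    obtain ⟨h1, h2, _⟩ := hmemS P hP.1.1
    have hdpos := h2.natDegree_pos
    obtain ⟨k, hk⟩ := hP.2
    have hk1 : 1 ≤ k := by
      rcases Nat.eq_zero_or_pos k with h0 | h0
      · rw [h0] at hk; omega
      · exact h0
    have e : 2 * M / P.natDegree = 2 * k := by
      rw [hk]
      rw [show 2 * (P.natDegree * k) = P.natDegree * (2 * k) by ring]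
      exact Nat.mul_div_cancel_left _ hdpos
    simp only [hd]
    rw [e, abs_mul, abs_of_nonneg (Nat.cast_nonneg P.natDegree : (0:ℝ) ≤ _)]
    apply mul_le_mul_of_nonneg_left _ (Nat.cast_nonneg _)
    have a1 := sig_even hq2 h1 h2 (n := 2 * M + 3) (k := k) (by omega) hk1
    have a2 := sig_even hq2 h1 h2 (n := 2 * M + 1) (k := k) (by omega) hk1
    rw [← hh1] at a2
    have a3 : 3 / ((Hs F (2 * M + 3)).card : ℝ) ≤ 3 / h :=
      div_le_div_of_nonneg_left (by norm_num) hpos hcard3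
    have a4 : 6 / h = 3 / h + 3 / h := by ring
    rw [a4]
    rw [abs_le] at a1 a2 ⊢
    constructor <;> linarith [a1.1, a1.2, a2.1, a2.2]
  have hodd : ∀ P ∈ S3, P.natDegree ≤ 2 * M / 5 ∧ ∃ k, 2 * M / P.natDegree = 2 * k + 1 := by
    intro P hP
    rw [hS3, mem_filter, mem_filter] at hP
    obtain ⟨h1, h2, h4⟩ := hmemS P hP.1.1
    have hdpos := h2.natDegree_pos
    obtain ⟨k, hk⟩ := h4
    have e : 2 * M / P.natDegree = k := by
      rw [hk]; exact Nat.mul_div_cancel_left _ hdpos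
    have hkodd : ¬ 2 ∣ k := by
      rintro ⟨j, rfl⟩
      apply hP.2
      refine ⟨j, ?_⟩
      have : 2 * M = 2 * (P.natDegree * j) := by rw [hk]; ring
      omega
    have hk3 : k ≠ 3 := by
      rintro rfl
      exact h3 ⟨P.natDegree, by rw [hk]; ring⟩
    have hk1 : k ≠ 1 := by
      rintro rfl
      apply hP.1.2
      rw [hk]; ring
    have hk0 : k ≠ 0 := by
      rintro rfl
      omega
    have hk5 : 5 ≤ k := by omega
    constructor
    · rw [Nat.le_div_iff_mul_le (by norm_num)]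
      rw [hk]
      exact Nat.mul_le_mul_left _ hk5
    · rw [e]
      exact ⟨k / 2, by omega⟩
  have hd3 : ∀ P ∈ S3, |d P| ≤ (P.natDegree : ℝ) * (2 * q ^ (2 * M / 5 + 1) / h) := by
    intro P hP
    obtain ⟨hdeg, k, hk⟩ := hodd P hP
    rw [hS3, mem_filter, mem_filter] at hP
    obtain ⟨h1, h2, _⟩ := hmemS P hP.1.1
    simp only [hd]
    rw [hk, abs_mul, abs_of_nonneg (Nat.cast_nonneg P.natDegree : (0:ℝ) ≤ _)]
    apply mul_le_mul_of_nonneg_left _ (Nat.cast_nonneg _)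
    have a1 := sig_odd hF h1 h2 (2 * M + 3) k
    have a2 := sig_odd hF h1 h2 (2 * M + 1) k
    rw [← hh1, ← hqdef] at a2
    rw [← hqdef] at a1
    have hpow : q ^ (P.natDegree + 1) ≤ q ^ (2 * M / 5 + 1) :=
      pow_le_pow_right₀ (by linarith) (by omega)
    have a3 : q ^ (P.natDegree + 1) / ((Hs F (2 * M + 3)).card : ℝ) ≤ q ^ (2 * M / 5 + 1) / h :=
      div_le_div₀ (by positivity) hpow hpos hcard3
    have a5 : q ^ (P.natDegree + 1) / h ≤ q ^ (2 * M / 5 + 1) / h :=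
      div_le_div_of_nonneg_right hpow hpos.le
    have a4 : 2 * q ^ (2 * M / 5 + 1) / h = q ^ (2 * M / 5 + 1) / h + q ^ (2 * M / 5 + 1) / h := by ring
    rw [a4]
    rw [abs_le] at a1 a2 ⊢
    constructor <;> linarith [a1.1, a1.2, a2.1, a2.2]
  -- degree sums
  have D0 : ∑ P ∈ S, (P.natDegree : ℝ) = q ^ (2 * M) := by
    have := sum_deg (F := F) (2 * M) (by omega)
    rw [hqdef, hS]
    exact_mod_cast this
  have D2 : ∑ P ∈ S2, (P.natDegree : ℝ) = q ^ M := by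
    have h1 := sum_deg (F := F) M (by omega)
    have h2 : S2 = (Irr F M).filter (fun P => P.natDegree ∣ M) := by
      ext P
      rw [hS2, hS]
      simp only [mem_filter, mem_Irr]
      constructor
      · rintro ⟨⟨⟨⟨a, b, c⟩, e⟩, f⟩, g⟩
        exact ⟨⟨a, b, Nat.le_of_dvd (by omega) g⟩, g⟩
      · rintro ⟨⟨a, b, c⟩, e⟩
        exact ⟨⟨⟨⟨a, b, by omega⟩, Dvd.dvd.mul_left e 2⟩, by omega⟩, e⟩
    rw [h2, hqdef]
    exact_mod_cast h1
  have D3 : ∑ P ∈ S3, (P.natDegree : ℝ) ≤ q ^ (2 * M / 5 + 1) := by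
    have h1 := sum_deg_le (F := F) hq2 (2 * M / 5)
    have h1' : ∑ P ∈ Irr F (2 * M / 5), (P.natDegree : ℝ) ≤ q ^ (2 * M / 5 + 1) := by
      rw [hqdef]
      exact_mod_cast h1
    refine le_trans ?_ h1'
    apply sum_le_sum_of_subset_of_nonneg
    · intro P hP
      have h2 := (hodd P hP).1
      rw [hS3, mem_filter, mem_filter] at hP
      obtain ⟨a1, a2, _⟩ := hmemS P hP.1.1
      rw [mem_Irr]
      exact ⟨a1, a2, h2⟩
    · intro x _ _
      positivity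
  have D3' : 0 ≤ ∑ P ∈ S3, (P.natDegree : ℝ) := sum_nonneg (fun _ _ => Nat.cast_nonneg _)
  have D1 : ∑ P ∈ S1, (P.natDegree : ℝ) = q ^ (2 * M) - q ^ M - ∑ P ∈ S3, (P.natDegree : ℝ) := by
    have := split1 (fun P => (P.natDegree : ℝ))
    rw [D0, D2] at this
    linarith
  have E1 : ∑ P ∈ S1, d P = -(q ^ M / h) * (q ^ (2 * M) - q ^ M - ∑ P ∈ S3, (P.natDegree : ℝ)) := by
    rw [sum_congr rfl hd1, ← sum_mul, D1]
    ring
  have E2 : |∑ P ∈ S2, d P| ≤ q ^ M * (6 / h) := by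
    refine (abs_sum_le_sum_abs _ _).trans ?_
    refine (sum_le_sum hd2).trans ?_
    rw [← sum_mul, D2]
  have E3 : |∑ P ∈ S3, d P| ≤ q ^ (2 * M / 5 + 1) * (2 * q ^ (2 * M / 5 + 1) / h) := by
    refine (abs_sum_le_sum_abs _ _).trans ?_
    refine (sum_le_sum hd3).trans ?_
    rw [← sum_mul]
    apply mul_le_mul_of_nonneg_right D3
    positivity
  rw [hdiff, split1 d, E1]
  set O := ∑ P ∈ S3, (P.natDegree : ℝ) with hO
  set e2 := ∑ P ∈ S2, d P with he2
  set e3 := ∑ P ∈ S3, d P with he3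
  have hq0 : q ≠ 0 := by linarith
  have hq1 : q - 1 ≠ 0 := by linarith
  have hqM : q ^ M ≠ 0 := pow_ne_zero _ hq0
  have hmain : (q ^ M)⁻¹ * (-(q ^ M / h) * (q ^ (2 * M) - q ^ M - O) + (e2 + e3)) +
      (1 - (q ^ M)⁻¹) / (q - 1) = O / h + (q ^ M)⁻¹ * e2 + (q ^ M)⁻¹ * e3 := by
    rw [hcard, two_mul M, pow_add]
    field_simp
    ring
  rw [hmain]
  have B1 : |O / h| ≤ q ^ (2 * M / 5 + 1) / h := by
    rw [abs_of_nonneg (by positivity)]
    exact div_le_div_of_nonneg_right D3 hpos.le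
  have B2 : |(q ^ M)⁻¹ * e2| ≤ 6 / h := by
    rw [abs_mul, abs_of_nonneg (by positivity)]
    calc (q ^ M)⁻¹ * |e2| ≤ (q ^ M)⁻¹ * (q ^ M * (6 / h)) :=
          mul_le_mul_of_nonneg_left E2 (by positivity)
      _ = 6 / h := by field_simp
  have B3 : |(q ^ M)⁻¹ * e3| ≤ 2 * q ^ (2 * M / 5 + 2) / h := by
    rw [abs_mul, abs_of_nonneg (by positivity)]
    have hle : q ^ (2 * M / 5 + 1) ≤ q ^ M * q := by
      rw [← pow_succ]
      exact pow_le_pow_right₀ (by linarith) (by omega)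
    calc (q ^ M)⁻¹ * |e3| ≤ (q ^ M)⁻¹ * (q ^ (2 * M / 5 + 1) * (2 * q ^ (2 * M / 5 + 1) / h)) :=
          mul_le_mul_of_nonneg_left E3 (by positivity)
      _ ≤ (q ^ M)⁻¹ * ((q ^ M * q) * (2 * q ^ (2 * M / 5 + 1) / h)) := by
          apply mul_le_mul_of_nonneg_left _ (by positivity)
          apply mul_le_mul_of_nonneg_right hle
          positivity
      _ = 2 * q ^ (2 * M / 5 + 2) / h := by
          rw [pow_succ q (2 * M / 5 + 1)]
          field_simp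
  have hfin : q ^ (2 * M / 5 + 1) / h + 6 / h + 2 * q ^ (2 * M / 5 + 2) / h ≤
      9 * q ^ (2 * M / 5 + 2) * (q ^ (2 * M))⁻¹ := by
    rw [← add_div, ← add_div, div_le_iff₀ hpos, hcard]
    have e5 : 9 * q ^ (2 * M / 5 + 2) * (q ^ (2 * M))⁻¹ * (q ^ (2 * M) * (q - 1)) =
      9 * q ^ (2 * M / 5 + 2) * (q - 1) := by
      field_simp
    rw [e5]
    have e6 : 1 ≤ q ^ (2 * M / 5 + 1) := one_le_pow₀ (by linarith)
    rw [pow_succ q (2 * M / 5 + 1)]
    have e7 : 3 * q ^ (2 * M / 5 + 1) ≤ q ^ (2 * M / 5 + 1) * q := by nlinarith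
    have e8 : 0 ≤ q ^ (2 * M / 5 + 1) * q := by positivity
    nlinarith
  refine le_trans ?_ hfin
  refine (abs_add_le _ _).trans ?_
  have := abs_add_le (O / h) ((q ^ M)⁻¹ * e2)
  linarith

theorem pow_cmp {q : ℝ} (hq : 3 ≤ q) {a b : ℕ} (hab : a + 4 ≤ b) : 9 * q ^ a ≤ 1 / 4 * q ^ b := by
  obtain ⟨c, rfl⟩ := Nat.exists_eq_add_of_le hab
  rw [pow_add, pow_add]
  have h1 : 1 ≤ q ^ c := one_le_pow₀ (by linarith)
  have h2 : (81 : ℝ) ≤ q ^ 4 := by
    calc (81 : ℝ) = 3 ^ 4 := by norm_num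
      _ ≤ q ^ 4 := pow_le_pow_left₀ (by norm_num) hq 4
  have h3 : 0 < q ^ a := by positivity
  calc 9 * q ^ a ≤ 1 / 4 * (q ^ a * q ^ 4 * 1) := by nlinarith
    _ ≤ _ := by
      apply mul_le_mul_of_nonneg_left _ (by norm_num)
      exact mul_le_mul_of_nonneg_left h1 (by positivity)

/-- The value of the functional. -/
theorem key_val (hF : ringChar F ≠ 2) (hq : 3 ≤ Fintype.card F) {g : ℕ} (hg : 13 ≤ g) (hg3 : g % 3 = 1) :
    (1 / 2) * ((Fintype.card F : ℝ) ^ (g + 1))⁻¹ ≤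
    |((Fintype.card F : ℝ) ^ (g + 1))⁻¹ * (tau F (2 * (g + 2) + 1) (2 * g + 2) - tau F (2 * (g + 1) + 1) (2 * g + 2)) -
      ((Fintype.card F : ℝ) ^ g)⁻¹ * (tau F (2 * (g + 1) + 1) (2 * g) - tau F (2 * g + 1) (2 * g))| := by
  have k1 := key_est hF hq (M := g + 1) (by omega) (by omega)
  have k2 := key_est hF hq (M := g) (by omega) (by omega)
  set q : ℝ := (Fintype.card F : ℝ) with hqdef
  have hq3 : (3 : ℝ) ≤ q := by rw [hqdef]; exact_mod_cast hq
  rw [show 2 * (g + 1) + 3 = 2 * (g + 2) + 1 by ring] at k1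
  rw [show 2 * g + 3 = 2 * (g + 1) + 1 by ring] at k2
  rw [show 2 * g + 2 = 2 * (g + 1) by ring]
  set u := (q ^ (g + 1))⁻¹ * (tau F (2 * (g + 2) + 1) (2 * (g + 1)) - tau F (2 * (g + 1) + 1) (2 * (g + 1)))
  set v := (q ^ g)⁻¹ * (tau F (2 * (g + 1) + 1) (2 * g) - tau F (2 * g + 1) (2 * g))
  have hq0 : q ≠ 0 := by linarith
  have hq1 : q - 1 ≠ 0 := by linarith
  have hqp : 0 < q ^ (g + 1) := by positivity
  have e1 : (1 - (q ^ (g + 1))⁻¹) / (q - 1) - (1 - (q ^ g)⁻¹) / (q - 1) = (q ^ (g + 1))⁻¹ := by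
    rw [pow_succ]
    field_simp
    ring
  have b1 : 9 * q ^ (2 * (g + 1) / 5 + 2) * (q ^ (2 * (g + 1)))⁻¹ ≤ (1 / 4) * (q ^ (g + 1))⁻¹ := by
    have : q ^ (2 * (g + 1)) = q ^ (g + 1) * q ^ (g + 1) := by rw [← pow_add]; congr 1; ring
    rw [this, mul_inv, ← mul_assoc]
    apply mul_le_mul_of_nonneg_right _ (by positivity)
    rw [mul_inv_le_iff₀ hqp]
    exact pow_cmp hq3 (by omega)
  have b2 : 9 * q ^ (2 * g / 5 + 2) * (q ^ (2 * g))⁻¹ ≤ (1 / 4) * (q ^ (g + 1))⁻¹ := by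
    have : q ^ (2 * g) = q ^ (g + 1) * q ^ (g - 1) := by rw [← pow_add]; congr 1; omega
    rw [this, mul_inv, ← mul_assoc, mul_right_comm]
    apply mul_le_mul_of_nonneg_right _ (by positivity)
    rw [mul_inv_le_iff₀ (by positivity)]
    exact pow_cmp hq3 (by omega)
  have k1' := abs_le.1 (k1.trans b1)
  have k2' := abs_le.1 (k2.trans b2)
  rw [abs_sub_comm]
  refine le_trans ?_ (le_abs_self _)
  linarith [k1'.1, k1'.2, k2'.1, k2'.2]

end Key

end Pool.Agent.H271R3.RC
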