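import Mathlib

/-! Generic lemmas: Cauchy estimates by averaging over roots of unity, unimodular roots, inverse
series. -/

set_option autoImplicit false

namespace Pool.Agent.H271R3.RC

open Polynomial Finset Filter Topology

theorem coeff_le {c : ℕ → ℂ} {r B : ℝ} (hr : 0 < r) (hs : Summable fun n => ‖c n‖ * r ^ n)
    (hB : ∀ z : ℂ, ‖z‖ = r → ‖∑' n, c n * z ^ n‖ ≤ B) (m : ℕ) : ‖c m‖ * r ^ m ≤ B := by
  have hsz : ∀ z : ℂ, ‖z‖ = r → Summable fun n => c n * z ^ n := by
    intro z hz
    apply Summable.of_norm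
    refine hs.congr ?_
    intro n
    rw [norm_mul, norm_pow, hz]
  have htail : Tendsto (fun M : ℕ => ∑' n, ‖c (n + M)‖ * r ^ (n + M)) atTop (𝓝 0) :=
    tendsto_sum_nat_add (fun n => ‖c n‖ * r ^ n)
  have hmain : ∀ M : ℕ, m < M → ‖c m‖ * r ^ m ≤ B + ∑' n, ‖c (n + M)‖ * r ^ (n + M) := by
    intro M hM
    have hM0 : M ≠ 0 := by omega
    obtain ⟨ζ, hζ⟩ : ∃ ζ : ℂ, IsPrimitiveRoot ζ M := ⟨_, Complex.isPrimitiveRoot_exp M hM0⟩
    have hζ1 : ‖ζ‖ = 1 := Complex.norm_eq_one_of_pow_eq_one hζ.pow_eq_one hM0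
    have hζ0 : ζ ≠ 0 := hζ.ne_zero hM0
    set w : ℕ → ℂ := fun n => ζ ^ n * (ζ ^ m)⁻¹ with hw
    have hwM : ∀ n, w n ^ M = 1 := by
      intro n
      rw [hw]
      simp only
      rw [mul_pow, inv_pow, ← pow_mul, ← pow_mul, mul_comm n, mul_comm m, pow_mul, pow_mul,
        hζ.pow_eq_one]
      simp
    have hwn : ∀ n, ‖w n‖ = 1 := by
      intro n
      rw [hw]
      simp [hζ1]
    set av : ℕ → ℂ := fun n => (M : ℂ)⁻¹ * ∑ j ∈ range M, w n ^ j with hav
    have hMC : (M : ℂ) ≠ 0 := by exact_mod_cast hM0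
    have hav1 : av m = 1 := by
      rw [hav]
      simp only
      have : w m = 1 := by
        rw [hw]
        simp only
        exact mul_inv_cancel₀ (pow_ne_zero _ hζ0)
      rw [this]
      simp [hMC]
    have hav0 : ∀ n, n < M → n ≠ m → av n = 0 := by
      intro n hn hnm
      rw [hav]
      simp only
      have h1 : w n ≠ 1 := by
        intro h
        rw [hw] at h
        simp only at h
        rw [mul_inv_eq_one₀ (pow_ne_zero _ hζ0)] at h
        exact hnm (hζ.pow_inj hn hM h)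
      have h2 : (∑ j ∈ range M, w n ^ j) * (w n - 1) = 0 := by
        rw [geom_sum_mul, hwM, sub_self]
      rcases mul_eq_zero.1 h2 with h3 | h3
      · rw [h3, mul_zero]
      · exact absurd (sub_eq_zero.1 h3) h1
    have havn : ∀ n, ‖av n‖ ≤ 1 := by
      intro n
      rw [hav]
      simp only
      rw [norm_mul, norm_inv, Complex.norm_natCast]
      have h1 : ‖∑ j ∈ range M, w n ^ j‖ ≤ M := by
        refine (norm_sum_le _ _).trans ?_
        simp [hwn]
      rw [inv_mul_le_iff₀ (by positivity)]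
      simpa using h1
    -- the average
    have hsum : ∀ j ∈ range M, HasSum (fun n => (M : ℂ)⁻¹ * (c n * (r : ℂ) ^ n * w n ^ j))
        ((M : ℂ)⁻¹ * ((∑' n, c n * ((r : ℂ) * ζ ^ j) ^ n) * ((ζ ^ m)⁻¹) ^ j)) := by
      intro j _
      have hz : ‖(r : ℂ) * ζ ^ j‖ = r := by
        rw [norm_mul, norm_pow, hζ1, one_pow, mul_one, Complex.norm_real, Real.norm_of_nonneg hr.le]
      have h1 := (hsz _ hz).hasSum
      have h2 := (h1.mul_right (((ζ ^ m)⁻¹) ^ j)).mul_left ((M : ℂ)⁻¹)
      refine h2.congr_fun ?_ |> fun h => h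
      intro n
      rw [hw]
      simp only
      rw [mul_pow, mul_pow, ← pow_mul, ← pow_mul, mul_comm j n]
      ring
    have hS := hasSum_sum hsum
    set V := ∑ j ∈ range M, (M : ℂ)⁻¹ * ((∑' n, c n * ((r : ℂ) * ζ ^ j) ^ n) * ((ζ ^ m)⁻¹) ^ j) with hV
    have hVB : ‖V‖ ≤ B := by
      rw [hV]
      refine (norm_sum_le _ _).trans ?_
      have h1 : ∀ j ∈ range M, ‖(M : ℂ)⁻¹ * ((∑' n, c n * ((r : ℂ) * ζ ^ j) ^ n) * ((ζ ^ m)⁻¹) ^ j)‖ ≤
          (M : ℝ)⁻¹ * B := by
        intro j _
        have hz : ‖(r : ℂ) * ζ ^ j‖ = r := by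
          rw [norm_mul, norm_pow, hζ1, one_pow, mul_one, Complex.norm_real, Real.norm_of_nonneg hr.le]
        rw [norm_mul, norm_mul, norm_inv, Complex.norm_natCast, norm_pow, norm_inv, norm_pow, hζ1]
        simp only [one_pow, inv_one, mul_one]
        exact mul_le_mul_of_nonneg_left (hB _ hz) (by positivity)
      refine (sum_le_sum h1).trans ?_
      rw [sum_const, card_range, nsmul_eq_mul, ← mul_assoc, mul_inv_cancel₀ (by exact_mod_cast hM0),
        one_mul]
    have hS2 : HasSum (fun n => c n * (r : ℂ) ^ n * av n) V := by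
      refine hS.congr_fun ?_ |> fun h => h
      intro n
      rw [hav]
      simp only
      rw [mul_sum, mul_sum]
      apply sum_congr rfl
      intro j _
      ring
    -- subtract the main term
    have hS3 := (hasSum_nat_add_iff' (f := fun n => c n * (r : ℂ) ^ n * av n) M).2 hS2
    have h4 : ∑ i ∈ range M, c i * (r : ℂ) ^ i * av i = c m * (r : ℂ) ^ m := by
      rw [sum_eq_single m]
      · rw [hav1, mul_one]
      · intro i hi him
        rw [hav0 i (mem_range.1 hi) him, mul_zero]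
      · intro h
        exact absurd (mem_range.2 hM) h
    rw [h4] at hS3
    have hsM : Summable fun n => ‖c (n + M)‖ * r ^ (n + M) :=
      (summable_nat_add_iff (f := fun n => ‖c n‖ * r ^ n) M).2 hs
    have h5 : ‖V - c m * (r : ℂ) ^ m‖ ≤ ∑' n, ‖c (n + M)‖ * r ^ (n + M) := by
      rw [← hS3.tsum_eq]
      apply tsum_of_norm_bounded hsM.hasSum
      intro n
      rw [norm_mul, norm_mul, norm_pow, Complex.norm_real, Real.norm_of_nonneg hr.le]
      have : 0 ≤ ‖c (n + M)‖ * r ^ (n + M) := by positivity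
      calc _ ≤ ‖c (n + M)‖ * r ^ (n + M) * 1 := mul_le_mul_of_nonneg_left (havn _) this
        _ = _ := mul_one _
    have h6 : ‖c m‖ * r ^ m = ‖c m * (r : ℂ) ^ m‖ := by
      rw [norm_mul, norm_pow, Complex.norm_real, Real.norm_of_nonneg hr.le]
    rw [h6]
    have h7 : c m * (r : ℂ) ^ m = V - (V - c m * (r : ℂ) ^ m) := by ring
    rw [h7]
    refine (norm_sub_le _ _).trans ?_
    linarith
  have hlim : Tendsto (fun M : ℕ => B + ∑' n, ‖c (n + M)‖ * r ^ (n + M)) atTop (𝓝 (B + 0)) :=
    tendsto_const_nhds.add htail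
  rw [add_zero] at hlim
  refine ge_of_tendsto hlim ?_
  filter_upwards [eventually_gt_atTop m] with M hM
  exact hmain M hM

theorem poly_coeff_le (p : ℂ[X]) {r B : ℝ} (hr : 0 < r)
    (hB : ∀ z : ℂ, ‖z‖ = r → ‖p.eval z‖ ≤ B) (m : ℕ) : ‖p.coeff m‖ * r ^ m ≤ B := by
  have h0 : ∀ n ∉ range (p.natDegree + 1), p.coeff n = 0 := by
    intro n hn
    rw [mem_range] at hn
    exact coeff_eq_zero_of_natDegree_lt (by omega)
  apply coeff_le hr
  · apply summable_of_ne_finset_zero (s := range (p.natDegree + 1))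
    intro n hn
    rw [h0 n hn]
    simp
  · intro z hz
    rw [tsum_eq_sum (s := range (p.natDegree + 1))]
    · rw [← eval_eq_sum_range]
      exact hB z hz
    · intro n hn
      rw [h0 n hn]
      simp

theorem multiset_unit (s : Multiset ℂ) (hs : ∀ w ∈ s, 1 ≤ ‖w‖) : 1 ≤ ‖s.prod‖ ∧
    (‖s.prod‖ = 1 → ∀ w ∈ s, ‖w‖ = 1) := by
  induction s using Multiset.induction_on with
  | empty => simp
  | cons a t ih =>
    have h1 := hs a (Multiset.mem_cons_self a t)
    obtain ⟨h2, h3⟩ := ih (fun w hw => hs w (Multiset.mem_cons_of_mem hw))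
    rw [Multiset.prod_cons, norm_mul]
    constructor
    · nlinarith
    · intro h w hw
      have h4 : ‖a‖ = 1 := by nlinarith
      have h5 : ‖t.prod‖ = 1 := by rw [h4, one_mul] at h; exact h
      rcases Multiset.mem_cons.1 hw with h6 | h6
      · rw [h6]; exact h4
      · exact h3 h5 w h6

theorem unit_roots (p : ℂ[X]) (hp : p.Monic) (h0 : p.coeff 0 = 1) (hr : ∀ z ∈ p.roots, 1 ≤ ‖z‖) :
    ∀ z ∈ p.roots, ‖z‖ = 1 := by
  have h1 := (IsAlgClosed.splits p).coeff_zero_eq_prod_roots_of_monic hp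
  rw [h0] at h1
  have h2 : ‖p.roots.prod‖ = 1 := by
    have h3 := congrArg norm h1
    rw [norm_mul, norm_pow, norm_neg, norm_one, one_pow, one_mul] at h3
    exact h3.symm
  exact (multiset_unit _ hr).2 h2

theorem self_rec (p : ℂ[X]) (hp : p.Monic) (h0 : p.coeff 0 = 1)
    (hreal : ∀ k, (starRingEnd ℂ) (p.coeff k) = p.coeff k)
    (hr : ∀ z ∈ p.roots, ‖z‖ = 1) (x : ℂ) (hx : x ≠ 0) :
    p.eval x = x ^ p.natDegree * p.eval x⁻¹ := by
  have hspl := IsAlgClosed.splits p
  have hev := hspl.eval_eq_prod_roots_of_monic hp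
  have h1 : ∀ y : ℂ, (starRingEnd ℂ) (p.eval y) = p.eval ((starRingEnd ℂ) y) := by
    intro y
    rw [eval_eq_sum_range, eval_eq_sum_range, map_sum]
    apply sum_congr rfl
    intro k _
    rw [map_mul, map_pow, hreal]
  have h2 : p.eval x⁻¹ = (starRingEnd ℂ) (p.eval ((starRingEnd ℂ) x⁻¹)) := by
    rw [h1]; simp
  rw [h2, hev, hev, map_multiset_prod, Multiset.map_map]
  have h3 : (p.roots.map fun a => -a).prod = 1 := by
    have := hev 0
    rw [← coeff_zero_eq_eval_zero, h0] at this
    rw [this]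
    congr 1
    apply Multiset.map_congr rfl
    intro a _
    ring
  have h4 : x ^ p.natDegree = (p.roots.map fun _ => x).prod := by
    rw [Multiset.map_const', Multiset.prod_replicate, ← hspl.natDegree_eq_card_roots]
  rw [h4, ← one_mul (Multiset.prod _ * Multiset.prod _), ← h3, ← Multiset.prod_map_mul,
    ← Multiset.prod_map_mul]
  congr 1
  apply Multiset.map_congr rfl
  intro a ha
  have h5 : (starRingEnd ℂ) a * a = 1 := by
    rw [← Complex.normSq_eq_conj_mul_self, Complex.normSq_eq_norm_sq, hr a ha]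
    simp
  simp only [Function.comp, map_sub, map_inv₀, Complex.conj_conj]
  have h6 : x * x⁻¹ = 1 := mul_inv_cancel₀ hx
  linear_combination (-x) * h5 - (-a) * h6

theorem inv_series (s : Multiset ℂ) (hs : ∀ w ∈ s, 1 ≤ ‖w‖) :
    ∃ b : ℕ → ℂ, (∀ r : ℝ, 0 ≤ r → r < 1 → Summable fun n => ‖b n‖ * r ^ n) ∧
      (((s.map (fun w => (X - C w : ℂ[X]))).prod : ℂ[X]) : PowerSeries ℂ) * PowerSeries.mk b = 1 := by
  induction s using Multiset.induction_on with
  | empty =>
    refine ⟨fun n => if n = 0 then 1 else 0, ?_, ?_⟩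
    · intro r _ _
      apply summable_of_ne_finset_zero (s := {0})
      intro n hn
      simp at hn
      simp [hn]
    · simp only [Multiset.map_zero, Multiset.prod_zero, Polynomial.coe_one, one_mul]
      ext n
      rw [PowerSeries.coeff_mk, PowerSeries.coeff_one]
  | cons a t ih =>
    obtain ⟨b, hb1, hb2⟩ := ih (fun w hw => hs w (Multiset.mem_cons_of_mem hw))
    have ha := hs a (Multiset.mem_cons_self a t)
    have ha0 : a ≠ 0 := by
      rintro rfl
      simp at ha
      linarith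
    set c : ℕ → ℂ := fun n => -(a⁻¹) ^ (n + 1) with hc
    have hcn : ∀ n, ‖c n‖ ≤ 1 := by
      intro n
      rw [hc]
      simp only
      rw [norm_neg, norm_pow, norm_inv]
      exact pow_le_one₀ (by positivity) (inv_le_one_of_one_le₀ ha)
    have hcX : ((X - C a : ℂ[X]) : PowerSeries ℂ) * PowerSeries.mk c = 1 := by
      rw [Polynomial.coe_sub, Polynomial.coe_X, Polynomial.coe_C, sub_mul]
      ext n
      rw [map_sub, PowerSeries.coeff_C_mul, PowerSeries.coeff_mk, PowerSeries.coeff_one]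
      rcases Nat.eq_zero_or_pos n with h | h
      · subst h
        rw [PowerSeries.coeff_zero_X_mul]
        simp [hc, ha0]
      · obtain ⟨k, rfl⟩ : ∃ k, n = k + 1 := ⟨n - 1, by omega⟩
        rw [PowerSeries.coeff_succ_X_mul, PowerSeries.coeff_mk, if_neg (by omega)]
        rw [hc]
        simp only
        rw [pow_succ (a⁻¹) (k + 1)]
        field_simp
        ring
    refine ⟨fun n => ∑ p ∈ antidiagonal n, c p.1 * b p.2, ?_, ?_⟩
    · intro r hr0 hr1
      have h1 : Summable fun n => ‖c n * (r : ℂ) ^ n‖ := by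
        apply Summable.of_nonneg_of_le (fun _ => norm_nonneg _) _ (summable_geometric_of_lt_one hr0 hr1)
        intro n
        rw [norm_mul, norm_pow, Complex.norm_real, Real.norm_of_nonneg hr0]
        calc _ ≤ 1 * r ^ n := mul_le_mul_of_nonneg_right (hcn n) (by positivity)
          _ = _ := one_mul _
      have h2 : Summable fun n => ‖b n * (r : ℂ) ^ n‖ := by
        refine (hb1 r hr0 hr1).congr ?_
        intro n
        rw [norm_mul, norm_pow, Complex.norm_real, Real.norm_of_nonneg hr0]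
      have h3 := summable_norm_sum_mul_antidiagonal_of_summable_norm h1 h2
      refine h3.congr ?_
      intro n
      have h4 : ∑ kl ∈ antidiagonal n, c kl.1 * (r : ℂ) ^ kl.1 * (b kl.2 * (r : ℂ) ^ kl.2) =
          (∑ p ∈ antidiagonal n, c p.1 * b p.2) * (r : ℂ) ^ n := by
        rw [sum_mul]
        apply sum_congr rfl
        intro p hp
        rw [← mem_antidiagonal.1 hp, pow_add]
        ring
      rw [h4, norm_mul, norm_pow, Complex.norm_real, Real.norm_of_nonneg hr0]
    · have h5 : PowerSeries.mk (fun n => ∑ p ∈ antidiagonal n, c p.1 * b p.2) =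
          PowerSeries.mk c * PowerSeries.mk b := by
        ext n
        rw [PowerSeries.coeff_mk, PowerSeries.coeff_mul]
        simp
      rw [h5, Multiset.map_cons, Multiset.prod_cons, Polynomial.coe_mul]
      calc _ = (((X - C a : ℂ[X]) : PowerSeries ℂ) * PowerSeries.mk c) *
            ((((t.map (fun w => (X - C w : ℂ[X]))).prod : ℂ[X]) : PowerSeries ℂ) * PowerSeries.mk b) := by
            ring
        _ = 1 := by rw [hcX, hb2, one_mul]

end Pool.Agent.H271R3.RC
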