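import Pool.Agent.H271R3.RC5a

/-! The double Cauchy estimate and the weighted diagonal functional. -/

set_option autoImplicit false

namespace Pool.Agent.H271R3.RC

open Polynomial Finset Filter Topology

theorem double_bound {ι : Type*} (J : Finset ι) (χ ψ : ι → ℂ[X]) (φ : ι → PowerSeries ℂ)
    {ρ σ η : ℝ} {G : ℕ} (hρ : 1 ≤ ρ) (hσ0 : 0 < σ)
    (h1 : ∀ j ∈ J, Summable fun n => ‖PowerSeries.coeff n (φ j)‖ * σ ^ n)
    (h2 : ∀ j ∈ J, ∀ y : ℂ, ‖y‖ = σ →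
      ∑' n, PowerSeries.coeff n (φ j) * y ^ n = ((ψ j).eval y)⁻¹)
    (h3 : ∀ x y : ℂ, ‖x‖ = ρ → ‖y‖ = σ → ‖∑ j ∈ J, (χ j).eval x * ((ψ j).eval y)⁻¹‖ ≤ η)
    (h4 : ∀ x y : ℂ, ‖x‖ = ρ⁻¹ → ‖y‖ = σ →
      ‖∑ j ∈ J, (χ j).eval x * ((ψ j).eval y)⁻¹‖ ≤ (ρ⁻¹) ^ (2 * G) * η)
    (k m : ℕ) :
    ‖∑ j ∈ J, (χ j).coeff k * PowerSeries.coeff m (φ j)‖ * σ ^ m ≤ η / ρ ^ G := by
  have hρ0 : 0 < ρ := by linarith
  have hρi : 0 < ρ⁻¹ := inv_pos.2 hρ0
  have hη : 0 ≤ η := by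
    have hx : ‖(ρ : ℂ)‖ = ρ := by rw [Complex.norm_real, Real.norm_of_nonneg hρ0.le]
    have hy : ‖(σ : ℂ)‖ = σ := by rw [Complex.norm_real, Real.norm_of_nonneg hσ0.le]
    exact (norm_nonneg _).trans (h3 _ _ hx hy)
  -- first variable
  have hX : ∀ y : ℂ, ‖y‖ = σ → ‖∑ j ∈ J, (χ j).coeff k * ((ψ j).eval y)⁻¹‖ ≤ η / ρ ^ G := by
    intro y hy
    set Q : ℂ[X] := ∑ j ∈ J, C (((ψ j).eval y)⁻¹) * χ j with hQ
    have hQe : ∀ x : ℂ, Q.eval x = ∑ j ∈ J, (χ j).eval x * ((ψ j).eval y)⁻¹ := by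
      intro x
      rw [hQ, eval_finsetSum]
      apply sum_congr rfl
      intro j _
      rw [eval_mul, eval_C, mul_comm]
    have hQc : Q.coeff k = ∑ j ∈ J, (χ j).coeff k * ((ψ j).eval y)⁻¹ := by
      rw [hQ, finsetSum_coeff]
      apply sum_congr rfl
      intro j _
      rw [coeff_C_mul, mul_comm]
    rw [← hQc, le_div_iff₀ (by positivity)]
    rcases le_total G k with hGk | hGk
    · have a1 := poly_coeff_le Q hρ0 (B := η) (by
        intro x hx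
        rw [hQe]
        exact h3 x y hx hy) k
      refine le_trans ?_ a1
      exact mul_le_mul_of_nonneg_left (pow_le_pow_right₀ hρ hGk) (norm_nonneg _)
    · have a1 := poly_coeff_le Q hρi (B := (ρ⁻¹) ^ (2 * G) * η) (by
        intro x hx
        rw [hQe]
        exact h4 x y hx hy) k
      have a2 : (ρ⁻¹) ^ G ≤ (ρ⁻¹) ^ k :=
        pow_le_pow_of_le_one hρi.le (inv_le_one_of_one_le₀ hρ) hGk
      have a3 : ‖Q.coeff k‖ * (ρ⁻¹) ^ G ≤ (ρ⁻¹) ^ (2 * G) * η :=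
        (mul_le_mul_of_nonneg_left a2 (norm_nonneg _)).trans a1
      have a4 : 0 < ρ ^ (2 * G) := by positivity
      have a5 := mul_le_mul_of_nonneg_left a3 a4.le
      have e1 : ρ ^ (2 * G) * (‖Q.coeff k‖ * (ρ⁻¹) ^ G) = ‖Q.coeff k‖ * ρ ^ G := by
        rw [two_mul, pow_add, inv_pow]
        field_simp
      have e2 : ρ ^ (2 * G) * ((ρ⁻¹) ^ (2 * G) * η) = η := by
        rw [inv_pow]
        field_simp
      rw [e1, e2] at a5
      exact a5
  -- second variable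
  have hsum : ∀ y : ℂ, ‖y‖ = σ → HasSum
      (fun n => (∑ j ∈ J, (χ j).coeff k * PowerSeries.coeff n (φ j)) * y ^ n)
      (∑ j ∈ J, (χ j).coeff k * ((ψ j).eval y)⁻¹) := by
    intro y hy
    have a1 : ∀ j ∈ J, HasSum (fun n => (χ j).coeff k * (PowerSeries.coeff n (φ j) * y ^ n))
        ((χ j).coeff k * ((ψ j).eval y)⁻¹) := by
      intro j hj
      apply HasSum.mul_left
      rw [← h2 j hj y hy]
      apply Summable.hasSum
      apply Summable.of_norm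
      refine (h1 j hj).congr ?_
      intro n
      rw [norm_mul, norm_pow, hy]
    refine (hasSum_sum a1).congr_fun ?_ |> fun h => h
    intro n
    rw [sum_mul]
    apply sum_congr rfl
    intro j _
    ring
  apply coeff_le (c := fun n => ∑ j ∈ J, (χ j).coeff k * PowerSeries.coeff n (φ j)) hσ0
  · have a1 : Summable fun n => ∑ j ∈ J, ‖(χ j).coeff k‖ * (‖PowerSeries.coeff n (φ j)‖ * σ ^ n) := by
      apply summable_sum
      intro j hj
      exact (h1 j hj).mul_left _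
    apply Summable.of_nonneg_of_le _ _ a1
    · intro n
      positivity
    · intro n
      have a2 : ‖∑ j ∈ J, (χ j).coeff k * PowerSeries.coeff n (φ j)‖ ≤
          ∑ j ∈ J, ‖(χ j).coeff k‖ * ‖PowerSeries.coeff n (φ j)‖ := by
        refine (norm_sum_le _ _).trans ?_
        apply sum_le_sum
        intro j _
        rw [norm_mul]
      calc _ ≤ (∑ j ∈ J, ‖(χ j).coeff k‖ * ‖PowerSeries.coeff n (φ j)‖) * σ ^ n :=
            mul_le_mul_of_nonneg_right a2 (by positivity)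
        _ = _ := by
            rw [sum_mul]
            apply sum_congr rfl
            intro j _
            ring
  · intro y hy
    rw [(hsum y hy).tsum_eq]
    exact hX y hy

/-- `x d/dx` on power series -/
noncomputable def theta (χ : PowerSeries ℂ) : PowerSeries ℂ :=
  PowerSeries.mk fun k => (k : ℂ) * PowerSeries.coeff k χ

theorem coeff_theta (χ : PowerSeries ℂ) (k : ℕ) :
    PowerSeries.coeff k (theta χ) = (k : ℂ) * PowerSeries.coeff k χ := by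
  rw [theta, PowerSeries.coeff_mk]

theorem theta_X2 (χ : PowerSeries ℂ) :
    theta (PowerSeries.X ^ 2 * χ) = 2 * (PowerSeries.X ^ 2 * χ) + PowerSeries.X ^ 2 * theta χ := by
  ext k
  have h2 : (2 : PowerSeries ℂ) = PowerSeries.C 2 := by
    rw [map_ofNat]
  rw [coeff_theta, map_add, h2, PowerSeries.coeff_C_mul, PowerSeries.coeff_X_pow_mul',
    PowerSeries.coeff_X_pow_mul']
  split_ifs with h
  · rw [coeff_theta, Nat.cast_sub h]
    push_cast
    ring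
  · ring

theorem theta_add (χ χ' : PowerSeries ℂ) : theta (χ + χ') = theta χ + theta χ' := by
  ext k
  rw [map_add, coeff_theta, coeff_theta, coeff_theta, map_add]
  ring

theorem theta_C_mul (c : ℂ) (χ : PowerSeries ℂ) :
    theta (PowerSeries.C c * χ) = PowerSeries.C c * theta χ := by
  ext k
  rw [coeff_theta, PowerSeries.coeff_C_mul, PowerSeries.coeff_C_mul, coeff_theta]
  ring

theorem lam_bound {ι : Type*} (J : Finset ι) (χ ψ : ι → ℂ[X]) (φ : ι → PowerSeries ℂ)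
    {ρ σ η : ℝ} {G : ℕ} (hρ : 1 ≤ ρ) (hσ0 : 0 < σ) (hσ1 : σ ≤ 1)
    (h1 : ∀ j ∈ J, Summable fun n => ‖PowerSeries.coeff n (φ j)‖ * σ ^ n)
    (h2 : ∀ j ∈ J, ∀ y : ℂ, ‖y‖ = σ →
      ∑' n, PowerSeries.coeff n (φ j) * y ^ n = ((ψ j).eval y)⁻¹)
    (h3 : ∀ x y : ℂ, ‖x‖ = ρ → ‖y‖ = σ → ‖∑ j ∈ J, (χ j).eval x * ((ψ j).eval y)⁻¹‖ ≤ η)
    (h4 : ∀ x y : ℂ, ‖x‖ = ρ⁻¹ → ‖y‖ = σ →
      ‖∑ j ∈ J, (χ j).eval x * ((ψ j).eval y)⁻¹‖ ≤ (ρ⁻¹) ^ (2 * G) * η)
    (N : ℕ) :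
    ‖∑ j ∈ J, PowerSeries.coeff N (theta (χ j : PowerSeries ℂ) * φ j)‖ ≤
      (N + 1) * N * (η / ρ ^ G / σ ^ N) := by
  have hη : 0 ≤ η / ρ ^ G := by
    have := double_bound J χ ψ φ hρ hσ0 h1 h2 h3 h4 0 0
    refine le_trans ?_ this
    positivity
  have e1 : ∑ j ∈ J, PowerSeries.coeff N (theta (χ j : PowerSeries ℂ) * φ j) =
      ∑ p ∈ antidiagonal N, (p.1 : ℂ) * ∑ j ∈ J, (χ j).coeff p.1 * PowerSeries.coeff p.2 (φ j) := by
    simp_rw [PowerSeries.coeff_mul, coeff_theta, Polynomial.coeff_coe, mul_sum]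
    rw [sum_comm]
    apply sum_congr rfl
    intro p _
    apply sum_congr rfl
    intro j _
    ring
  rw [e1]
  refine (norm_sum_le _ _).trans ?_
  have e2 : ∀ p ∈ antidiagonal N, ‖(p.1 : ℂ) * ∑ j ∈ J, (χ j).coeff p.1 * PowerSeries.coeff p.2 (φ j)‖ ≤
      N * (η / ρ ^ G / σ ^ N) := by
    intro p hp
    rw [HasAntidiagonal.mem_antidiagonal] at hp
    rw [norm_mul, Complex.norm_natCast]
    have a1 := double_bound J χ ψ φ hρ hσ0 h1 h2 h3 h4 p.1 p.2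
    have a2 : σ ^ N ≤ σ ^ p.2 := pow_le_pow_of_le_one hσ0.le hσ1 (by omega)
    have a3 : ‖∑ j ∈ J, (χ j).coeff p.1 * PowerSeries.coeff p.2 (φ j)‖ ≤ η / ρ ^ G / σ ^ N := by
      rw [le_div_iff₀ (by positivity)]
      exact (mul_le_mul_of_nonneg_left a2 (norm_nonneg _)).trans a1
    have a4 : (p.1 : ℝ) ≤ N := by
      have : p.1 ≤ N := by omega
      exact_mod_cast this
    exact mul_le_mul a4 a3 (norm_nonneg _) (by positivity)
  refine (sum_le_sum e2).trans ?_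
  rw [sum_const, Nat.card_antidiagonal, nsmul_eq_mul]
  push_cast
  rw [mul_assoc]

end Pool.Agent.H271R3.RC
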