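import Pool.Agent.H271R3.RC4
import Pool.Agent.H271R3.RC5b

/-! The normalised `L`-polynomial: unimodular zeros, functional equation, inverse series. -/

set_option autoImplicit false

namespace Pool.Agent.H271R3.RC

open Polynomial Finset
open Pool.Agent.H341R2.Sharp

section LP

variable {F : Type*} [Field F] [Fintype F] [DecidableEq F]

/-- `1 / √q` -/
noncomputable def sr (F : Type*) [Fintype F] : ℝ := (Real.sqrt (Fintype.card F))⁻¹

theorem sr_pos (hq : 2 ≤ Fintype.card F) : 0 < sr F := by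
  unfold sr
  have : (0 : ℝ) < Fintype.card F := by
    have : (2 : ℝ) ≤ Fintype.card F := by exact_mod_cast hq
    linarith
  positivity

theorem sr_sq (hq : 2 ≤ Fintype.card F) : sr F ^ 2 = (Fintype.card F : ℝ)⁻¹ := by
  unfold sr
  rw [inv_pow, Real.sq_sqrt (by positivity)]

/-- the normalised `L`-polynomial -/
noncomputable def Lp (D : F[X]) : ℂ[X] :=
  ∑ k ∈ range D.natDegree, C ((A D k : ℂ) * ((sr F : ℝ) : ℂ) ^ k) * X ^ k

theorem Lp_coeff (hF : ringChar F ≠ 2) {D : F[X]} (hD : D.Monic) (hs : Squarefree D)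
    (hd : 1 ≤ D.natDegree) (k : ℕ) : (Lp D).coeff k = (A D k : ℂ) * ((sr F : ℝ) : ℂ) ^ k := by
  rw [Lp, finsetSum_coeff]
  simp_rw [coeff_C_mul_X_pow]
  by_cases hn : k < D.natDegree
  · rw [sum_eq_single k]
    · simp
    · intro m _ hm
      rw [if_neg (Ne.symm hm)]
    · intro h
      exact absurd (mem_range.2 hn) h
  · rw [A_vanish hF hD hs hd k (by omega)]
    rw [sum_eq_zero]
    · simp
    · intro m hm
      rw [mem_range] at hm
      rw [if_neg (by omega)]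

theorem Lp_deg (hF : ringChar F ≠ 2) (hq : 2 ≤ Fintype.card F) {D : F[X]} {g : ℕ} (hD : D ∈ Hs F (2 * g + 1)) :
    (Lp D).natDegree = 2 * g ∧ (Lp D).Monic ∧ (Lp D).coeff 0 = 1 := by
  obtain ⟨h1, h2, h3⟩ := mem_Hs.1 hD
  have hc := Lp_coeff hF h1 h3 (by omega)
  have e1 : (Lp D).coeff (2 * g) = 1 := by
    rw [hc, top_odd hF h1 h3 g h2]
    have h4 : ((sr F : ℝ) : ℂ) ^ (2 * g) = ((Fintype.card F : ℂ)⁻¹) ^ g := by
      rw [pow_mul, ← Complex.ofReal_pow, sr_sq hq]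
      push_cast
      rfl
    rw [h4]
    push_cast
    rw [← mul_pow, mul_inv_cancel₀, one_pow]
    have : Fintype.card F ≠ 0 := by omega
    exact_mod_cast this
  have e2 : (Lp D).natDegree ≤ 2 * g := by
    rw [natDegree_le_iff_coeff_eq_zero]
    intro n hn
    rw [hc, A_vanish hF h1 h3 (by omega) n (by omega)]
    simp
  have e3 : (Lp D).Monic := monic_of_natDegree_le_of_coeff_eq_one (2 * g) e2 e1
  refine ⟨?_, e3, ?_⟩
  · apply le_antisymm e2
    apply le_natDegree_of_ne_zero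
    rw [e1]
    exact one_ne_zero
  · rw [hc, A_zero]
    simp

theorem Lp_rec (hF : ringChar F ≠ 2) {D : F[X]} (hD : D.Monic) (hs : Squarefree D)
    (hd : 1 ≤ D.natDegree) (n : ℕ) : (n : ℂ) * (Lp D).coeff n =
      ∑ m ∈ Icc 1 n, (Lp D).coeff (n - m) * ((T D m : ℂ) * ((sr F : ℝ) : ℂ) ^ m) := by
  have hc := Lp_coeff hF hD hs hd
  rw [hc, ← mul_assoc]
  have h1 : ((n : ℂ) * (A D n : ℂ)) = ∑ m ∈ Icc 1 n, (A D (n - m) : ℂ) * (T D m : ℂ) := by
    have := n_mul_A D n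
    exact_mod_cast this
  rw [h1, sum_mul]
  apply sum_congr rfl
  intro m hm
  rw [mem_Icc] at hm
  rw [hc]
  have e : ((sr F : ℝ) : ℂ) ^ n = ((sr F : ℝ) : ℂ) ^ (n - m) * ((sr F : ℝ) : ℂ) ^ m := by
    rw [← pow_add]
    congr 1
    omega
  rw [e]
  ring

theorem Lp_roots (hF : ringChar F ≠ 2) (hq : 2 ≤ Fintype.card F) {D : F[X]} {g : ℕ} (hD : D ∈ Hs F (2 * g + 1)) :
    ∀ z ∈ (Lp D).roots, ‖z‖ = 1 := by
  obtain ⟨h1, h2, h3⟩ := mem_Hs.1 hD
  obtain ⟨d1, d2, d3⟩ := Lp_deg hF hq hD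
  apply unit_roots _ d2 d3
  intro z hz
  have hz' : (Lp D).eval z = 0 := (mem_roots d2.ne_zero).1 hz
  have hsr := sr_pos (F := F) hq
  have := root_norm (Lp D) d3 (fun m => (T D m : ℂ) * ((sr F : ℝ) : ℂ) ^ m) 1 (5 * D.natDegree)
    one_pos (by positivity) (by
      intro m hm
      rw [norm_mul, norm_pow, Complex.norm_intCast, Complex.norm_real, Real.norm_of_nonneg hsr.le,
        one_pow, mul_one]
      have h4 := (T_bound hF h1 (by omega) (not_sq h1 h3 (by omega)) m hm).1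
      have h5 : 0 < sr F ^ m := by positivity
      have h6 := mul_le_mul_of_nonneg_right h4 h5.le
      refine h6.trans ?_
      rw [mul_assoc, ← mul_pow]
      have h7 : Real.sqrt (Fintype.card F) * sr F = 1 := by
        unfold sr at hsr ⊢
        apply mul_inv_cancel₀
        intro h
        rw [h] at hsr
        simp at hsr
      rw [h7, one_pow, mul_one])
    (Lp_rec hF h1 h3 (by omega)) z hz'
  rwa [one_mul] at this

/-- functional equation -/
theorem Lp_fe (hF : ringChar F ≠ 2) (hq : 2 ≤ Fintype.card F) {D : F[X]} {g : ℕ} (hD : D ∈ Hs F (2 * g + 1))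
    (x : ℂ) (hx : x ≠ 0) : (Lp D).eval x = x ^ (2 * g) * (Lp D).eval x⁻¹ := by
  obtain ⟨h1, h2, h3⟩ := mem_Hs.1 hD
  obtain ⟨d1, d2, d3⟩ := Lp_deg hF hq hD
  have := self_rec (Lp D) d2 d3 (by
    intro k
    rw [Lp_coeff hF h1 h3 (by omega), map_mul, map_pow, Complex.conj_ofReal]
    congr 1
    have : ((A D k : ℤ) : ℂ) = (((A D k : ℤ) : ℝ) : ℂ) := by push_cast; rfl
    rw [this, Complex.conj_ofReal]) (Lp_roots hF hq hD) x hx
  rw [d1] at this
  exact this

/-- inverse power series -/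
noncomputable def bb (D : F[X]) : PowerSeries ℂ := ((Lp D : ℂ[X]) : PowerSeries ℂ)⁻¹

theorem bb_mul (hF : ringChar F ≠ 2) (hq : 2 ≤ Fintype.card F) {D : F[X]} {g : ℕ} (hD : D ∈ Hs F (2 * g + 1)) :
    ((Lp D : ℂ[X]) : PowerSeries ℂ) * bb D = 1 := by
  obtain ⟨d1, d2, d3⟩ := Lp_deg hF hq hD
  unfold bb
  apply PowerSeries.mul_inv_cancel
  rw [← PowerSeries.coeff_zero_eq_constantCoeff_apply, Polynomial.coeff_coe, d3]
  exact one_ne_zero

theorem bb_summable (hF : ringChar F ≠ 2) (hq : 2 ≤ Fintype.card F) {D : F[X]} {g : ℕ}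
    (hD : D ∈ Hs F (2 * g + 1)) {r : ℝ} (hr0 : 0 ≤ r) (hr1 : r < 1) :
    Summable fun n => ‖PowerSeries.coeff n (bb D)‖ * r ^ n := by
  obtain ⟨d1, d2, d3⟩ := Lp_deg hF hq hD
  obtain ⟨b, hb1, hb2⟩ := inv_series (Lp D).roots (fun w hw => (Lp_roots hF hq hD w hw).ge)
  rw [← (IsAlgClosed.splits (Lp D)).eq_prod_roots_of_monic d2] at hb2
  have h1 := bb_mul hF hq hD
  have h2 : bb D = PowerSeries.mk b := by
    calc bb D = bb D * (((Lp D : ℂ[X]) : PowerSeries ℂ) * PowerSeries.mk b) := by rw [hb2, mul_one]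
      _ = (((Lp D : ℂ[X]) : PowerSeries ℂ) * bb D) * PowerSeries.mk b := by ring
      _ = _ := by rw [h1, one_mul]
  rw [h2]
  simp only [PowerSeries.coeff_mk]
  exact hb1 r hr0 hr1

theorem bb_tsum (hF : ringChar F ≠ 2) (hq : 2 ≤ Fintype.card F) {D : F[X]} {g : ℕ}
    (hD : D ∈ Hs F (2 * g + 1)) (y : ℂ) (hy : ‖y‖ < 1) :
    ∑' n, PowerSeries.coeff n (bb D) * y ^ n = ((Lp D).eval y)⁻¹ := by
  have hs := bb_summable hF hq hD (norm_nonneg y) hy
  have h1 : Summable fun n => ‖PowerSeries.coeff n (bb D) * y ^ n‖ := by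
    refine hs.congr ?_
    intro n
    rw [norm_mul, norm_pow]
  have h0 : ∀ n ∉ range ((Lp D).natDegree + 1), (Lp D).coeff n * y ^ n = 0 := by
    intro n hn
    rw [mem_range] at hn
    rw [coeff_eq_zero_of_natDegree_lt (by omega), zero_mul]
  have h2 : Summable fun n => ‖(Lp D).coeff n * y ^ n‖ := by
    apply summable_of_ne_finset_zero (s := range ((Lp D).natDegree + 1))
    intro n hn
    rw [h0 n hn, norm_zero]
  have h3 : ∑' n, (Lp D).coeff n * y ^ n = (Lp D).eval y := by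
    rw [tsum_eq_sum h0, eval_eq_sum_range]
  have h4 := tsum_mul_tsum_eq_tsum_sum_antidiagonal_of_summable_norm h2 h1
  have h5 : ∀ n, ∑ kl ∈ antidiagonal n, (Lp D).coeff kl.1 * y ^ kl.1 * (PowerSeries.coeff kl.2 (bb D) * y ^ kl.2) =
      if n = 0 then 1 else 0 := by
    intro n
    have e1 := congrArg (PowerSeries.coeff n) (bb_mul hF hq hD)
    rw [PowerSeries.coeff_mul, PowerSeries.coeff_one] at e1
    have e2 : ∑ kl ∈ antidiagonal n, (Lp D).coeff kl.1 * y ^ kl.1 * (PowerSeries.coeff kl.2 (bb D) * y ^ kl.2) =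
      (∑ kl ∈ antidiagonal n, PowerSeries.coeff kl.1 ((Lp D : ℂ[X]) : PowerSeries ℂ) * PowerSeries.coeff kl.2 (bb D)) * y ^ n := by
      rw [sum_mul]
      apply sum_congr rfl
      intro p hp
      rw [← mem_antidiagonal.1 hp, pow_add, Polynomial.coeff_coe]
      ring
    rw [e2, e1]
    split_ifs with h
    · rw [h]; simp
    · simp
  rw [h3, tsum_congr h5, tsum_ite_eq] at h4
  exact eq_inv_of_mul_eq_one_right h4

/-- the power series of the normalised traces -/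
noncomputable def tt (D : F[X]) : PowerSeries ℂ :=
  PowerSeries.mk fun m => if m = 0 then 0 else (T D m : ℂ) * ((sr F : ℝ) : ℂ) ^ m

theorem theta_Lp (hF : ringChar F ≠ 2) (hq : 2 ≤ Fintype.card F) {D : F[X]} {g : ℕ}
    (hD : D ∈ Hs F (2 * g + 1)) : theta ((Lp D : ℂ[X]) : PowerSeries ℂ) = ((Lp D : ℂ[X]) : PowerSeries ℂ) * tt D := by
  obtain ⟨h1, h2, h3⟩ := mem_Hs.1 hD
  ext n
  rw [coeff_theta, Polynomial.coeff_coe, Lp_rec hF h1 h3 (by omega), PowerSeries.coeff_mul,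
    Nat.sum_antidiagonal_eq_sum_range_succ_mk]
  have h4 : (range (n + 1)).filter (fun m => m ≠ 0) = Icc 1 n := by
    ext m
    simp only [mem_filter, mem_range, mem_Icc]
    omega
  rw [← sum_range_reflect, ← h4, sum_filter]
  apply sum_congr rfl
  intro m hm
  rw [mem_range] at hm
  have e1 : n + 1 - 1 - m = n - m := by omega
  have e2 : n - (n - m) = m := by omega
  rw [e1, e2, Polynomial.coeff_coe, tt, PowerSeries.coeff_mk]
  by_cases h0 : m = 0
  · simp [h0]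
  · rw [if_pos h0, if_neg h0]

theorem val1 (hF : ringChar F ≠ 2) (hq : 2 ≤ Fintype.card F) {D : F[X]} {g : ℕ}
    (hD : D ∈ Hs F (2 * g + 1)) : theta ((Lp D : ℂ[X]) : PowerSeries ℂ) * bb D = tt D := by
  rw [theta_Lp hF hq hD]
  calc _ = (((Lp D : ℂ[X]) : PowerSeries ℂ) * bb D) * tt D := by ring
    _ = _ := by rw [bb_mul hF hq hD, one_mul]

theorem val2 (hF : ringChar F ≠ 2) (hq : 2 ≤ Fintype.card F) {D : F[X]} {g : ℕ}
    (hD : D ∈ Hs F (2 * g + 1)) :
    theta (PowerSeries.X ^ 2 * ((Lp D : ℂ[X]) : PowerSeries ℂ)) * bb D =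
      2 * PowerSeries.X ^ 2 + PowerSeries.X ^ 2 * tt D := by
  rw [theta_X2]
  calc _ = 2 * PowerSeries.X ^ 2 * (((Lp D : ℂ[X]) : PowerSeries ℂ) * bb D) +
        PowerSeries.X ^ 2 * (theta ((Lp D : ℂ[X]) : PowerSeries ℂ) * bb D) := by ring
    _ = _ := by rw [bb_mul hF hq hD, val1 hF hq hD, mul_one]

end LP

end Pool.Agent.H271R3.RC
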