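import Pool.Agent.H271R3.RC5c

/-! Assembly: a lower bound for the defect of the three-term combination. -/

set_option autoImplicit false

namespace Pool.Agent.H271R3.RC

open Polynomial Finset
open Pool.Agent.H341R2.Sharp

section Asm

variable {F : Type*} [Field F] [Fintype F] [DecidableEq F]

/-- the mean ratio in terms of normalised variables -/
noncomputable def RR (F : Type*) [Field F] [Fintype F] [DecidableEq F] (g : ℕ) (x y : ℂ) : ℂ :=
  (∑ D ∈ Hs F (2 * g + 1), (Lp D).eval x * ((Lp D).eval y)⁻¹) / ((Hs F (2 * g + 1)).card : ℂ)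

theorem RR_fe (hF : ringChar F ≠ 2) (hq : 2 ≤ Fintype.card F) (g : ℕ) (x y : ℂ) (hx : x ≠ 0) :
    RR F g x y = x ^ (2 * g) * RR F g x⁻¹ y := by
  unfold RR
  rw [← mul_div_assoc, mul_sum]
  congr 1
  apply sum_congr rfl
  intro D hD
  rw [Lp_fe hF hq hD x hx]
  ring

theorem coeff_val1 (hF : ringChar F ≠ 2) (hq : 2 ≤ Fintype.card F) (g N : ℕ) (hN : 1 ≤ N) :
    ∑ D ∈ Hs F (2 * g + 1), ((Hs F (2 * g + 1)).card : ℂ)⁻¹ * PowerSeries.coeff N (tt D) =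
      ((sr F ^ N * tau F (2 * g + 1) N : ℝ) : ℂ) := by
  rw [← mul_sum]
  have h1 : ∑ D ∈ Hs F (2 * g + 1), PowerSeries.coeff N (tt D) =
      (∑ D ∈ Hs F (2 * g + 1), (T D N : ℂ)) * ((sr F : ℝ) : ℂ) ^ N := by
    rw [sum_mul]
    apply sum_congr rfl
    intro D _
    rw [tt, PowerSeries.coeff_mk, if_neg (by omega)]
  rw [h1]
  unfold tau
  push_cast
  ring

theorem main_ineq (hF : ringChar F ≠ 2) (hq : 3 ≤ Fintype.card F) {g : ℕ} (hg : 13 ≤ g)
    (hg3 : g % 3 = 1) {ρ σ η : ℝ} (hρ : 1 ≤ ρ) (hσ0 : 0 < σ) (hσ1 : σ < 1)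
    (hη : ∀ x y : ℂ, ‖x‖ = ρ → ‖y‖ = σ →
      ‖RR F (g + 2) x y - (1 + x ^ 2) * RR F (g + 1) x y + x ^ 2 * RR F g x y‖ ≤ η) :
    1 / 2 * ((Fintype.card F : ℝ) ^ (g + 1))⁻¹ ≤
      (((2 * g + 2 : ℕ) : ℝ) + 1) * ((2 * g + 2 : ℕ) : ℝ) * (η / ρ ^ (g + 2) / σ ^ (2 * g + 2)) := by
  classical
  have hq2 : 2 ≤ Fintype.card F := by omega
  set c2 : ℂ := ((Hs F (2 * (g + 2) + 1)).card : ℂ)⁻¹ with hc2
  set c1 : ℂ := ((Hs F (2 * (g + 1) + 1)).card : ℂ)⁻¹ with hc1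
  set c0 : ℂ := ((Hs F (2 * g + 1)).card : ℂ)⁻¹ with hc0
  set J := (Hs F (2 * (g + 2) + 1)).disjSum ((Hs F (2 * (g + 1) + 1)).disjSum (Hs F (2 * g + 1))) with hJ
  let χ : F[X] ⊕ (F[X] ⊕ F[X]) → ℂ[X] := Sum.elim (fun D => C c2 * Lp D)
    (Sum.elim (fun D => C (-c1) * (Lp D + X ^ 2 * Lp D)) (fun D => C c0 * (X ^ 2 * Lp D)))
  let ψ : F[X] ⊕ (F[X] ⊕ F[X]) → ℂ[X] := Sum.elim Lp (Sum.elim Lp Lp)
  let φ : F[X] ⊕ (F[X] ⊕ F[X]) → PowerSeries ℂ := Sum.elim bb (Sum.elim bb bb)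
  have hval : ∀ x y : ℂ, ∑ j ∈ J, (χ j).eval x * ((ψ j).eval y)⁻¹ =
      RR F (g + 2) x y - (1 + x ^ 2) * RR F (g + 1) x y + x ^ 2 * RR F g x y := by
    intro x y
    rw [hJ, sum_disjSum, sum_disjSum]
    simp only [χ, ψ, Sum.elim_inl, Sum.elim_inr, eval_mul, eval_C, eval_add, eval_pow, eval_X]
    have a2 : ∑ D ∈ Hs F (2 * (g + 2) + 1), c2 * eval x (Lp D) * (eval y (Lp D))⁻¹ = RR F (g + 2) x y := by
      unfold RR
      rw [div_eq_mul_inv, ← hc2, sum_mul]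
      apply sum_congr rfl
      intro D _
      ring
    have a1 : ∑ D ∈ Hs F (2 * (g + 1) + 1), -c1 * (eval x (Lp D) + x ^ 2 * eval x (Lp D)) * (eval y (Lp D))⁻¹ =
        - ((1 + x ^ 2) * RR F (g + 1) x y) := by
      unfold RR
      rw [div_eq_mul_inv, ← hc1, ← mul_assoc, mul_sum, sum_mul, ← sum_neg_distrib]
      apply sum_congr rfl
      intro D _
      ring
    have a0 : ∑ D ∈ Hs F (2 * g + 1), c0 * (x ^ 2 * eval x (Lp D)) * (eval y (Lp D))⁻¹ =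
        x ^ 2 * RR F g x y := by
      unfold RR
      rw [div_eq_mul_inv, ← hc0, ← mul_assoc, mul_sum, sum_mul]
      apply sum_congr rfl
      intro D _
      ring
    rw [a2, a1, a0]
    ring
  have hbound := lam_bound J χ ψ φ (ρ := ρ) (σ := σ) (η := η) (G := g + 2) hρ hσ0 hσ1.le
    (by
      intro j hj
      rw [hJ, mem_disjSum] at hj
      rcases hj with ⟨D, hD, rfl⟩ | ⟨j, hj, rfl⟩
      · exact bb_summable hF hq2 hD hσ0.le hσ1
      · rw [mem_disjSum] at hj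
        rcases hj with ⟨D, hD, rfl⟩ | ⟨D, hD, rfl⟩
        · exact bb_summable hF hq2 hD hσ0.le hσ1
        · exact bb_summable hF hq2 hD hσ0.le hσ1)
    (by
      intro j hj y hy
      rw [hJ, mem_disjSum] at hj
      rcases hj with ⟨D, hD, rfl⟩ | ⟨j, hj, rfl⟩
      · exact bb_tsum hF hq2 hD y (by rw [hy]; exact hσ1)
      · rw [mem_disjSum] at hj
        rcases hj with ⟨D, hD, rfl⟩ | ⟨D, hD, rfl⟩
        · exact bb_tsum hF hq2 hD y (by rw [hy]; exact hσ1)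
        · exact bb_tsum hF hq2 hD y (by rw [hy]; exact hσ1))
    (by
      intro x y hx hy
      rw [hval]
      exact hη x y hx hy)
    (by
      intro x y hx hy
      have hρ0 : 0 < ρ := by linarith
      have hx0 : x ≠ 0 := by
        rintro rfl
        rw [norm_zero] at hx
        have := inv_pos.2 hρ0
        linarith
      rw [hval]
      have e : RR F (g + 2) x y - (1 + x ^ 2) * RR F (g + 1) x y + x ^ 2 * RR F g x y =
          x ^ (2 * (g + 2)) * (RR F (g + 2) x⁻¹ y - (1 + x⁻¹ ^ 2) * RR F (g + 1) x⁻¹ y +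
            x⁻¹ ^ 2 * RR F g x⁻¹ y) := by
        rw [RR_fe hF hq2 (g + 2) x y hx0, RR_fe hF hq2 (g + 1) x y hx0, RR_fe hF hq2 g x y hx0]
        have e2 : x ^ (2 * (g + 2)) = x ^ (2 * g) * x ^ 4 := by rw [← pow_add]; congr 1
        have e1 : x ^ (2 * (g + 1)) = x ^ (2 * g) * x ^ 2 := by rw [← pow_add]; congr 1
        rw [e2, e1]
        field_simp
        ring
      rw [e, norm_mul, norm_pow, hx]
      apply mul_le_mul_of_nonneg_left _ (by positivity)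
      apply hη _ _ _ hy
      rw [norm_inv, hx, inv_inv])
    (2 * g + 2)
  refine le_trans ?_ hbound
  have hk := key_val hF hq hg hg3
  refine hk.trans (le_of_eq ?_)
  have hN : 1 ≤ 2 * g + 2 := by omega
  have hX2 : PowerSeries.coeff (2 * g + 2) (2 * PowerSeries.X ^ 2 : PowerSeries ℂ) = 0 := by
    have h2 : (2 : PowerSeries ℂ) = PowerSeries.C 2 := by rw [map_ofNat]
    rw [h2, PowerSeries.coeff_C_mul, PowerSeries.coeff_X_pow, if_neg (by omega), mul_zero]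
  have hXt : ∀ D : F[X], PowerSeries.coeff (2 * g + 2) (PowerSeries.X ^ 2 * tt D) =
      PowerSeries.coeff (2 * g) (tt D) := by
    intro D
    rw [PowerSeries.coeff_X_pow_mul', if_pos (by omega)]
    congr 1
  have v2 : ∑ D ∈ Hs F (2 * (g + 2) + 1), PowerSeries.coeff (2 * g + 2)
      (theta ((C c2 * Lp D : ℂ[X]) : PowerSeries ℂ) * bb D) =
      ((sr F ^ (2 * g + 2) * tau F (2 * (g + 2) + 1) (2 * g + 2) : ℝ) : ℂ) := by
    rw [← coeff_val1 hF hq2 (g + 2) (2 * g + 2) hN]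
    apply sum_congr rfl
    intro D hD
    rw [Polynomial.coe_mul, Polynomial.coe_C, theta_C_mul, mul_assoc, val1 hF hq2 hD,
      PowerSeries.coeff_C_mul]
  have v1 : ∑ D ∈ Hs F (2 * (g + 1) + 1), PowerSeries.coeff (2 * g + 2)
      (theta ((C (-c1) * (Lp D + X ^ 2 * Lp D) : ℂ[X]) : PowerSeries ℂ) * bb D) =
      - ((sr F ^ (2 * g + 2) * tau F (2 * (g + 1) + 1) (2 * g + 2) : ℝ) : ℂ) -
        ((sr F ^ (2 * g) * tau F (2 * (g + 1) + 1) (2 * g) : ℝ) : ℂ) := by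
    rw [← coeff_val1 hF hq2 (g + 1) (2 * g + 2) hN, ← coeff_val1 hF hq2 (g + 1) (2 * g) (by omega),
      ← sum_neg_distrib, ← sum_sub_distrib]
    apply sum_congr rfl
    intro D hD
    rw [Polynomial.coe_mul, Polynomial.coe_C, theta_C_mul, Polynomial.coe_add, theta_add,
      Polynomial.coe_mul, Polynomial.coe_pow, Polynomial.coe_X, mul_assoc, add_mul, val1 hF hq2 hD,
      val2 hF hq2 hD, PowerSeries.coeff_C_mul, map_add, map_add, hX2, hXt]
    ring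
  have v0 : ∑ D ∈ Hs F (2 * g + 1), PowerSeries.coeff (2 * g + 2)
      (theta ((C c0 * (X ^ 2 * Lp D) : ℂ[X]) : PowerSeries ℂ) * bb D) =
      ((sr F ^ (2 * g) * tau F (2 * g + 1) (2 * g) : ℝ) : ℂ) := by
    rw [← coeff_val1 hF hq2 g (2 * g) (by omega)]
    apply sum_congr rfl
    intro D hD
    rw [Polynomial.coe_mul, Polynomial.coe_C, theta_C_mul, Polynomial.coe_mul, Polynomial.coe_pow,
      Polynomial.coe_X, mul_assoc, val2 hF hq2 hD, PowerSeries.coeff_C_mul, map_add, hX2, hXt, zero_add]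
  rw [hJ, sum_disjSum, sum_disjSum]
  simp only [χ, φ, Sum.elim_inl, Sum.elim_inr]
  rw [v2, v1, v0]
  have s1 : sr F ^ (2 * g + 2) = ((Fintype.card F : ℝ) ^ (g + 1))⁻¹ := by
    rw [show 2 * g + 2 = 2 * (g + 1) by ring, pow_mul, sr_sq hq2, inv_pow]
  have s0 : sr F ^ (2 * g) = ((Fintype.card F : ℝ) ^ g)⁻¹ := by
    rw [pow_mul, sr_sq hq2, inv_pow]
  rw [s1, s0, ← Real.norm_eq_abs, ← Complex.norm_real]
  congr 1
  push_cast
  ring

end Asm

end Pool.Agent.H271R3.RC
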