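import Pool.Agent.H271R3.RC6

/-! The final contradiction. -/

set_option autoImplicit false

namespace Pool.Agent.H271R3.RC

open Polynomial Finset Filter Topology
open Pool.Agent.H341R2.Sharp

section Fin

variable {F : Type*} [Field F] [Fintype F] [DecidableEq F]

theorem core (hF : ringChar F ≠ 2) (hq : 3 ≤ Fintype.card F) {a δ ε K : ℝ} (hδ : 0 < δ)
    (ha0 : 0 ≤ a) (ha : ε + 2 * δ < a) (g₀ : ℕ)
    (h : ∀ g : ℕ, g₀ ≤ g → ∀ x y : ℂ, ‖x‖ = (Fintype.card F : ℝ) ^ a →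
      ‖y‖ = (Fintype.card F : ℝ) ^ (-δ) →
      ‖RR F (g + 2) x y - (1 + x ^ 2) * RR F (g + 1) x y + x ^ 2 * RR F g x y‖ ≤
        K * (Fintype.card F : ℝ) ^ ((ε - 1) * g)) : False := by
  set q : ℝ := (Fintype.card F : ℝ) with hqdef
  have hq3 : (3 : ℝ) ≤ q := by rw [hqdef]; exact_mod_cast hq
  have hq0 : 0 < q := by linarith
  have hq1 : 1 < q := by linarith
  set t : ℝ := q ^ (-(a - ε - 2 * δ)) with ht
  have ht0 : 0 < t := Real.rpow_pos_of_pos hq0 _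
  have ht1 : t < 1 := Real.rpow_lt_one_of_one_lt_of_neg hq1 (by linarith)
  set C : ℝ := 2 * q * |K| * q ^ (-2 * a + 2 * δ) with hC
  have hC0 : 0 ≤ C := by
    have : 0 < q ^ (-2 * a + 2 * δ) := Real.rpow_pos_of_pos hq0 _
    positivity
  have hlim : Tendsto (fun g : ℕ => C * (20 * ((g : ℝ) ^ 2 * t ^ g))) atTop (𝓝 (C * (20 * 0))) := by
    apply Tendsto.const_mul
    apply Tendsto.const_mul
    exact tendsto_pow_const_mul_const_pow_of_abs_lt_one 2 (by rw [abs_of_pos ht0]; exact ht1)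
  rw [mul_zero, mul_zero] at hlim
  obtain ⟨G1, hG1⟩ := eventually_atTop.1 (hlim.eventually (gt_mem_nhds (zero_lt_one' ℝ)))
  set g : ℕ := 3 * (G1 + g₀ + 13) + 1 with hg
  have h1 := hG1 g (by omega)
  have hm := main_ineq hF hq (g := g) (by omega) (by omega) (ρ := q ^ a) (σ := q ^ (-δ))
    (η := K * q ^ ((ε - 1) * g)) (Real.one_le_rpow hq1.le ha0) (Real.rpow_pos_of_pos hq0 _)
    (Real.rpow_lt_one_of_one_lt_of_neg hq1 (by linarith)) (h g (by omega))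
  rw [← hqdef] at hm
  -- rewrite everything as real powers
  have e1 : K * q ^ ((ε - 1) * g) / (q ^ a) ^ (g + 2) / (q ^ (-δ)) ^ (2 * g + 2) =
      K * (q ^ (-2 * a + 2 * δ) * t ^ g * (q ^ g)⁻¹) := by
    rw [ht, ← Real.rpow_natCast (q ^ a), ← Real.rpow_natCast (q ^ (-δ)),
      ← Real.rpow_natCast (q ^ (-(a - ε - 2 * δ))), ← Real.rpow_natCast q g,
      ← Real.rpow_mul hq0.le, ← Real.rpow_mul hq0.le, ← Real.rpow_mul hq0.le, ← Real.rpow_neg hq0.le,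
      ← Real.rpow_add hq0, ← Real.rpow_add hq0, mul_div_assoc, mul_div_assoc, ← Real.rpow_sub hq0,
      ← Real.rpow_sub hq0]
    congr 2
    push_cast
    ring
  rw [e1] at hm
  have hg1 : (1 : ℝ) ≤ g := by
    have : 1 ≤ g := by omega
    exact_mod_cast this
  have e2 : (((2 * g + 2 : ℕ) : ℝ) + 1) * ((2 * g + 2 : ℕ) : ℝ) ≤ 20 * (g : ℝ) ^ 2 := by
    push_cast
    nlinarith
  have e3 : 0 < q ^ (-2 * a + 2 * δ) * t ^ g * (q ^ g)⁻¹ := by
    have : 0 < q ^ (-2 * a + 2 * δ) := Real.rpow_pos_of_pos hq0 _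
    positivity
  have e4 : (((2 * g + 2 : ℕ) : ℝ) + 1) * ((2 * g + 2 : ℕ) : ℝ) *
      (K * (q ^ (-2 * a + 2 * δ) * t ^ g * (q ^ g)⁻¹)) ≤
      20 * (g : ℝ) ^ 2 * (|K| * (q ^ (-2 * a + 2 * δ) * t ^ g * (q ^ g)⁻¹)) := by
    calc _ ≤ (((2 * g + 2 : ℕ) : ℝ) + 1) * ((2 * g + 2 : ℕ) : ℝ) *
        (|K| * (q ^ (-2 * a + 2 * δ) * t ^ g * (q ^ g)⁻¹)) := by
          apply mul_le_mul_of_nonneg_left _ (by positivity)
          exact mul_le_mul_of_nonneg_right (le_abs_self K) e3.le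
      _ ≤ _ := mul_le_mul_of_nonneg_right e2 (mul_nonneg (abs_nonneg _) e3.le)
  have e5 := hm.trans e4
  have hqg : 0 < q ^ (g + 1) := by positivity
  have e6 := mul_le_mul_of_nonneg_left e5 (by positivity : 0 ≤ 2 * q ^ (g + 1))
  have e7 : 2 * q ^ (g + 1) * (1 / 2 * (q ^ (g + 1))⁻¹) = 1 := by field_simp
  have e8 : 2 * q ^ (g + 1) * (20 * (g : ℝ) ^ 2 * (|K| * (q ^ (-2 * a + 2 * δ) * t ^ g * (q ^ g)⁻¹))) =
      C * (20 * ((g : ℝ) ^ 2 * t ^ g)) := by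
    rw [hC, pow_succ q g]
    have : q ^ g ≠ 0 := by positivity
    field_simp
  rw [e7, e8] at e6
  linarith

end Fin

end Pool.Agent.H271R3.RC
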