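import Mathlib
import Pool.Agent.H197R3.SF.Stmts

/-!
# Project H197-SF, task BP: absolutely convergent operator series over the discrete group `ℝ`
-/

set_option autoImplicit false

namespace Pool.Agent.H271SF

open Pool.Agent.H197R3.SF

section ops

variable {X : Type} [NormedAddCommGroup X] [NormedSpace ℂ X]

/-- `ℓ¹(ℝ; X)` -/
abbrev Y (X : Type) [NormedAddCommGroup X] := lp (fun _ : ℝ => X) 1

theorem mem_iff (f : ℝ → X) : Memℓp (E := fun _ : ℝ => X) f 1 ↔ Summable (fun g => ‖f g‖) := by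
  rw [memℓp_gen_iff (by simp)]
  simp

theorem norm_eq (f : Y X) : ‖f‖ = ∑' g, ‖f g‖ := by
  rw [lp.norm_eq_tsum_rpow (by simp)]
  simp

theorem summ (f : Y X) : Summable (fun g => ‖f g‖) := (mem_iff _).mp (lp.memℓp f)

theorem summ_pw (T : X →L[ℂ] X) (f : Y X) : Summable (fun g => ‖T (f g)‖) :=
  ((summ f).mul_left ‖T‖).of_nonneg_of_le (fun _ => norm_nonneg _) (fun g => T.le_opNorm (f g))

/-- pointwise action -/
noncomputable def pw (T : X →L[ℂ] X) : Y X →L[ℂ] Y X :=
  LinearMap.mkContinuous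
    { toFun := fun f => (⟨fun g => T (f g), (mem_iff _).mpr (summ_pw T f)⟩ : Y X)
      map_add' := fun f h => by
        ext g
        exact map_add T (f g) (h g)
      map_smul' := fun c f => by
        ext g
        exact map_smul T c (f g) } ‖T‖ (fun f => by
      rw [norm_eq, norm_eq, ← tsum_mul_left]
      exact (summ_pw T f).tsum_le_tsum (fun g => T.le_opNorm (f g)) ((summ f).mul_left ‖T‖))

theorem pw_apply (T : X →L[ℂ] X) (f : Y X) (g : ℝ) : (pw T f) g = T (f g) := rfl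

theorem summ_tr (τ : ℝ) (f : Y X) : Summable (fun g => ‖f (g - τ)‖) :=
  (Equiv.subRight τ).summable_iff.mpr (summ f)

/-- translation -/
noncomputable def tr (τ : ℝ) : Y X →L[ℂ] Y X :=
  LinearMap.mkContinuous
    { toFun := fun f => (⟨fun g => f (g - τ), (mem_iff _).mpr (summ_tr τ f)⟩ : Y X)
      map_add' := fun f h => by
        ext g
        rfl
      map_smul' := fun c f => by
        ext g
        rfl } 1 (fun f => by
      rw [norm_eq, norm_eq, one_mul]
      exact ((Equiv.subRight τ).tsum_eq (fun g => ‖f g‖)).le)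

theorem tr_apply (τ : ℝ) (f : Y X) (g : ℝ) : (tr τ f) g = f (g - τ) := rfl

theorem norm_pw_le (T : X →L[ℂ] X) : ‖pw T‖ ≤ ‖T‖ :=
  LinearMap.mkContinuous_norm_le _ (norm_nonneg _) _

theorem norm_tr_le (τ : ℝ) : ‖(tr τ : Y X →L[ℂ] Y X)‖ ≤ 1 :=
  LinearMap.mkContinuous_norm_le _ zero_le_one _

theorem pw_mul (T S : X →L[ℂ] X) : pw (T * S) = pw T * pw S := by
  ext f g
  rfl

theorem pw_one : pw (1 : X →L[ℂ] X) = 1 := by
  ext f g
  rfl

theorem pw_sub (T S : X →L[ℂ] X) : pw (T - S) = pw T - pw S := by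
  ext f g
  rfl

theorem tr_zero : (tr 0 : Y X →L[ℂ] Y X) = 1 := by
  ext f g
  rw [tr_apply, sub_zero]
  rfl

theorem tr_add (s t : ℝ) : (tr (s + t) : Y X →L[ℂ] Y X) = tr s * tr t := by
  ext f g
  change f (g - (s + t)) = f (g - s - t)
  rw [sub_sub]

theorem tr_pw (τ : ℝ) (T : X →L[ℂ] X) : tr τ * pw T = pw T * tr τ := by
  ext f g
  rfl

theorem tr_tr (s t : ℝ) : (tr s : Y X →L[ℂ] Y X) * tr t = tr t * tr s := by
  rw [← tr_add, add_comm, tr_add]

/-- `pw` as a continuous linear map -/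
noncomputable def pwL : (X →L[ℂ] X) →L[ℂ] (Y X →L[ℂ] Y X) :=
  LinearMap.mkContinuous
    { toFun := pw
      map_add' := fun T S => by
        ext f g
        rfl
      map_smul' := fun c T => by
        ext f g
        rfl } 1 (fun T => by
      rw [one_mul]
      exact norm_pw_le T)

/-- evaluation -/
noncomputable def evL (f : Y X) (g : ℝ) : (Y X →L[ℂ] Y X) →L[ℂ] X :=
  LinearMap.mkContinuous
    { toFun := fun T => (T f) g
      map_add' := fun T S => rfl
      map_smul' := fun c T => rfl } ‖f‖ (fun T => by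
      refine (lp.norm_apply_le_norm (by simp) (T f) g).trans ?_
      rw [mul_comm]
      exact T.le_opNorm f)

variable [CompleteSpace X]

theorem summ_til (A : ℝ → (X →L[ℂ] X)) (hA : Summable (fun τ => ‖A τ‖)) :
    Summable (fun τ => (pw (A τ) * tr τ : Y X →L[ℂ] Y X)) := by
  refine Summable.of_norm_bounded hA (fun τ => ?_)
  refine (norm_mul_le _ _).trans ?_
  calc ‖pw (A τ)‖ * ‖(tr τ : Y X →L[ℂ] Y X)‖ ≤ ‖A τ‖ * 1 :=
        mul_le_mul (norm_pw_le _) (norm_tr_le _) (norm_nonneg _) (norm_nonneg _)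
    _ = ‖A τ‖ := mul_one _

/-- the convolution operator -/
noncomputable def til (A : ℝ → (X →L[ℂ] X)) : Y X →L[ℂ] Y X := ∑' τ, pw (A τ) * tr τ

theorem til_apply (A : ℝ → (X →L[ℂ] X)) (hA : Summable (fun τ => ‖A τ‖)) (f : Y X) (g : ℝ) :
    (til A f) g = ∑' τ, A τ (f (g - τ)) := by
  have h1 := (evL f g).hasSum (summ_til A hA).hasSum
  exact h1.tsum_eq.symm

theorem norm_til_le (A : ℝ → (X →L[ℂ] X)) (hA : Summable (fun τ => ‖A τ‖)) :
    ‖til A‖ ≤ ∑' τ, ‖A τ‖ := by
  refine tsum_of_norm_bounded hA.hasSum (fun τ => ?_)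
  refine (norm_mul_le _ _).trans ?_
  calc ‖pw (A τ)‖ * ‖(tr τ : Y X →L[ℂ] Y X)‖ ≤ ‖A τ‖ * 1 :=
        mul_le_mul (norm_pw_le _) (norm_tr_le _) (norm_nonneg _) (norm_nonneg _)
    _ = ‖A τ‖ := mul_one _

end ops

theorem taskBP : TaskBP := by
  intro hLP X _ _ _ A hA hinv
  classical
  -- the algebra
  let B : Subalgebra ℂ (Y X →L[ℂ] Y X) :=
    Subalgebra.centralizer ℂ (Set.range (tr : ℝ → (Y X →L[ℂ] Y X)))
  have hmemB : ∀ T : Y X →L[ℂ] Y X, T ∈ B ↔ ∀ τ : ℝ, tr τ * T = T * tr τ := by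
    intro T
    rw [Subalgebra.mem_centralizer_iff]
    constructor
    · intro h τ
      exact h _ ⟨τ, rfl⟩
    · rintro h _ ⟨τ, rfl⟩
      exact h τ
  have hclosed : IsClosed (B : Set (Y X →L[ℂ] Y X)) := by
    have : (B : Set (Y X →L[ℂ] Y X)) =
        ⋂ τ : ℝ, {T : Y X →L[ℂ] Y X | tr τ * T = T * tr τ} := by
      ext T
      rw [Set.mem_iInter]
      exact hmemB T
    rw [this]
    refine isClosed_iInter fun τ => isClosed_eq ?_ ?_
    · exact continuous_const.mul continuous_id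
    · exact continuous_id.mul continuous_const
  have hcomp : CompleteSpace B := hclosed.completeSpace_coe
  have htr : ∀ τ : ℝ, (tr τ : Y X →L[ℂ] Y X) ∈ B := fun τ => (hmemB _).mpr fun s => tr_tr s τ
  have hpw : ∀ T : X →L[ℂ] X, pw T ∈ B := fun T => (hmemB _).mpr fun s => tr_pw s T
  have htil : til A ∈ B := by
    have h1 := (summ_til A hA).hasSum
    refine hclosed.mem_of_tendsto h1 (Filter.Eventually.of_forall fun s => ?_)
    exact Subalgebra.sum_mem _ fun τ _ => B.mul_mem (hpw _) (htr _)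
  -- the local principle in the opposite algebra
  obtain ⟨y, hy⟩ := hLP Bᵐᵒᵖ (fun τ => MulOpposite.op ⟨tr τ, htr τ⟩)
    (by
      apply MulOpposite.unop_injective
      apply Subtype.ext
      exact tr_zero)
    (by
      intro s t
      apply MulOpposite.unop_injective
      apply Subtype.ext
      change (tr (s + t) : Y X →L[ℂ] Y X) = tr t * tr s
      rw [add_comm, tr_add])
    (by
      intro t a
      apply MulOpposite.unop_injective
      apply Subtype.ext
      change ((MulOpposite.unop a : B) : Y X →L[ℂ] Y X) * tr t =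
        tr t * ((MulOpposite.unop a : B) : Y X →L[ℂ] Y X)
      exact ((hmemB _).mp (MulOpposite.unop a).2 t).symm)
    (by
      intro t
      exact norm_tr_le t)
    (MulOpposite.op ⟨til A, htil⟩)
    (by
      intro χ hχ
      obtain ⟨u, hu⟩ := hinv χ hχ
      set b : X →L[ℂ] X := ((u⁻¹ : (X →L[ℂ] X)ˣ) : X →L[ℂ] X) with hb
      have hub : (∑' τ, χ τ • A τ) * b = 1 := by
        rw [← hu, hb, Units.mul_inv]
      refine ⟨MulOpposite.op ⟨pw b, hpw b⟩, fun τ => MulOpposite.op ⟨pw (A τ * b), hpw _⟩, ?_⟩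
      have hs1 : HasSum (fun τ => (pw (A τ) * tr τ : Y X →L[ℂ] Y X) * pw b) (til A * pw b) :=
        (summ_til A hA).hasSum.mul_right _
      have hsumχ : Summable (fun τ => χ τ • A τ) := by
        refine Summable.of_norm_bounded hA (fun τ => ?_)
        rw [norm_smul, hχ.nrm, one_mul]
      have hs2 : HasSum (fun τ => (pw (χ τ • A τ) : Y X →L[ℂ] Y X) * pw b)
          (pw (∑' τ, χ τ • A τ) * pw b) := (pwL.hasSum hsumχ.hasSum).mul_right _
      rw [← pw_mul, hub, pw_one] at hs2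
      have hs3 := hs1.sub hs2
      have hs4 : HasSum (fun τ => ((⟨tr τ, htr τ⟩ : B) - algebraMap ℂ B (χ τ)) *
          (⟨pw (A τ * b), hpw _⟩ : B)) ((⟨til A, htil⟩ : B) * ⟨pw b, hpw b⟩ - 1) := by
        have hind : Topology.IsInducing (B.val : B → (Y X →L[ℂ] Y X)) :=
          Topology.IsInducing.subtypeVal
        rw [← hind.hasSum_iff]
        refine hs3.congr_fun ?_
        intro τ
        change ((tr τ : Y X →L[ℂ] Y X) - algebraMap ℂ (Y X →L[ℂ] Y X) (χ τ)) * pw (A τ * b) =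
          (pw (A τ) * tr τ : Y X →L[ℂ] Y X) * pw b - (pw (χ τ • A τ) : Y X →L[ℂ] Y X) * pw b
        ext f g
        rfl
      exact hs4.op)
  -- the right inverse
  set c : Y X →L[ℂ] Y X := ((MulOpposite.unop y : B) : Y X →L[ℂ] Y X) with hc
  have hAc : til A * c = 1 := by
    have h1 := congrArg (fun t : Bᵐᵒᵖ => ((MulOpposite.unop t : B) : Y X →L[ℂ] Y X)) hy
    exact h1
  refine ⟨1 / (2 * (‖c‖ + 1)), by positivity, fun A' hA' hle x => ?_⟩
  have hA2 : Summable (fun τ => ‖A' τ‖) := by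
    refine Summable.of_nonneg_of_le (fun _ => norm_nonneg _) (fun τ => ?_) (hA'.add hA)
    calc ‖A' τ‖ = ‖(A' τ - A τ) + A τ‖ := by rw [sub_add_cancel]
      _ ≤ ‖A' τ - A τ‖ + ‖A τ‖ := norm_add_le _ _
  have hdiff : til A' = til A + til (fun τ => A' τ - A τ) := by
    ext f g
    change (til A' f) g = (til A f) g + (til (fun τ => A' τ - A τ) f) g
    rw [til_apply A' hA2, til_apply A hA, til_apply _ hA']
    have s1 : Summable (fun τ => A τ (f (g - τ))) :=
      ((evL f g).hasSum (summ_til A hA).hasSum).summable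
    have s2 : Summable (fun τ => (A' τ - A τ) (f (g - τ))) :=
      ((evL f g).hasSum (summ_til (fun τ => A' τ - A τ) hA').hasSum).summable
    rw [← s1.tsum_add s2]
    refine tsum_congr fun τ => ?_
    rw [ContinuousLinearMap.sub_apply]
    abel
  set t : Y X →L[ℂ] Y X := -(til (fun τ => A' τ - A τ) * c) with ht
  have htn : ‖t‖ < 1 := by
    rw [ht, norm_neg]
    refine (norm_mul_le _ _).trans_lt ?_
    have h1 := (norm_til_le _ hA').trans hle
    have h2 : 0 ≤ ‖c‖ := norm_nonneg _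
    calc ‖til fun τ => A' τ - A τ‖ * ‖c‖ ≤ 1 / (2 * (‖c‖ + 1)) * ‖c‖ :=
          mul_le_mul_of_nonneg_right h1 h2
      _ < 1 := by
          rw [div_mul_eq_mul_div, one_mul, div_lt_one (by positivity)]
          linarith
  obtain ⟨u, hu⟩ := isUnit_one_sub_of_norm_lt_one htn
  have h1 : til A' * (c * ((u⁻¹ : (Y X →L[ℂ] Y X)ˣ) : Y X →L[ℂ] Y X)) = 1 := by
    rw [← mul_assoc, hdiff, add_mul, hAc]
    have h2 : (1 : Y X →L[ℂ] Y X) + til (fun τ => A' τ - A τ) * c = u := by
      rw [hu, ht, sub_neg_eq_add]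
    rw [h2, Units.mul_inv]
  have hsx : Summable (fun g : ℝ => ‖(if g = 0 then x else 0 : X)‖) := by
    refine summable_of_ne_finset_zero (s := {0}) fun g hg => ?_
    rw [if_neg (by simpa using hg), norm_zero]
  let sx : Y X := (⟨fun g => if g = 0 then x else 0, (mem_iff _).mpr hsx⟩ : Y X)
  set F : Y X := (c * ((u⁻¹ : (Y X →L[ℂ] Y X)ˣ) : Y X →L[ℂ] Y X)) sx with hF
  refine ⟨fun g => F g, summ F, fun g => ?_⟩
  rw [← til_apply A' hA2 F g]
  have h2 : til A' F = sx := by
    have := congrArg (fun T : Y X →L[ℂ] Y X => T sx) h1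
    exact this
  rw [h2]

end Pool.Agent.H271SF
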