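import Mathlib
import Pool.Agent.H384R3.SPk.Defs4

/-!
# Project SPK384, task J: bounded multiplicative rank
-/

set_option autoImplicit false

namespace Pool.Agent.H271SPk

open Finset Pool.Agent.H384R3.SPk

theorem mem_of_support {A : Finset ℤ} {n : ℤ} (h : n ∈ (ind A).support) : n ∈ A := by
  classical
  unfold ind at h
  rw [Finsupp.mem_support_iff, Finsupp.finsetSum_apply] at h
  obtain ⟨a, ha, h2⟩ := Finset.exists_ne_zero_of_sum_ne_zero h
  rw [Finsupp.single_apply] at h2
  by_cases hc : a = n
  · exact hc ▸ ha
  · simp [hc] at h2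

theorem ind_empty : ind ∅ = 0 := by simp [ind]

theorem step {k : ℕ} (hk : 1 ≤ k) (p : ℕ) [hp : Fact p.Prime] (C : ℝ) :
    ∀ (n : ℕ) (A : Finset ℤ), A.card ≤ n → (∀ a ∈ A, 0 < a) →
      (∀ B ⊆ A, (∀ a ∈ B, ∀ b ∈ B, padicValInt p a = padicValInt p b) →
        N k (ind B) ≤ C * (B.card : ℝ)) →
      N k (ind A) ≤ (2 * k - 1) * C * (A.card : ℝ) := by
  classical
  have hk1 : (1 : ℝ) ≤ k := by exact_mod_cast hk
  intro n
  induction n with
  | zero =>
    intro A hA _ _
    have : A = ∅ := Finset.card_eq_zero.mp (Nat.le_zero.mp hA)
    subst this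
    rw [ind_empty, N_zero k hk]
    simp
  | succ n ih =>
    intro A hcard hpos hB
    rcases A.eq_empty_or_nonempty with h | h
    · subst h
      rw [ind_empty, N_zero k hk]
      simp
    · obtain ⟨a0, ha0, hmin⟩ := Finset.exists_min_image A (fun a => padicValInt p a) h
      have hsplit : ind A = ind (A.filter fun a => ¬ padicValInt p a = padicValInt p a0) +
          ind (A.filter fun a => padicValInt p a = padicValInt p a0) := by
        unfold ind
        rw [add_comm]
        exact (Finset.sum_filter_add_sum_filter_not A _ _).symm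
      have hcardeq : (A.filter fun a => padicValInt p a = padicValInt p a0).card +
          (A.filter fun a => ¬ padicValInt p a = padicValInt p a0).card = A.card :=
        Finset.card_filter_add_card_filter_not _
      have hA0pos : 0 < (A.filter fun a => padicValInt p a = padicValInt p a0).card :=
        Finset.card_pos.mpr ⟨a0, Finset.mem_filter.mpr ⟨ha0, rfl⟩⟩
      have hsm := smooth tA tB k (p ^ (padicValInt p a0 + 1)) hk
        (Nat.one_le_pow _ _ hp.out.pos)
        (ind (A.filter fun a => ¬ padicValInt p a = padicValInt p a0))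
        (ind (A.filter fun a => padicValInt p a = padicValInt p a0))
        (by
          intro m hm
          have h1 := Finset.mem_filter.mp (mem_of_support hm)
          rw [Nat.cast_pow, padicValInt_dvd_iff]
          right
          have h2 : padicValInt p a0 ≤ padicValInt p m := hmin m h1.1
          have h3 := h1.2
          omega)
        (by
          intro m hm
          have h1 := Finset.mem_filter.mp (mem_of_support hm)
          rw [Nat.cast_pow, padicValInt_dvd_iff]
          rintro (h2 | h2)
          · have := hpos m h1.1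
            omega
          · have h3 := h1.2
            omega)
      rw [← hsplit] at hsm
      have h0 : N k (ind (A.filter fun a => padicValInt p a = padicValInt p a0)) ≤
          C * ((A.filter fun a => padicValInt p a = padicValInt p a0).card : ℝ) := by
        apply hB _ (Finset.filter_subset _ _)
        intro a ha b hb
        rw [(Finset.mem_filter.mp ha).2, (Finset.mem_filter.mp hb).2]
      have h1 : N k (ind (A.filter fun a => ¬ padicValInt p a = padicValInt p a0)) ≤
          (2 * k - 1) * C *
            ((A.filter fun a => ¬ padicValInt p a = padicValInt p a0).card : ℝ) := by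
        apply ih
        · omega
        · intro a ha
          exact hpos a (Finset.mem_filter.mp ha).1
        · intro B hBs hBc
          exact hB B (hBs.trans (Finset.filter_subset _ _)) hBc
      have hc : (A.card : ℝ) =
          ((A.filter fun a => padicValInt p a = padicValInt p a0).card : ℝ) +
          ((A.filter fun a => ¬ padicValInt p a = padicValInt p a0).card : ℝ) := by
        exact_mod_cast hcardeq.symm
      rw [hc]
      have h2 := mul_le_mul_of_nonneg_left h0 (show (0:ℝ) ≤ 2 * k - 1 by linarith)
      calc N k (ind A) ≤ _ := hsm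
        _ ≤ _ := add_le_add h1 h2
        _ = _ := by ring

theorem core {k : ℕ} (hk : 1 ≤ k) {r : ℕ} (g₀ : ℚ) (g : Fin r → ℚ) (hg0 : 0 < g₀)
    (hg : ∀ i, 0 < g i) (e : ℤ → Fin r → ℤ) :
    ∀ (d : ℕ) (W : Submodule ℚ (Fin r → ℚ)), Module.finrank ℚ W ≤ d → ∀ A : Finset ℤ,
      (∀ a ∈ A, 0 < a) → (∀ a ∈ A, (a : ℚ) = g₀ * ∏ i, g i ^ e a i) →
      (∀ a ∈ A, ∀ b ∈ A, (fun i => (e a i : ℚ) - (e b i : ℚ)) ∈ W) →
      N k (ind A) ≤ (2 * k - 1) ^ d * (A.card : ℝ) := by
  classical
  have hk1 : (1 : ℝ) ≤ k := by exact_mod_cast hk
  -- the valuation functional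
  let L : ℕ → (Fin r → ℚ) →ₗ[ℚ] ℚ := fun p =>
    ∑ i, (padicValRat p (g i) : ℚ) • LinearMap.proj (R := ℚ) (φ := fun _ : Fin r => ℚ) i
  have hL : ∀ (p : ℕ) (x : Fin r → ℚ), L p x = ∑ i, (padicValRat p (g i) : ℚ) * x i := by
    intro p x
    simp [L]
  have hval : ∀ (p : ℕ) [Fact p.Prime] (a : ℤ), (a : ℚ) = g₀ * ∏ i, g i ^ e a i →
      ((padicValInt p a : ℤ) : ℚ) = padicValRat p g₀ + ∑ i, (padicValRat p (g i) : ℚ) * e a i := by
    intro p _ a ha
    have h1 : padicValRat p (a : ℚ) = padicValInt p a := padicValRat.of_int
    have h2 : padicValRat p (g₀ * ∏ i, g i ^ e a i) =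
        padicValRat p g₀ + ∑ i, padicValRat p (g i) * e a i := by
      rw [padicValRat.mul hg0.ne' (Finset.prod_ne_zero_iff.mpr fun i _ =>
        zpow_ne_zero _ (hg i).ne')]
      congr 1
      have : ∀ s : Finset (Fin r), padicValRat p (∏ i ∈ s, g i ^ e a i) =
          ∑ i ∈ s, padicValRat p (g i) * e a i := by
        intro s
        induction s using Finset.induction_on with
        | empty => simp
        | insert i s his ih =>
          rw [Finset.prod_insert his, Finset.sum_insert his, padicValRat.mul
            (zpow_ne_zero _ (hg i).ne') (Finset.prod_ne_zero_iff.mpr fun i _ =>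
            zpow_ne_zero _ (hg i).ne'), ih, padicValRat.zpow, mul_comm]
      exact this _
    rw [← h1, ha, h2]
    push_cast
    rfl
  intro d
  induction d with
  | zero =>
    intro W hW A hpos hrep hdiff
    have hW0 : W = ⊥ := by
      rw [← Submodule.finrank_eq_zero (R := ℚ)]
      omega
    have hsub : ∀ a ∈ A, ∀ b ∈ A, a = b := by
      intro a ha b hb
      have h1 := hdiff a ha b hb
      rw [hW0, Submodule.mem_bot] at h1
      have h2 : ∀ i, e a i = e b i := by
        intro i
        have := congrFun h1 i
        simp only [Pi.zero_apply] at this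
        exact_mod_cast sub_eq_zero.mp this
      have h3 : (a : ℚ) = b := by
        rw [hrep a ha, hrep b hb]
        simp_rw [h2]
      exact_mod_cast h3
    rcases A.eq_empty_or_nonempty with h | ⟨a, ha⟩
    · subst h
      rw [ind_empty, N_zero k hk]
      simp
    · have : A = {a} := by
        ext b
        rw [Finset.mem_singleton]
        exact ⟨fun hb => hsub b hb a ha, fun hb => hb ▸ ha⟩
      rw [this]
      simp [ind, N_single]
  | succ d ih =>
    intro W hW A hpos hrep hdiff
    by_cases hex : ∃ p : ℕ, p.Prime ∧ ¬ W ≤ LinearMap.ker (L p)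
    · obtain ⟨p, hp, hpW⟩ := hex
      have : Fact p.Prime := ⟨hp⟩
      have hlt : W ⊓ LinearMap.ker (L p) < W := by
        refine lt_of_le_of_ne inf_le_left ?_
        intro h
        exact hpW (inf_eq_left.mp h)
      have hfr : Module.finrank ℚ ↥(W ⊓ LinearMap.ker (L p)) ≤ d := by
        have := Submodule.finrank_lt_finrank_of_lt hlt
        omega
      have := step hk p ((2 * k - 1) ^ d) A.card A le_rfl hpos (by
        intro B hB hBc
        refine ih _ hfr B (fun a ha => hpos a (hB ha)) (fun a ha => hrep a (hB ha)) ?_
        intro a ha b hb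
        refine Submodule.mem_inf.mpr ⟨hdiff a (hB ha) b (hB hb), ?_⟩
        rw [LinearMap.mem_ker, hL]
        have h1 := hval p a (hrep a (hB ha))
        have h2 := hval p b (hrep b (hB hb))
        rw [hBc a ha b hb] at h1
        have h3 : ∑ i, (padicValRat p (g i) : ℚ) * ((e a i : ℚ) - (e b i : ℚ)) =
            (∑ i, (padicValRat p (g i) : ℚ) * e a i) -
              ∑ i, (padicValRat p (g i) : ℚ) * e b i := by
          rw [← Finset.sum_sub_distrib]
          exact Finset.sum_congr rfl fun i _ => by ring
        rw [h3]
        linarith)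
      rw [pow_succ']
      exact this
    · push Not at hex
      have hsub : ∀ a ∈ A, ∀ b ∈ A, a = b := by
        intro a ha b hb
        have hap := hpos a ha
        have hbp := hpos b hb
        have h1 : a.natAbs = b.natAbs := by
          rw [Nat.eq_iff_prime_padicValNat_eq _ _ (by omega) (by omega)]
          intro p hp
          have : Fact p.Prime := ⟨hp⟩
          have h2 := hex p hp (hdiff a ha b hb)
          rw [LinearMap.mem_ker, hL] at h2
          have h3 : ∑ i, (padicValRat p (g i) : ℚ) * ((e a i : ℚ) - (e b i : ℚ)) =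
              (∑ i, (padicValRat p (g i) : ℚ) * e a i) -
                ∑ i, (padicValRat p (g i) : ℚ) * e b i := by
            rw [← Finset.sum_sub_distrib]
            exact Finset.sum_congr rfl fun i _ => by ring
          rw [h3] at h2
          have h4 := hval p a (hrep a ha)
          have h5 := hval p b (hrep b hb)
          have h6 : ((padicValInt p a : ℤ) : ℚ) = ((padicValInt p b : ℤ) : ℚ) := by linarith
          have h7 : padicValInt p a = padicValInt p b := by exact_mod_cast h6
          exact h7
        omega
      rcases A.eq_empty_or_nonempty with h | ⟨a, ha⟩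
      · subst h
        rw [ind_empty, N_zero k hk]
        simp
      · have : A = {a} := by
          ext b
          rw [Finset.mem_singleton]
          exact ⟨fun hb => hsub b hb a ha, fun hb => hb ▸ ha⟩
        rw [this]
        have h1 : (1 : ℝ) ≤ (2 * k - 1) ^ (d + 1) := one_le_pow₀ (by linarith)
        have h2 : ind {a} = Finsupp.single a 1 := by simp [ind]
        rw [h2, N_single, Finset.card_singleton]
        simpa using h1

theorem taskJ : TaskJ := by
  classical
  intro k r hk g₀ g hg0 hg A hpos hrep
  have hrep2 : ∀ a : ℤ, ∃ e : Fin r → ℤ, a ∈ A → (a : ℚ) = g₀ * ∏ i, g i ^ e i := by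
    intro a
    by_cases ha : a ∈ A
    · obtain ⟨e, he⟩ := hrep a ha
      exact ⟨e, fun _ => he⟩
    · exact ⟨0, fun h => absurd h ha⟩
  choose e he using hrep2
  refine core hk g₀ g hg0 hg e r ⊤ ?_ A hpos he (fun _ _ _ _ => Submodule.mem_top)
  rw [finrank_top, Module.finrank_fintype_fun_eq_card, Fintype.card_fin]

end Pool.Agent.H271SPk
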